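import Pool.Agent.W_7d29a1_HN.Level
import Pool.Agent.W_7d29a1_NP.RecN

/-!
STRICT NEWMAN - PIZA AT EVERY TILT (MP_7d29a1_pr, proofs rows 649 and 663): the theorem for the law of the environment, at the tilt
`s`. (Model: `W_7d29a1_NP.NPMain`, helper64; port: helper83.)
-/

set_option autoImplicit false

namespace Pool.Agent.W_7d29a1_HN

open MeasureTheory ProbabilityTheory Filter Topology Finset
open Pool.Agent.W_7d29a1_F Pool.Agent.W_7d29a1_H Pool.Agent.W_7d29a1_HS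
open Pool.Agent.W_7d29a1_NP (rec_pure rec_final)

variable {μ : Measure ℝ} [IsProbabilityMeasure μ] {s c C : ℝ} {n₀ : ℕ}

/-- **Strict Newman - Piza at the tilt `s`**: `b_n = w_n E_n² / n` grows at least like a power, at all scales. -/
theorem np_main (h : In μ s c C n₀) : ∃ c' : ℝ, 0 < c' ∧ ∃ n₁ : ℕ, 1 ≤ n₁ ∧ ∀ m n : ℕ, n₁ ≤ m → m ≤ n →
    c' * ((n : ℝ) / m) ^ c' * bn μ s m ≤ bn μ s n := by
  obtain ⟨K, hK, hL, i₀, hc⟩ := lev_in h
  obtain ⟨T, i₂, hT1, hT⟩ := rec_pure (β := fun i => bn μ s (2 ^ i)) (fun i => bn_pos h Nat.one_le_two_pow) hK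
    (i₀ := i₀) hc hL
  obtain ⟨n₁, -, hcomp⟩ := bn_comp h
  exact rec_final (b := bn μ s) (fun n hn => bn_pos h hn) (n0 := n₁) hcomp hT1 hT

/-- **Strict Newman - Piza at the tilt `s`**, one scale: `w_n E_n² ≥ n ^ (1 + d)`. -/
theorem np_tilt (h : In μ s c C n₀) : ∃ d : ℝ, 0 < d ∧ ∃ n₁ : ℕ, ∀ n : ℕ, n₁ ≤ n →
    (n : ℝ) ^ (1 + d) ≤ wd μ s n * EE μ s n ^ 2 := by
  obtain ⟨c', hc', n₁, hn₁, h1⟩ := np_main h
  have hb := bn_pos h hn₁
  have hn1 : (0 : ℝ) < n₁ := by exact_mod_cast hn₁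
  obtain ⟨a, ha⟩ : ∃ a : ℝ, a = c' * (1 / (n₁ : ℝ)) ^ c' * bn μ s n₁ := ⟨_, rfl⟩
  have ha0 : 0 < a := by
    rw [ha]
    have : 0 < (1 / (n₁ : ℝ)) ^ c' := Real.rpow_pos_of_pos (by positivity) _
    positivity
  have ht : Tendsto (fun n : ℕ => a * (n : ℝ) ^ (c' / 2)) atTop atTop :=
    ((tendsto_rpow_atTop (half_pos hc')).comp tendsto_natCast_atTop_atTop).const_mul_atTop ha0
  obtain ⟨n₂, hn₂⟩ := eventually_atTop.1 (ht.eventually_ge_atTop 1)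
  refine ⟨c' / 2, half_pos hc', max n₁ n₂, fun n hn => ?_⟩
  have hn3 : n₁ ≤ n := (le_max_left _ _).trans hn
  have hn0 : (0 : ℝ) < n := by exact_mod_cast (show 0 < n by omega)
  have h2 := h1 n₁ n le_rfl hn3
  have h3 : 1 ≤ a * (n : ℝ) ^ (c' / 2) := hn₂ n ((le_max_right _ _).trans hn)
  have e1 : ((n : ℝ) / n₁) ^ c' = (n : ℝ) ^ c' * (1 / (n₁ : ℝ)) ^ c' := by
    rw [← Real.mul_rpow hn0.le (by positivity)]
    congr 1
    ring
  have e2 : (n : ℝ) ^ c' = (n : ℝ) ^ (c' / 2) * (n : ℝ) ^ (c' / 2) := by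
    rw [← Real.rpow_add hn0]
    congr 1
    ring
  have h4 : (n : ℝ) ^ (c' / 2) ≤ bn μ s n := by
    have h5 : a * (n : ℝ) ^ c' ≤ bn μ s n := by
      refine le_trans (le_of_eq ?_) h2
      rw [ha, e1]
      ring
    have h6 : (n : ℝ) ^ (c' / 2) * 1 ≤ (n : ℝ) ^ (c' / 2) * (a * (n : ℝ) ^ (c' / 2)) :=
      mul_le_mul_of_nonneg_left h3 (Real.rpow_nonneg hn0.le _)
    rw [e2] at h5
    linarith
  have h7 : wd μ s n * EE μ s n ^ 2 = n * bn μ s n := by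
    unfold bn
    field_simp
  rw [h7, Real.rpow_add hn0, Real.rpow_one]
  exact mul_le_mul_of_nonneg_left h4 hn0.le

end Pool.Agent.W_7d29a1_HN
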