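import Pool.Agent.W_7d29a1_HS.Mom

/-!
STRICT NEWMAN - PIZA AT EVERY TILT (MP_7d29a1_pr, proofs rows 649 and 663): the variance of the free energy is at most of the
order of the square of the unit. (Model: `sV_EE` of `W_7d29a1_SR.CoreS`; helper83.)
-/

set_option autoImplicit false

namespace Pool.Agent.W_7d29a1_HN

open MeasureTheory ProbabilityTheory
open Pool.Agent.W_7d29a1_F Pool.Agent.W_7d29a1_h4g Pool.Agent.W_7d29a1_H Pool.Agent.W_7d29a1_HS

variable {μ : Measure ℝ} [IsProbabilityMeasure μ] {s c C : ℝ} {n₀ : ℕ}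

theorem var_le83 (h : In μ s c C n₀) : ∃ A : ℝ, 0 < A ∧ ∀ n : ℕ, 1 ≤ n →
    Var[fun η => V μ s η 0 n; law μ] ≤ A ^ 2 * EE μ s n ^ 2 := by
  obtain ⟨A, h2⟩ := moments h 2
  refine ⟨Real.sqrt (|A| + 1), Real.sqrt_pos.2 (by positivity), fun n hn => ?_⟩
  rw [Real.sq_sqrt (by positivity)]
  obtain ⟨i2, m2⟩ := h2 n hn
  have hm : AEStronglyMeasurable (fun η => V μ s η 0 n) (law μ) := (measurable_V 0 n).aestronglyMeasurable
  refine (variance_le_expectation_sq hm).trans ?_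
  have e : ∫ η, V μ s η 0 n ^ 2 ∂(law μ) = ∫ η, |V μ s η 0 n| ^ 2 ∂(law μ) := by simp
  have e' : (fun η => V μ s η 0 n) ^ 2 = fun η => V μ s η 0 n ^ 2 := rfl
  rw [e', e]
  refine m2.trans (mul_le_mul_of_nonneg_right ?_ (by positivity))
  have := le_abs_self A
  linarith

end Pool.Agent.W_7d29a1_HN
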