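import Pool.Agent.W_7d29a1_SR.NuEq
import Pool.Agent.W_7d29a1_SR.Kappa

/-!
Pure statements on the exponents of two sequences, used for the scaling law at every force (copies of the pure parts of
`W_7d29a1_NP.MainNP` and `W_7d29a1_NP.Main5`, without their imports).
-/

set_option autoImplicit false

namespace Pool.Agent.W_7d29a1_HN

open Filter Topology
open Pool.Agent.W_7d29a1_SR (logr_bdd)

/-- Liminf and limsup of two bounded sequences with `e ≤ 2 x n + y n + o(1)`. -/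
theorem exp_pair {x y : ℕ → ℝ} (hx1 : IsBoundedUnder (· ≤ ·) atTop x) (hx2 : IsBoundedUnder (· ≥ ·) atTop x)
    (hy1 : IsBoundedUnder (· ≤ ·) atTop y) (hy2 : IsBoundedUnder (· ≥ ·) atTop y) {e : ℝ}
    (h : ∀ ε : ℝ, 0 < ε → ∀ᶠ n in atTop, e - ε ≤ 2 * x n + y n) :
    e ≤ 2 * liminf x atTop + limsup y atTop ∧ e ≤ 2 * limsup x atTop + liminf y atTop := by
  constructor
  · refine le_of_forall_pos_le_add fun ε hε => ?_
    have h1 : (e - limsup y atTop - ε) / 2 ≤ liminf x atTop := by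
      refine le_liminf_of_le hx1.isCoboundedUnder_ge ?_
      filter_upwards [h (ε / 2) (by positivity), eventually_lt_of_limsup_lt
        (show limsup y atTop < limsup y atTop + ε / 2 by linarith) hy1] with n h2 h3
      linarith
    linarith
  · refine le_of_forall_pos_le_add fun ε hε => ?_
    have h1 : e - 2 * limsup x atTop - ε ≤ liminf y atTop := by
      refine le_liminf_of_le hy1.isCoboundedUnder_ge ?_
      filter_upwards [h (ε / 2) (by positivity), eventually_lt_of_limsup_lt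
        (show limsup x atTop < limsup x atTop + ε / 4 by linarith) hx1] with n h2 h3
      linarith
    linarith

/-- The exponents of `w` and `σ` from `c n ^ (1 + d) ≤ w σ²`. -/
theorem exp_np {w σ : ℕ → ℝ} {c d b B b' B' : ℝ} (hc : 0 < c)
    (hw1 : ∀ᶠ n : ℕ in atTop, (n : ℝ) ^ b ≤ w n) (hw2 : ∀ᶠ n : ℕ in atTop, w n ≤ (n : ℝ) ^ B)
    (hσ1 : ∀ᶠ n : ℕ in atTop, (n : ℝ) ^ b' ≤ σ n) (hσ2 : ∀ᶠ n : ℕ in atTop, σ n ≤ (n : ℝ) ^ B')
    (h : ∀ᶠ n : ℕ in atTop, c * (n : ℝ) ^ (1 + d) ≤ w n * σ n ^ 2) :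
    1 + d ≤ 2 * liminf (fun n : ℕ => Real.log (σ n) / Real.log n) atTop +
      limsup (fun n : ℕ => Real.log (w n) / Real.log n) atTop ∧
    1 + d ≤ 2 * limsup (fun n : ℕ => Real.log (σ n) / Real.log n) atTop +
      liminf (fun n : ℕ => Real.log (w n) / Real.log n) atTop := by
  obtain ⟨n₁, h1⟩ := eventually_atTop.1 (hw1.and (hw2.and (hσ1.and hσ2)))
  have hbw := logr_bdd (w := w) (n₁ := n₁) (b := b) (B := B) (fun n hn => (h1 n hn).1) fun n hn => (h1 n hn).2.1
  have hbs := logr_bdd (w := σ) (n₁ := n₁) (b := b') (B := B') (fun n hn => (h1 n hn).2.2.1) fun n hn => (h1 n hn).2.2.2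
  refine exp_pair hbs.1 hbs.2 hbw.1 hbw.2 fun ε hε => ?_
  have hlog : Tendsto (fun n : ℕ => Real.log n) atTop atTop := Real.tendsto_log_atTop.comp tendsto_natCast_atTop_atTop
  filter_upwards [h, eventually_ge_atTop n₁, eventually_ge_atTop 2, hlog.eventually_ge_atTop (|Real.log c| / ε)]
    with n h2 h4 h5 h6
  have hn2 : (2 : ℝ) ≤ n := by exact_mod_cast h5
  have hn0 : (0 : ℝ) < n := by linarith
  have hl : 0 < Real.log n := Real.log_pos (by linarith)
  obtain ⟨k1, k2, k3, k4⟩ := h1 n h4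
  have hwp : 0 < w n := (Real.rpow_pos_of_pos hn0 _).trans_le k1
  have hsp : 0 < σ n := (Real.rpow_pos_of_pos hn0 _).trans_le k3
  have h7 := Real.log_le_log (mul_pos hc (Real.rpow_pos_of_pos hn0 _)) h2
  rw [Real.log_mul hc.ne' (Real.rpow_pos_of_pos hn0 _).ne', Real.log_rpow hn0, Real.log_mul hwp.ne' (by positivity),
    Real.log_pow] at h7
  push_cast at h7
  have h8 : -(ε * Real.log n) ≤ Real.log c := by
    rw [div_le_iff₀ hε] at h6
    have := neg_abs_le (Real.log c)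
    linarith
  have h9 : 2 * (Real.log (σ n) / Real.log n) + Real.log (w n) / Real.log n =
      (2 * Real.log (σ n) + Real.log (w n)) / Real.log n := by ring
  rw [h9, le_div_iff₀ hl]
  linarith

/-- The lower end of the window of the exponents, strict form. -/
theorem kappa_strict {x y : ℕ → ℝ} {κ c : ℝ} (hκ : 0 < κ)
    (hd : Tendsto (fun n : ℕ => x n - (1 - κ * (1 - y n))) atTop (𝓝 0))
    (hy1 : IsBoundedUnder (· ≤ ·) atTop y) (h1 : ∀ ε : ℝ, 0 < ε → ∀ᶠ n in atTop, 1 + c - ε ≤ 2 * x n + y n) :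
    (2 * κ - 1 + c) / (2 * κ + 1) ≤ liminf y atTop := by
  refine le_of_forall_pos_le_add fun ε hε => ?_
  have h3 : (2 * κ - 1 + c) / (2 * κ + 1) - ε ≤ liminf y atTop := by
    refine le_liminf_of_le hy1.isCoboundedUnder_ge ?_
    filter_upwards [h1 (ε / 4) (by positivity), hd.eventually (gt_mem_nhds (show (0 : ℝ) < ε / 4 by positivity))] with n g1 g2
    rw [sub_le_iff_le_add, div_le_iff₀ (by positivity)]
    nlinarith
  linarith

/-- The exponent of the rate function at `0` is at least one. -/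
theorem kappa_one {J : ℝ → ℝ} {κ C₃ a₃ : ℝ} (hC₃ : 0 < C₃) (ha₃ : 0 < a₃) (hJp : ∀ v, 0 < v → v < 1 / 2 → 0 < J v)
    (hJ3 : ∀ v, 0 < v → v ≤ 1 / 2 → J v ≤ C₃ * v ^ (1 + a₃))
    (hκ : Tendsto (fun v : ℝ => Real.log (J v) / Real.log v) (𝓝[>] 0) (𝓝 κ)) : 1 ≤ κ := by
  refine ge_of_tendsto hκ ?_
  have hsmall : ∀ᶠ v : ℝ in 𝓝[>] 0, 0 < v ∧ v < min (1 / 2) (Real.exp (-(|Real.log C₃| / a₃))) := by
    refine Filter.Eventually.and self_mem_nhdsWithin ?_
    exact (gt_mem_nhds (lt_min (by norm_num) (Real.exp_pos _))).filter_mono nhdsWithin_le_nhds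
  filter_upwards [hsmall] with v ⟨hv0, hv⟩
  have hv1 : v < 1 / 2 := hv.trans_le (min_le_left _ _)
  have hv2 : v < Real.exp (-(|Real.log C₃| / a₃)) := hv.trans_le (min_le_right _ _)
  have hlv : Real.log v < 0 := Real.log_neg hv0 (by linarith)
  have hl2 : Real.log v ≤ -(|Real.log C₃| / a₃) := by
    have := Real.log_le_log hv0 hv2.le
    rwa [Real.log_exp] at this
  have hl3 : Real.log C₃ ≤ -(a₃ * Real.log v) := by
    have h1 : |Real.log C₃| / a₃ ≤ -Real.log v := by linarith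
    rw [div_le_iff₀ ha₃] at h1
    have := le_abs_self (Real.log C₃)
    linarith
  have h1 := hJ3 v hv0 hv1.le
  have h2 := Real.log_le_log (hJp v hv0 hv1) h1
  rw [Real.log_mul hC₃.ne' (Real.rpow_pos_of_pos hv0 _).ne', Real.log_rpow hv0] at h2
  rw [le_div_iff_of_neg hlv, one_mul]
  linarith


/-- The upper end of the window of the exponents, strict form. -/
theorem kappa_up96 {x : ℕ → ℝ} {κ c nu : ℝ} (hκ : 0 < κ) (hnu : limsup x atTop = 1 - κ * (1 - nu))
    (hx2 : IsBoundedUnder (· ≥ ·) atTop x) (h : ∀ᶠ n in atTop, x n ≤ 1 / 2 - c) : nu ≤ 1 - (1 / 2 + c) / κ := by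
  have h1 : limsup x atTop ≤ 1 / 2 - c := limsup_le_of_le hx2.isCoboundedUnder_le h
  rw [hnu] at h1
  have h2 : (1 / 2 + c) / κ ≤ 1 - nu := by
    rw [div_le_iff₀ hκ]
    linarith
  linarith

/-- The exponent of `σ n` when `σ n ≤ n ^ B`. -/
theorem logr_le96 {σ : ℕ → ℝ} {b B : ℝ} (h1 : ∀ᶠ n : ℕ in atTop, (n : ℝ) ^ b ≤ σ n)
    (h2 : ∀ᶠ n : ℕ in atTop, σ n ≤ (n : ℝ) ^ B) : ∀ᶠ n : ℕ in atTop, Real.log (σ n) / Real.log n ≤ B := by
  filter_upwards [h1, h2, eventually_ge_atTop 2] with n h3 h4 h5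
  have hn2 : (2 : ℝ) ≤ n := by exact_mod_cast h5
  have hn0 : (0 : ℝ) < n := by linarith
  have hl : 0 < Real.log n := Real.log_pos (by linarith)
  have hs : 0 < σ n := (Real.rpow_pos_of_pos hn0 _).trans_le h3
  rw [div_le_iff₀ hl, ← Real.log_rpow hn0]
  exact Real.log_le_log hs h4

end Pool.Agent.W_7d29a1_HN
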