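import Pool.Agent.W_7d29a1_HN.MainNP
import Pool.Agent.W_7d29a1_HN.ExpPure
import Pool.Agent.W_7d29a1_HS.Main3
import Pool.Agent.W_7d29a1_HM.Dual
import Pool.Agent.W_7d29a1_H.MirH52

/-!
MP_7d29a1_pr, TRACK H: THE SCALING LAW AT EVERY FORCE, strict form (models `W_7d29a1_NP.Main5` at the force `0` and helper40's
`W_7d29a1_HS.Main3`): strict Newman - Piza, superconcentration, both tails of the free energy from below, the non random
fluctuation, the spread of the end point. (helper96, helper40)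
-/

set_option autoImplicit false

namespace Pool.Agent.W_7d29a1_HN

open MeasureTheory ProbabilityTheory Filter Topology
open Pool.Agent.W_7d29a1_F Pool.Agent.W_7d29a1_h4g Pool.Agent.W_7d29a1_H Pool.Agent.W_7d29a1_HS
open Pool.Agent.W_7d29a1_h47 (Lam LamN walk energy polE endMGF endP forceP forceE tendsto_logZ EM_of Nondeg_of map_toEnv
  log_endMGF)
open Pool.Agent.W_7d29a1_SR (toF mp_toF wid)

/-- **THE SCALING LAW AT EVERY FORCE**, strict form: from the results of the chain at every tilt. -/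
theorem main_H5
    (hIn : ∀ (μ : Measure ℝ) [IsProbabilityMeasure μ], Pool.Agent.W_7d29a1_h47.EM μ → Pool.Agent.W_7d29a1_h47.Nondeg μ →
      ∀ s : ℝ, ∃ (c C : ℝ) (n₀ : ℕ), In μ s c C n₀)
    (hNP : ∀ (μ : Measure ℝ) [IsProbabilityMeasure μ] (s c C : ℝ) (n₀ : ℕ), In μ s c C n₀ →
      ∃ c' : ℝ, 0 < c' ∧ ∃ n₁ : ℕ, 1 ≤ n₁ ∧ ∀ m n : ℕ, n₁ ≤ m → m ≤ n → c' * ((n : ℝ) / m) ^ c' * bn μ s m ≤ bn μ s n)
    (hSC : ∀ (μ : Measure ℝ) [IsProbabilityMeasure μ] (s c C : ℝ) (n₀ : ℕ), In μ s c C n₀ →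
      ∃ (D e : ℝ) (n₁ : ℕ), 0 < D ∧ 0 < e ∧ e ≤ 1 ∧ 1 ≤ n₁ ∧ ∀ m n : ℕ, n₁ ≤ m → m ≤ n →
        EE μ s n ^ 2 ≤ D * ((n : ℝ) / m) ^ (1 - e) * EE μ s m ^ 2)
    {Ω : Type*} [MeasurableSpace Ω] (P : Measure Ω) [IsProbabilityMeasure P]
    (ω : ℕ × ℤ → Ω → ℝ) (hmeas : ∀ p, Measurable (ω p)) (hindep : iIndepFun ω P)
    (hident : ∀ p q, IdentDistrib (ω p) (ω q) P P) (hnc : ¬ ∃ c : ℝ, ∀ᵐ x ∂P, ω (0, 0) x = c)
    (hexp : ∀ b : ℝ, Integrable (fun x => Real.exp (b * ω (0, 0) x)) P) {β : ℝ} (hβ : 0 < β)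
    (hTl : ∀ (μ : Measure ℝ) [IsProbabilityMeasure μ] (h c C : ℝ) (n₀ : ℕ), In μ (2 * h) c C n₀ →
      MeasurePreserving (fun x => toF β fun p => ω p x) P (law μ) →
      ∃ a A : ℝ, 0 < a ∧ 0 < A ∧ ∀ᶠ n : ℕ in atTop, ∀ t : ℝ, 1 ≤ t → t ≤ (n : ℝ) ^ a →
        Real.exp (-(A * t ^ A)) ≤ P.real {x | t * sgm P β h ω n ≤
          Real.log (parZ β h (fun p => ω p x) n) - ∫ y, Real.log (parZ β h (fun p => ω p y) n) ∂P} ∧
        Real.exp (-(A * t ^ A)) ≤ P.real {x | Real.log (parZ β h (fun p => ω p x) n) -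
          ∫ y, Real.log (parZ β h (fun p => ω p y) n) ∂P ≤ -(t * sgm P β h ω n)})
    (hNR : ∀ (μ : Measure ℝ) [IsProbabilityMeasure μ] (h c C : ℝ) (n₀ : ℕ), In μ (2 * h) c C n₀ →
      MeasurePreserving (fun x => toF β fun p => ω p x) P (law μ) →
      ∃ c' : ℝ, 0 < c' ∧ ∀ᶠ n : ℕ in atTop,
        c' * sgm P β h ω n ≤ n * (Lam μ h - Real.log 2) - ∫ x, Real.log (parZ β h (fun p => ω p x) n) ∂P ∧
        c' * sgm P β h ω n ≤ ∫ x, Real.log (parZ β h (fun p => ω p x) (2 * n)) ∂P -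
          2 * ∫ x, Real.log (parZ β h (fun p => ω p x) n) ∂P)
    (hE1 : ∀ (μ : Measure ℝ) [IsProbabilityMeasure μ] (h c C : ℝ) (n₀ : ℕ), In μ (2 * h) c C n₀ →
      MeasurePreserving (fun x => toF β fun p => ω p x) P (law μ) → ∀ ε : ℝ, 0 < ε →
      ∃ c' : ℝ, 0 < c' ∧ ∃ n₁ : ℕ, ∀ n, n₁ ≤ n →
        ∫ x, forceP β h (fun p => ω p x) n
          {s | |(walk s n : ℝ) - vel μ h * n| ≤ c' * wth P β h ω (fun v => J μ (2 * h) (v / 2)) n} ∂P ≤ ε)
    (hE2 : ∀ (μ : Measure ℝ) [IsProbabilityMeasure μ] (h c C : ℝ) (n₀ : ℕ), In μ (2 * h) c C n₀ →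
      MeasurePreserving (fun x => toF β fun p => ω p x) P (law μ) → ∀ q : ℕ,
      ∃ b : ℝ, 0 < b ∧ ∃ n₁ : ℕ, ∀ n, n₁ ≤ n →
        b * wth P β h ω (fun v => J μ (2 * h) (v / 2)) n ^ q ≤
          ∫ x, forceE β h (fun p => ω p x) n (fun s => |(walk s n : ℝ) - vel μ h * n| ^ q) ∂P) :
    ∃ (lam J : ℝ → ℝ) (F : ℝ), Differentiable ℝ lam ∧ lam 0 = 0 ∧ deriv lam 0 = 0 ∧
      -- the free energy and the rate function of the end point
      (∀ h, ∀ᵐ x ∂P, Tendsto (fun n : ℕ => Real.log (parZ β h (fun p => ω p x) n) / n) atTop (𝓝 (F + lam h))) ∧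
      (∀ v, |v| < 1 → ∀ y : ℕ → ℤ, (∀ n, (y n - n) % 2 = 0) → Tendsto (fun n : ℕ => (y n : ℝ) / n) atTop (𝓝 v) →
        ∀ᵐ x ∂P, Tendsto (fun n : ℕ => -Real.log (endP β (fun p => ω p x) n (y n)) / n) atTop (𝓝 (J v))) ∧
      (∀ v, |v| < 1 → IsLUB (Set.range fun h => h * v - lam h) (J v)) ∧
      ∀ h : ℝ, ∃ (v : ℝ) (I : ℝ → ℝ) (σ w : ℕ → ℝ) (c C : ℝ) (n₁ : ℕ), 0 < c ∧ v = deriv lam h ∧ |v| < 1 ∧
        -- the rate function around the velocity `v`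
        (∀ u, I u = J (v + u) - J v - h * u) ∧
        (∀ u, |u| < 1 → |v + u| < 1 → c * |u| ^ C ≤ I u) ∧
        (∀ u, |u| ≤ c → I u ≤ C * |u| ^ (1 + c) ∧ I (-u) ≤ C * I u) ∧
        (∀ u R : ℝ, 1 ≤ R → |R * u| ≤ c → c * R ^ (1 + c) * I u ≤ I (R * u) ∧ I (R * u) ≤ C * R ^ C * I u) ∧
        (∀ k, |k| ≤ c → lam (h + k) - lam h - k * v ≤ C * |k| ^ (1 + c)) ∧
        -- the standard deviation and the width
        (∀ n, σ n = Real.sqrt (Var[fun x => Real.log (parZ β h (fun p => ω p x) n); P])) ∧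
        (∀ n, w n = sSup {r : ℝ | 0 ≤ r ∧ r < (1 - |v|) * n ∧ n * I (r / n) ≤ σ n}) ∧
        (∀ᶠ n : ℕ in atTop, (n : ℝ) ^ c ≤ σ n ∧ σ n ≤ (n : ℝ) ^ (1 / 2 - c) ∧
          (n : ℝ) ^ (1 / 3 + c) ≤ w n ∧ w n ≤ (n : ℝ) ^ (1 - c) ∧
          n * I (w n / n) = σ n ∧ (n : ℝ) ^ (1 + c) ≤ w n * σ n ^ 2 ∧ (n : ℝ) ^ c * σ n ≤ w n ∧
          c * σ n ≤ n * (F + lam h) - ∫ x, Real.log (parZ β h (fun p => ω p x) n) ∂P ∧
          n * (F + lam h) - ∫ x, Real.log (parZ β h (fun p => ω p x) n) ∂P ≤ C * σ n ∧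
          c * σ n ≤ ∫ x, Real.log (parZ β h (fun p => ω p x) (2 * n)) ∂P -
            2 * ∫ x, Real.log (parZ β h (fun p => ω p x) n) ∂P) ∧
        (∀ m n : ℕ, n₁ ≤ m → m ≤ n →
          c * ((n : ℝ) / m) ^ c * σ m ≤ σ n ∧ σ n ≤ C * ((n : ℝ) / m) ^ (1 / 2 - c) * σ m ∧
          c * ((n : ℝ) / m) ^ c * w m ≤ w n ∧ w n ≤ C * ((n : ℝ) / m) ^ (1 - c) * w m ∧
          c * ((n : ℝ) / m) ^ (1 + c) * (w m * σ m ^ 2) ≤ w n * σ n ^ 2) ∧
        -- the fluctuations of the free energy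
        (∀ᶠ n : ℕ in atTop, ∀ s : ℝ, 0 ≤ s →
          P.real {x | s * σ n ≤ |Real.log (parZ β h (fun p => ω p x) n) - ∫ y, Real.log (parZ β h (fun p => ω p y) n) ∂P|} ≤
            C * Real.exp (-(c * s ^ c))) ∧
        (∀ᶠ n : ℕ in atTop, ∀ s : ℝ, 1 ≤ s → s ≤ (n : ℝ) ^ c →
          Real.exp (-(C * s ^ C)) ≤ P.real {x | s * σ n ≤
            Real.log (parZ β h (fun p => ω p x) n) - ∫ y, Real.log (parZ β h (fun p => ω p y) n) ∂P} ∧
          Real.exp (-(C * s ^ C)) ≤ P.real {x | Real.log (parZ β h (fun p => ω p x) n) -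
            ∫ y, Real.log (parZ β h (fun p => ω p y) n) ∂P ≤ -(s * σ n)}) ∧
        -- the fluctuations of the path around the line of velocity `v`
        (∀ᶠ n : ℕ in atTop, ∀ R : ℝ, 1 ≤ R →
          1 - ∫ x, forceP β h (fun p => ω p x) n (bal n v (R * w n)) ∂P ≤ C * Real.exp (-(c * R ^ c))) ∧
        (∀ ε : ℝ, 0 < ε → ∃ a : ℝ, 0 < a ∧ ∀ᶠ n : ℕ in atTop,
          ∫ x, forceP β h (fun p => ω p x) n {s | |(walk s n : ℝ) - v * n| ≤ a * w n} ∂P ≤ ε) ∧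
        (∀ q : ℕ, ∃ a A : ℝ, 0 < a ∧ ∀ᶠ n : ℕ in atTop,
          a * w n ^ q ≤ ∫ x, forceE β h (fun p => ω p x) n (fun s => |(walk s n : ℝ) - v * n| ^ q) ∂P ∧
          ∫ x, forceE β h (fun p => ω p x) n (fun s => mx v s ^ q) ∂P ≤ A * w n ^ q) ∧
        -- the exponents
        nuH P β h v ω = limsup (fun n : ℕ => Real.log (w n) / Real.log n) atTop ∧
        chiH P β h ω = liminf (fun n : ℕ => Real.log (σ n) / Real.log n) atTop ∧
        1 / 3 + c ≤ liminf (fun n : ℕ => Real.log (w n) / Real.log n) atTop ∧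
        liminf (fun n : ℕ => Real.log (w n) / Real.log n) atTop ≤ nuH P β h v ω ∧ nuH P β h v ω ≤ 1 - c ∧
        c ≤ chiH P β h ω ∧ chiH P β h ω ≤ limsup (fun n : ℕ => Real.log (σ n) / Real.log n) atTop ∧
        limsup (fun n : ℕ => Real.log (σ n) / Real.log n) atTop ≤ 1 / 2 - c ∧
        1 + c ≤ 2 * chiH P β h ω + nuH P β h v ω ∧
        1 + c ≤ 2 * limsup (fun n : ℕ => Real.log (σ n) / Real.log n) atTop +
          liminf (fun n : ℕ => Real.log (w n) / Real.log n) atTop ∧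
        ∀ κ : ℝ, Tendsto (fun u : ℝ => Real.log (I u) / Real.log u) (𝓝[>] 0) (𝓝 κ) →
          limsup (fun n : ℕ => Real.log (σ n) / Real.log n) atTop = 1 - κ * (1 - nuH P β h v ω) ∧
          chiH P β h ω = 1 - κ * (1 - liminf (fun n : ℕ => Real.log (w n) / Real.log n) atTop) ∧
          (2 * κ - 1 + c) / (2 * κ + 1) ≤ liminf (fun n : ℕ => Real.log (w n) / Real.log n) atTop ∧
          nuH P β h v ω ≤ 1 - (1 / 2 + c) / κ := by
  obtain ⟨⟨lam, J', -, hdiff, -, -, -, h4, -, h6, h7, -, -, -⟩, -⟩ :=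
    Pool.Agent.W_7d29a1_F.main_FV P ω hmeas hindep hident hnc hexp hβ
  obtain ⟨μ, hμdef⟩ : ∃ μ : Measure ℝ, μ = P.map fun x => β * ω (0, 0) x := ⟨_, rfl⟩
  have hm0 : Measurable fun x => β * ω (0, 0) x := (hmeas _).const_mul β
  have hprob : IsProbabilityMeasure μ := by
    rw [hμdef]
    exact Measure.isProbabilityMeasure_map hm0.aemeasurable
  have hμ : Pool.Agent.W_7d29a1_h47.EM μ := by
    rw [hμdef]
    exact EM_of (hmeas _) hexp β
  have hnd : Pool.Agent.W_7d29a1_h47.Nondeg μ := by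
    rw [hμdef]
    exact Nondeg_of (hmeas _) hnc hβ
  have hmpE := map_toEnv hmeas hindep hident β
  rw [← hμdef] at hmpE
  have hmp := mp_toF hmeas hindep hident β
  rw [← hμdef] at hmp
  have hid : lam = LamN μ := by
    funext h
    have g1 := hmpE.quasiMeasurePreserving.ae (tendsto_logZ hμ h)
    have g2 := hmpE.quasiMeasurePreserving.ae (tendsto_logZ hμ 0)
    obtain ⟨x, hx1, hx2, hx3⟩ := (g1.and (g2.and (h4 h))).exists
    refine tendsto_nhds_unique hx3 ((hx1.sub hx2).congr fun n => ?_)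
    rw [log_endMGF, sub_div]
  have hidL : ∀ h, lam h = Lam μ h - Lam μ 0 := by
    intro h
    rw [hid]
    rfl
  have hlam0 : lam 0 = 0 := by rw [hidL, sub_self]
  have hFl : ∀ h, Lam μ 0 - Real.log 2 + lam h = Lam μ h - Real.log 2 := by
    intro h
    rw [hidL]
    ring
  have hvelA : ∀ h, vel μ h = deriv lam h := by
    intro h
    rw [vel_eq hμ hnd, hid]
    have : LamN μ = fun x => Lam μ x - Lam μ 0 := rfl
    rw [this, deriv_sub_const]
  have hvel0 : deriv lam 0 = 0 := by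
    have h1 := sl_mir hμ 0 hnd
    rw [neg_zero] at h1
    rw [← hvelA 0]
    unfold vel
    rw [mul_zero]
    linarith
  refine ⟨lam, J', Lam μ 0 - Real.log 2, hdiff, hlam0, hvel0, fun h => by rw [hFl]; exact lim_parZ hμ hmpE h, h7, h6,
    fun h => ?_⟩
  simp only [hFl]
  -- the velocity
  have hvel : vel μ h = deriv lam h := hvelA h
  have hv1 := abs_vel hμ hnd h
  have he0 : 0 < 1 - |vel μ h| := by linarith
  have he1 : 1 - |vel μ h| ≤ 1 := by linarith [abs_nonneg (vel μ h)]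
  obtain ⟨ρ, hρ, hρ1, hJe, hJl⟩ := rate_near hμ hnd hidL h6 h
  obtain ⟨I, hIdef⟩ : ∃ I : ℝ → ℝ, ∀ u, I u = J' (vel μ h + u) - J' (vel μ h) - h * u := ⟨_, fun _ => rfl⟩
  simp only [← hIdef] at hJe hJl
  obtain ⟨c₀, C₀, n₀, hI⟩ := hIn μ hμ hnd (2 * h)
  have hrf := hI.rf
  -- the bounds of the rate function
  obtain ⟨cp, Kp, hcp, hKp, hJlow⟩ := J_ge_pow hI
  obtain ⟨Cu, hCu, hJup⟩ := J_le_pow hμ hnd |2 * h|
  obtain ⟨aj, Kj, haj, hKj, hjreg⟩ := J_reg hI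
  obtain ⟨D, δs, hD, hδs, hsym⟩ := hI.sym
  obtain ⟨cr, Cr, hcr, hCr, n₁, hn₁, hreg⟩ := regP (P := P) (β := β) (ω := ω) hI hmp
  obtain ⟨k, hk, np, hnp, hnp1, hnp2⟩ := np_P (P := P) (β := β) (ω := ω) hI hmp (hNP μ (2 * h) c₀ C₀ n₀ hI)
  obtain ⟨ks, Ks, hks, hks1, hKs, n₄, hn₄, hsc1, hsc2⟩ := sc_P (P := P) (β := β) (ω := ω) hI hmp (hSC μ (2 * h) c₀ C₀ n₀ hI)
  obtain ⟨cn, hcn, hnon⟩ := hNR μ h c₀ C₀ n₀ hI hmp
  obtain ⟨ct, Ct, hct, hCt, htl⟩ := hTl μ h c₀ C₀ n₀ hI hmp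
  obtain ⟨bd, Kd, hbd, hKd, hdual⟩ := Pool.Agent.W_7d29a1_HM.ex_pow96 hI
  have hlow : ∀ v, |v| < 1 → cp * (1 / 2) ^ Kp * |v| ^ Kp ≤ J μ (2 * h) (v / 2) := by
    intro v hv
    have h1 := hJlow (v / 2) (by rw [abs_div, abs_of_pos (two_pos : (0 : ℝ) < 2)]; linarith)
    rw [abs_div, abs_of_pos (two_pos : (0 : ℝ) < 2)] at h1
    refine le_trans (le_of_eq ?_) h1
    rw [show |v| / 2 = 1 / 2 * |v| by ring, Real.mul_rpow (by norm_num) (abs_nonneg v)]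
    ring
  have hup : ∀ v : ℝ, J μ (2 * h) (v / 2) ≤ Cu * |v| ^ (1 + 1 / 99 : ℝ) := by
    intro v
    refine (hJup (2 * h) le_rfl (v / 2)).trans (mul_le_mul_of_nonneg_left ?_ hCu.le)
    refine Real.rpow_le_rpow (abs_nonneg _) ?_ (by norm_num)
    rw [abs_div, abs_of_pos (two_pos : (0 : ℝ) < 2)]
    linarith [abs_nonneg v]
  have hcp' : 0 < cp * (1 / 2) ^ Kp := by positivity
  obtain ⟨c₉, hc₉⟩ : ∃ c₉ : ℝ, c₉ = min (min (min cr cn) (min aj (cp * (1 / 2) ^ Kp)))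
      (min (min (min ρ δs) (1 / 99)) (min (min (k / 2) ct) (min (ks / 2) bd))) := ⟨_, rfl⟩
  have hc₉0 : 0 < c₉ := by rw [hc₉]; positivity
  obtain ⟨C₉, hC₉⟩ : ∃ C₉ : ℝ, C₉ = max (max (max Cr Cu) (max (max Kj D) Kp)) (max Ct (max Ks (Kd * 2 ^ (1 + bd)))) := ⟨_, rfl⟩
  obtain ⟨σ, w', c, C, M, hσ, hw', hc, hc1, hC, hca, hCa, hS, hdev, -, hexit, -, hmax, hnu, hchi, e1, e2, e3, e4, -, -,
    hκ⟩ := core_P hI hmeas hmp (c₂ := cp * (1 / 2) ^ Kp) (K₂ := Kp) (C₃ := Cu) (a₃ := 1 / 99) hcp' hKp hlow hCu (by norm_num)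
      (fun v _ => hup v) (c₉ := c₉) hc₉0 C₉
  rw [hc₉] at hca
  rw [hC₉] at hCa
  simp only [le_min_iff] at hca
  simp only [max_le_iff] at hCa
  obtain ⟨⟨⟨kcr, kcn⟩, kaj, kcp⟩, ⟨⟨kρ, kδ⟩, k99⟩, ⟨kk, kct⟩, kks, kbd⟩ := hca
  obtain ⟨⟨⟨KCr, KCu⟩, ⟨KKj, KD⟩, KKp⟩, KCt, KKs, KKd⟩ := hCa
  -- the width
  obtain ⟨w, hw⟩ : ∃ w : ℕ → ℝ, ∀ n, w n = sSup {r : ℝ | 0 ≤ r ∧ r < (1 - |vel μ h|) * n ∧ n * I (r / n) ≤ σ n} :=
    ⟨_, fun _ => rfl⟩
  have hκ0 : 0 < J μ (2 * h) (ρ / 2) := J_pos96 hI (by positivity)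
  have hww : ∀ᶠ n : ℕ in atTop, w n = w' n := by
    filter_upwards [hS, eventually_ge_atTop 1, ev_pow (δ := 1 / 2) (by norm_num) (C / J μ (2 * h) (ρ / 2) + 1)] with n h1 h2 h3
    have hn0 : (0 : ℝ) < n := by exact_mod_cast h2
    have h5 : σ n < n * J μ (2 * h) (ρ / 2) := by
      have h8 : (n : ℝ) = (n : ℝ) ^ (1 / 2 : ℝ) * (n : ℝ) ^ (1 / 2 : ℝ) := by
        rw [← Real.rpow_add hn0]
        norm_num
      have h9 : 0 < (n : ℝ) ^ (1 / 2 : ℝ) := Real.rpow_pos_of_pos hn0 _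
      have h10 : C < J μ (2 * h) (ρ / 2) * (n : ℝ) ^ (1 / 2 : ℝ) := by
        have h11 : C / J μ (2 * h) (ρ / 2) < (n : ℝ) ^ (1 / 2 : ℝ) := by linarith
        rw [div_lt_iff₀ hκ0] at h11
        linarith
      calc σ n ≤ C * (n : ℝ) ^ (1 / 2 : ℝ) := h1.2.1
        _ < J μ (2 * h) (ρ / 2) * (n : ℝ) ^ (1 / 2 : ℝ) * (n : ℝ) ^ (1 / 2 : ℝ) := mul_lt_mul_of_pos_right h10 h9
        _ = n * J μ (2 * h) (ρ / 2) := by
          rw [mul_assoc, ← h8]
          ring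
    rw [hw, hw']
    refine wid_end96 (K := I) (L := fun v => J μ (2 * h) (v / 2)) (δ := ρ) (κ := J μ (2 * h) (ρ / 2)) h2 hρ1.le he1
      (fun v hv0 hv => hJe v (by rw [abs_of_nonneg hv0]; exact hv.le)) (fun v hv0 hv => ?_) (fun v hv0 _ => ?_) h5
    · exact (hrf.mono (by positivity) (by linarith)).trans (hJl v (by rw [abs_of_nonneg (by linarith)]; exact hv))
    · exact hrf.mono (by positivity) (by linarith)
  obtain ⟨N, hN⟩ := eventually_atTop.1 hww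
  have hlog : (fun n : ℕ => Real.log (w n) / Real.log n) =ᶠ[atTop] fun n : ℕ => Real.log (w' n) / Real.log n :=
    hww.mono fun n hn => by show Real.log (w n) / Real.log n = _; rw [hn]
  rw [← limsup_congr hlog] at hnu
  rw [← liminf_congr hlog] at e1 e2
  have hwe : ∀ n, w' n = wth P β h ω (fun v => J μ (2 * h) (v / 2)) n := by
    intro n
    rw [hw', hσ n]
    rfl
  have hNP2 : ∀ᶠ n : ℕ in atTop, (n : ℝ) ^ (1 + c) ≤ w' n * σ n ^ 2 := by
    filter_upwards [ev_absorb (b := 1 + k) (b' := 1 + c) (K := k) hk (by linarith), eventually_ge_atTop np] with n g1 g2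
    rw [hwe n, hσ n]
    exact g1.trans (hnp1 n g2)
  have hSC2 : ∀ᶠ n : ℕ in atTop, σ n ≤ (n : ℝ) ^ (1 / 2 - c) := by
    filter_upwards [ev_absorb (b := 1 / 2 - c) (b' := 1 / 2 - ks) (K := 1 / Ks) (by positivity) (by linarith),
      eventually_ge_atTop n₄] with n g1 g2
    rw [hσ n]
    refine (hsc1 n g2).trans ?_
    calc Ks * (n : ℝ) ^ (1 / 2 - ks) ≤ Ks * (1 / Ks * (n : ℝ) ^ (1 / 2 - c)) := mul_le_mul_of_nonneg_left g1 hKs.le
      _ = (n : ℝ) ^ (1 / 2 - c) := by field_simp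
  have hW1 : ∀ᶠ n : ℕ in atTop, (n : ℝ) ^ (1 / 3 + c) ≤ w' n := hS.mono fun n h => h.2.2.1
  have hW2 : ∀ᶠ n : ℕ in atTop, w' n ≤ (n : ℝ) ^ (1 - c) := hS.mono fun n h => h.2.2.2.1
  have hσ1 : ∀ᶠ n : ℕ in atTop, (n : ℝ) ^ c ≤ σ n := hS.mono fun n h => h.1
  have hexps := exp_np (c := 1) (d := c) one_pos hW1 hW2 hσ1 hSC2 (hNP2.mono fun n h => by rw [one_mul]; exact h)
  have hbs : IsBoundedUnder (· ≤ ·) atTop (fun n : ℕ => Real.log (σ n) / Real.log n) ∧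
      IsBoundedUnder (· ≥ ·) atTop (fun n : ℕ => Real.log (σ n) / Real.log n) := by
    obtain ⟨n₅, h5⟩ := eventually_atTop.1 (hσ1.and hSC2)
    exact Pool.Agent.W_7d29a1_SR.logr_bdd (w := σ) (n₁ := n₅) (b := c) (B := 1 / 2 - c) (fun n hn => (h5 n hn).1)
      fun n hn => (h5 n hn).2
  have hσe : ∀ᶠ n : ℕ in atTop, Real.log (σ n) / Real.log n ≤ 1 / 2 - c := logr_le96 hσ1 hSC2
  rw [← limsup_congr hlog, ← liminf_congr hlog] at hexps
  refine ⟨vel μ h, I, σ, w, c, C, max (max n₁ np) (max n₄ N), hc, hvel, hv1, hIdef, ?_, ?_, ?_, ?_, hσ, hw, ?_, ?_,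
    hdev, ?_, ?_, ?_, ?_, hnu, hchi, e1, e2, e3, e4, by rw [hchi]; exact liminf_le_limsup hbs.1 hbs.2,
    limsup_le_of_le hbs.2.isCoboundedUnder_le hσe, by rw [hchi, hnu]; exact hexps.1, hexps.2, ?_⟩
  · intro u hu1 hu2
    have h1 : J μ (2 * h) (u / 2) ≤ I u := by
      rw [hIdef]
      exact J_le_lub hμ hnd hidL h u _ _ (h6 _ hu2) (h6 _ hv1)
    have hu0 := abs_nonneg u
    refine le_trans (mul_le_mul kcp ?_ (Real.rpow_nonneg hu0 _) hcp'.le) ((hlow u hu1).trans h1)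
    rcases eq_or_lt_of_le hu0 with h1 | h1
    · rw [← h1, Real.zero_rpow hKp.ne', Real.zero_rpow (by linarith)]
    · exact Real.rpow_le_rpow_of_exponent_ge h1 hu1.le KKp
  · intro u hu
    have hu1 : |u| < 1 := by
      have : ρ < 1 := hρ1.trans_le he1
      linarith
    have hu0 := abs_nonneg u
    rw [hJe u (hu.trans kρ), hJe (-u) (by rw [abs_neg]; exact hu.trans kρ)]
    refine ⟨?_, ?_⟩
    · refine (hup u).trans (mul_le_mul KCu ?_ (Real.rpow_nonneg hu0 _) hC.le)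
      rcases eq_or_lt_of_le hu0 with h1 | h1
      · rw [← h1, Real.zero_rpow (by norm_num), Real.zero_rpow (by positivity)]
      · exact Real.rpow_le_rpow_of_exponent_ge h1 hu1.le (by linarith)
    · have h1 := (hsym (u / 2) (by rw [abs_div, abs_of_pos (two_pos : (0 : ℝ) < 2)]; linarith)).2
      rw [show -u / 2 = -(u / 2) by ring]
      exact h1.trans (mul_le_mul_of_nonneg_right KD (hrf.nn _))
  · intro u R hR hRu
    have hR0 : 0 < R := by linarith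
    have hu : |u| ≤ |R * u| := by
      rw [abs_mul, abs_of_pos hR0]
      exact le_mul_of_one_le_left (abs_nonneg u) hR
    have h1 := hjreg (u / 2) R hR (by
      rw [show R * (u / 2) = R * u / 2 by ring, abs_div, abs_of_pos (two_pos : (0 : ℝ) < 2)]
      linarith [abs_nonneg (R * u)])
    rw [show R * (u / 2) = R * u / 2 by ring, ← hJe u ((hu.trans hRu).trans kρ), ← hJe _ (hRu.trans kρ)] at h1
    have hIu : 0 ≤ I u := by
      rw [hJe u ((hu.trans hRu).trans kρ)]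
      exact hrf.nn _
    exact ⟨(mul_le_mul_of_nonneg_right (mul_le_mul kaj (Real.rpow_le_rpow_of_exponent_le hR (by linarith))
        (Real.rpow_nonneg hR0.le _) haj.le) hIu).trans h1.1,
      h1.2.trans (mul_le_mul_of_nonneg_right (mul_le_mul KKj (Real.rpow_le_rpow_of_exponent_le hR KKj)
        (Real.rpow_nonneg hR0.le _) hC.le) hIu)⟩
  · intro r hr
    have e1 : lam (h + r) - lam h - r * vel μ h = ex μ (2 * h) (2 * r) := by
      rw [ex_vel, hidL, hidL, mul_div_cancel_left₀ _ (two_ne_zero' ℝ)]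
      ring
    have e2 : |2 * r| = 2 * |r| := by rw [abs_mul, abs_of_pos (two_pos : (0 : ℝ) < 2)]
    have h1 := hdual (2 * r) (by rw [e2]; linarith)
    have hr0 := abs_nonneg r
    rw [e1]
    refine h1.trans ?_
    rw [e2, Real.mul_rpow (by norm_num) hr0, ← mul_assoc]
    refine mul_le_mul KKd ?_ (Real.rpow_nonneg hr0 _) hC.le
    rcases eq_or_lt_of_le hr0 with h2 | h2
    · rw [← h2, Real.zero_rpow (by positivity), Real.zero_rpow (by positivity)]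
    · exact Real.rpow_le_rpow_of_exponent_ge h2 (by linarith) (by linarith)
  · filter_upwards [hS, hww, eventually_ge_atTop 1, ev_pow hc (1 / ρ), hnon, hNP2, hSC2]
      with n h1 hn9 h2 h9 hn8 x2 x3
    obtain ⟨m1, -, m3, m4, m5, m6, -, -, m9, m10, m11⟩ := h1
    rw [hn9]
    have hn0 : (0 : ℝ) < n := by exact_mod_cast h2
    have hw0 : 0 < w' n := (Real.rpow_pos_of_pos hn0 _).trans_le m3
    have hv0 : 0 < w' n / n := div_pos hw0 hn0
    have hvρ : w' n / n ≤ ρ := by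
      have h5 : (n : ℝ) ^ (1 - c) * (n : ℝ) ^ c = n := by
        rw [← Real.rpow_add hn0]
        norm_num
      have h10 : 0 < (n : ℝ) ^ (1 - c) := Real.rpow_pos_of_pos hn0 _
      rw [div_le_iff₀ hn0]
      have h11 : 1 ≤ ρ * (n : ℝ) ^ c := by
        rw [div_le_iff₀ hρ] at h9
        linarith
      calc w' n ≤ (n : ℝ) ^ (1 - c) := m4
        _ ≤ (n : ℝ) ^ (1 - c) * (ρ * (n : ℝ) ^ c) := le_mul_of_one_le_right h10.le h11
        _ = ρ * ((n : ℝ) ^ (1 - c) * (n : ℝ) ^ c) := by ring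
        _ = ρ * n := by rw [h5]
    have hσ0 : 0 ≤ σ n := (Real.rpow_nonneg hn0.le _).trans m1
    refine ⟨m1, x3, m3, m4, ?_, x2, m11, ?_, m10, ?_⟩
    · rw [hJe _ (by rw [abs_of_pos hv0]; exact hvρ)]
      exact m5
    · refine (mul_le_mul_of_nonneg_right kcn hσ0).trans ?_
      rw [hσ n]
      exact hn8.1
    · refine (mul_le_mul_of_nonneg_right kcn hσ0).trans ?_
      rw [hσ n]
      exact hn8.2
  · intro m n hm hmn
    have hm1 : n₁ ≤ m := (le_max_left _ _).trans ((le_max_left _ _).trans hm)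
    have hm3 : np ≤ m := (le_max_right _ _).trans ((le_max_left _ _).trans hm)
    have hm4 : n₄ ≤ m := (le_max_left _ _).trans ((le_max_right _ _).trans hm)
    have hm2 : N ≤ m := (le_max_right _ _).trans ((le_max_right _ _).trans hm)
    obtain ⟨r1, -, r3, r4⟩ := hreg m n hm1 hmn
    have r2 := hsc2 m n hm4 hmn
    have r5 := hnp2 m n hm3 hmn
    have hmR : (0 : ℝ) < m := by exact_mod_cast (hn₁.trans hm1)
    have hr : (1 : ℝ) ≤ (n : ℝ) / m := by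
      rw [le_div_iff₀ hmR, one_mul]
      exact_mod_cast hmn
    have hr0 : (0 : ℝ) < (n : ℝ) / m := by linarith
    have s0 : 0 ≤ sgm P β h ω m := Real.sqrt_nonneg _
    have w0 : 0 ≤ wth P β h ω (fun v => J μ (2 * h) (v / 2)) m := by
      refine Real.sSup_nonneg ?_
      rintro r ⟨h1, -⟩
      exact h1
    have x1 : c * ((n : ℝ) / m) ^ c ≤ cr * ((n : ℝ) / m) ^ cr :=
      mul_le_mul kcr (Real.rpow_le_rpow_of_exponent_le hr kcr) (Real.rpow_nonneg hr0.le _) hcr.le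
    have x2 : Cr * ((n : ℝ) / m) ^ (1 - cr) ≤ C * ((n : ℝ) / m) ^ (1 - c) :=
      mul_le_mul KCr (Real.rpow_le_rpow_of_exponent_le hr (by linarith)) (Real.rpow_nonneg hr0.le _) hC.le
    have x3 : Ks * ((n : ℝ) / m) ^ (1 / 2 - ks) ≤ C * ((n : ℝ) / m) ^ (1 / 2 - c) :=
      mul_le_mul KKs (Real.rpow_le_rpow_of_exponent_le hr (by linarith)) (Real.rpow_nonneg hr0.le _) hC.le
    have x5 : c * ((n : ℝ) / m) ^ (1 + c) ≤ k * ((n : ℝ) / m) ^ (1 + k) :=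
      mul_le_mul (by linarith) (Real.rpow_le_rpow_of_exponent_le hr (by linarith)) (Real.rpow_nonneg hr0.le _) hk.le
    rw [hN m hm2, hN n (hm2.trans hmn), hσ m, hσ n, hwe m, hwe n]
    exact ⟨(mul_le_mul_of_nonneg_right x1 s0).trans r1, r2.trans (mul_le_mul_of_nonneg_right x3 s0),
      (mul_le_mul_of_nonneg_right x1 w0).trans r3, r4.trans (mul_le_mul_of_nonneg_right x2 w0),
      (mul_le_mul_of_nonneg_right x5 (mul_nonneg w0 (sq_nonneg _))).trans r5⟩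
  · -- both tails from below
    filter_upwards [htl, eventually_ge_atTop 1] with n h1 h2 s hs1 hs2
    have hn1 : (1 : ℝ) ≤ n := by exact_mod_cast h2
    have hs0 : 0 < s := by linarith
    have h3 : Real.exp (-(C * s ^ C)) ≤ Real.exp (-(Ct * s ^ Ct)) := by
      rw [Real.exp_le_exp, neg_le_neg_iff]
      exact mul_le_mul KCt (Real.rpow_le_rpow_of_exponent_le hs1 KCt) (Real.rpow_nonneg hs0.le _) hC.le
    obtain ⟨g1, g2⟩ := h1 s hs1 (hs2.trans (Real.rpow_le_rpow_of_exponent_le hn1 kct))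
    rw [← hσ n] at g1 g2
    exact ⟨h3.trans g1, h3.trans g2⟩
  · filter_upwards [hexit, hww] with n h1 h2
    rw [h2]
    exact h1
  · -- the end point is spread
    intro ε hε
    obtain ⟨a', ha', n₅, g⟩ := hE1 μ h c₀ C₀ n₀ hI hmp ε hε
    refine ⟨a', ha', ?_⟩
    filter_upwards [eventually_ge_atTop n₅, hww] with n hn h2
    rw [h2, hwe n]
    exact g n hn
  · intro q
    obtain ⟨a', A', -, g1⟩ := hmax q
    obtain ⟨b', hb', n₅, g2⟩ := hE2 μ h c₀ C₀ n₀ hI hmp q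
    refine ⟨b', A', hb', ?_⟩
    filter_upwards [g1, eventually_ge_atTop n₅, hww] with n h1 hn h2
    rw [h2]
    refine ⟨?_, h1.2⟩
    rw [hwe n]
    exact g2 n hn
  · intro κ h1
    have h1' : Tendsto (fun v : ℝ => Real.log (J μ (2 * h) (v / 2)) / Real.log v) (𝓝[>] 0) (𝓝 κ) := by
      refine h1.congr' ?_
      have h2 : ∀ᶠ v : ℝ in 𝓝[>] 0, 0 < v ∧ v < ρ :=
        Filter.Eventually.and self_mem_nhdsWithin ((gt_mem_nhds hρ).filter_mono nhdsWithin_le_nhds)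
      filter_upwards [h2] with v hv
      rw [hJe v (by rw [abs_of_pos hv.1]; exact hv.2.le)]
    obtain ⟨g1, g2, -, -⟩ := hκ κ h1'
    have hκ1 : 1 ≤ κ := kappa_one (J := fun v => J μ (2 * h) (v / 2)) hCu (show (0 : ℝ) < 1 / 99 by norm_num)
      (fun v hv0 _ => J_pos96 hI (by positivity))
      (fun v hv0 _ => by
        have h3 := hup v
        rw [abs_of_pos hv0] at h3
        exact h3) h1'
    have hκ00 : 0 < κ := by linarith
    obtain ⟨N', hN'⟩ := eventually_atTop.1 hS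
    have q1 : ∀ n, max 1 N' ≤ n → (1 : ℝ) ≤ n ∧ N' ≤ n := fun n hn =>
      ⟨by exact_mod_cast (le_max_left _ _).trans hn, (le_max_right _ _).trans hn⟩
    have hdf := Pool.Agent.W_7d29a1_SR.kappa_diff (J := fun v => J μ (2 * h) (v / 2)) (σ := σ) (w := w') (n₁ := max 1 N')
      (κ := κ) (a := 1) (A := 1) (c := c) h1' hc
      (fun n hn => (Real.one_le_rpow (q1 n hn).1 (by positivity)).trans (hN' n (q1 n hn).2).2.2.1)
      (fun n hn => (hN' n (q1 n hn).2).2.2.2.1) one_pos one_pos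
      (fun n hn => (Real.rpow_pos_of_pos (by linarith [(q1 n hn).1]) _).trans_le (hN' n (q1 n hn).2).1)
      (fun n hn => by rw [one_mul]; exact (hN' n (q1 n hn).2).2.2.2.2.1.le)
      (fun n hn => by rw [one_mul]; exact (hN' n (q1 n hn).2).2.2.2.2.1.ge)
    obtain ⟨n₅, h5⟩ := eventually_atTop.1 (hW1.and hW2)
    have hbw := Pool.Agent.W_7d29a1_SR.logr_bdd (w := w') (n₁ := n₅) (b := 1 / 3 + c) (B := 1 - c) (fun n hn => (h5 n hn).1)
      fun n hn => (h5 n hn).2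
    have hstr := kappa_strict (c := c) hκ00 hdf hbw.1 (fun ε hε => by
        filter_upwards [hNP2, hW1, hσ1, eventually_ge_atTop 2] with n k2 k3 k4 k5
        have hn2 : (2 : ℝ) ≤ n := by exact_mod_cast k5
        have hn0 : (0 : ℝ) < n := by linarith
        have hl : 0 < Real.log n := Real.log_pos (by linarith)
        have hwp : 0 < w' n := (Real.rpow_pos_of_pos hn0 _).trans_le k3
        have hsp : 0 < σ n := (Real.rpow_pos_of_pos hn0 _).trans_le k4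
        have h7 := Real.log_le_log (Real.rpow_pos_of_pos hn0 _) k2
        rw [Real.log_rpow hn0, Real.log_mul hwp.ne' (by positivity), Real.log_pow] at h7
        push_cast at h7
        have h9 : 2 * (Real.log (σ n) / Real.log n) + Real.log (w' n) / Real.log n =
            (2 * Real.log (σ n) + Real.log (w' n)) / Real.log n := by ring
        rw [h9, le_div_iff₀ hl]
        nlinarith)
    rw [← liminf_congr hlog] at hstr g2
    exact ⟨g1, g2, hstr, kappa_up96 hκ00 g1 hbs.2 hσe⟩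

end Pool.Agent.W_7d29a1_HN
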