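import Pool.Agent.W_7d29a1_HN.Defs

/-!
STRICT NEWMAN - PIZA AT EVERY TILT (MP_7d29a1_pr, proofs rows 649, 663), section 1: variances of conditional expectations given disjoint
sets of sites (Bessel) and the dichotomy. (helper25; here for the definitions of `W_7d29a1_HN.Defs`, the text is that of `W_7d29a1_NP.Bessel`)
-/

namespace Pool.Agent.W_7d29a1_HN

open MeasureTheory ProbabilityTheory Filter Topology Finset
open Pool.Agent.W_7d29a1_f21
open Pool.Agent.W_7d29a1_X42 hiding sl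

noncomputable section

variable {μ : Measure ℝ} [IsProbabilityMeasure μ] {ι : Type*} {F : (ι → ℝ) → ℝ}

/-- The centred conditional expectation given the sites of `A`. -/
def fA (μ : Measure ℝ) (A : Set ι) (F : (ι → ℝ) → ℝ) : (ι → ℝ) → ℝ := fun g => cE μ Aᶜ F g - ∫ g', F g' ∂(lw ι μ)

omit [IsProbabilityMeasure μ] in
lemma fA_dep (A : Set ι) (F : (ι → ℝ) → ℝ) : DependsOn (fA μ A F) A := by
  have h := cE_congr (μ := μ) Aᶜ F
  rw [compl_compl] at h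
  intro g g' hg
  unfold fA
  rw [h hg]

lemma measurable_fA (hm : Measurable F) (A : Set ι) : Measurable (fA μ A F) := (measurable_cE hm Aᶜ).sub_const _

lemma memLp_fA (hm : Measurable F) (hF : MemLp F 2 (lw ι μ)) (A : Set ι) : MemLp (fA μ A F) 2 (lw ι μ) :=
  (memLp_cE hm hF Aᶜ).sub (memLp_const _)

lemma int_cE (hF : Integrable F (lw ι μ)) (A : Set ι) : ∫ g, cE μ A F g ∂(lw ι μ) = ∫ g, F g ∂(lw ι μ) := by
  have h := int_mul_cE (μ := μ) A (F := F) (H := fun _ => (1 : ℝ)) (by simpa using hF) (fun _ _ _ => rfl)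
  simpa using h.symm

lemma int_fA (hm : Measurable F) (hF : MemLp F 2 (lw ι μ)) (A : Set ι) : ∫ g, fA μ A F g ∂(lw ι μ) = 0 := by
  have h1 := int_cE (hF.integrable (by norm_num)) Aᶜ
  have i1 : Integrable (cE μ Aᶜ F) (lw ι μ) := (memLp_cE hm hF Aᶜ).integrable (by norm_num)
  unfold fA
  rw [integral_sub i1 (integrable_const _), h1]
  simp

/-- Projection. -/
lemma int_mul_fA (hm : Measurable F) (hF : MemLp F 2 (lw ι μ)) {A : Set ι} {H : (ι → ℝ) → ℝ}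
    (hH : MemLp H 2 (lw ι μ)) (hd : DependsOn H A) (h0 : ∫ g, H g ∂(lw ι μ) = 0) :
    ∫ g, F g * H g ∂(lw ι μ) = ∫ g, fA μ A F g * H g ∂(lw ι μ) := by
  have hd' : DependsOn H Aᶜᶜ := by rw [compl_compl]; exact hd
  have i0 : Integrable (fun g => F g * H g) (lw ι μ) := hF.integrable_mul hH
  have i1 : Integrable (fun g => cE μ Aᶜ F g * H g) (lw ι μ) := (memLp_cE hm hF Aᶜ).integrable_mul hH
  have i2 : Integrable (fun g => (∫ g', F g' ∂(lw ι μ)) * H g) (lw ι μ) := (hH.integrable (by norm_num)).const_mul _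
  rw [int_mul_cE Aᶜ i0 hd']
  have h1 : ∀ g, fA μ A F g * H g = cE μ Aᶜ F g * H g - (∫ g', F g' ∂(lw ι μ)) * H g := by
    intro g
    unfold fA
    ring
  simp only [h1]
  rw [integral_sub i1 i2, integral_const_mul, h0]
  ring

lemma uv_eq (hm : Measurable F) (hF : MemLp F 2 (lw ι μ)) (A : Set ι) :
    uv μ A F = ∫ g, fA μ A F g ^ 2 ∂(lw ι μ) := by
  set c := ∫ g, F g ∂(lw ι μ) with hc
  have h1 := int_cE (hF.integrable (by norm_num)) Aᶜ
  have m1 := memLp_cE hm hF Aᶜ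
  have i1 : Integrable (cE μ Aᶜ F) (lw ι μ) := m1.integrable (by norm_num)
  have i2 := m1.integrable_sq
  have h2 : ∀ g, fA μ A F g ^ 2 = cE μ Aᶜ F g ^ 2 - (2 * c) * cE μ Aᶜ F g + c ^ 2 := by
    intro g
    unfold fA
    rw [← hc]
    ring
  have i3 : Integrable (fun g => cE μ Aᶜ F g ^ 2 - (2 * c) * cE μ Aᶜ F g) (lw ι μ) := i2.sub (i1.const_mul _)
  unfold uv
  simp only [h2]
  rw [integral_add i3 (integrable_const _), integral_sub i2 (i1.const_mul _), integral_const_mul, h1, ← hc]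
  simp
  ring

theorem uv_nonneg (hm : Measurable F) (hF : MemLp F 2 (lw ι μ)) (A : Set ι) : 0 ≤ uv μ A F := by
  rw [uv_eq hm hF]
  exact integral_nonneg fun _ => sq_nonneg _

theorem uv_le_var (hm : Measurable F) (hF : MemLp F 2 (lw ι μ)) (A : Set ι) : uv μ A F ≤ Var[F; lw ι μ] := by
  have h1 : Var[F; lw ι μ] = ∫ g, F g ^ 2 ∂(lw ι μ) - (∫ g, F g ∂(lw ι μ)) ^ 2 := by
    rw [ProbabilityTheory.variance_eq_sub hF]
    rfl
  have h2 := ev_nonneg (μ := μ) Aᶜ F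
  rw [ev_eq hF, qF_eq hm hF] at h2
  rw [h1]
  unfold uv
  linarith

/-- Cauchy - Schwarz. -/
lemma cs_int {f h : (ι → ℝ) → ℝ} (hf : MemLp f 2 (lw ι μ)) (hh : MemLp h 2 (lw ι μ)) :
    (∫ g, f g * h g ∂(lw ι μ)) ^ 2 ≤ (∫ g, f g ^ 2 ∂(lw ι μ)) * ∫ g, h g ^ 2 ∂(lw ι μ) := by
  have i1 := hf.integrable_sq
  have i2 := hh.integrable_sq
  have i3 : Integrable (fun g => f g * h g) (lw ι μ) := hf.integrable_mul hh
  have key : ∀ t : ℝ, 0 ≤ (∫ g, h g ^ 2 ∂(lw ι μ)) * (t * t) + (2 * ∫ g, f g * h g ∂(lw ι μ)) * t +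
      ∫ g, f g ^ 2 ∂(lw ι μ) := by
    intro t
    have h1 : (∫ g, (f g + t * h g) ^ 2 ∂(lw ι μ)) = (∫ g, h g ^ 2 ∂(lw ι μ)) * (t * t) +
        (2 * ∫ g, f g * h g ∂(lw ι μ)) * t + ∫ g, f g ^ 2 ∂(lw ι μ) := by
      have h2 : ∀ g, (f g + t * h g) ^ 2 = (t * t) * h g ^ 2 + (2 * t) * (f g * h g) + f g ^ 2 := by
        intro g
        ring
      simp only [h2]
      have i4 : Integrable (fun g => (t * t) * h g ^ 2 + (2 * t) * (f g * h g)) (lw ι μ) :=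
        (i2.const_mul _).add (i3.const_mul _)
      rw [integral_add i4 i1, integral_add (i2.const_mul _) (i3.const_mul _), integral_const_mul, integral_const_mul]
      ring
    rw [← h1]
    exact integral_nonneg fun _ => sq_nonneg _
  have h3 := discrim_le_zero key
  unfold discrim at h3
  nlinarith

lemma int_sum_sq {τ : Type*} [DecidableEq τ] (s : Finset τ) {f : τ → (ι → ℝ) → ℝ}
    (hf : ∀ i ∈ s, MemLp (f i) 2 (lw ι μ))
    (h0 : ∀ i ∈ s, ∀ j ∈ s, i ≠ j → ∫ g, f i g * f j g ∂(lw ι μ) = 0) :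
    ∫ g, (∑ i ∈ s, f i g) ^ 2 ∂(lw ι μ) = ∑ i ∈ s, ∫ g, f i g ^ 2 ∂(lw ι μ) := by
  have i1 : ∀ i ∈ s, ∀ j ∈ s, Integrable (fun g => f i g * f j g) (lw ι μ) := fun i hi j hj =>
    (hf i hi).integrable_mul (hf j hj)
  have h1 : ∀ g, (∑ i ∈ s, f i g) ^ 2 = ∑ i ∈ s, ∑ j ∈ s, f i g * f j g := by
    intro g
    rw [sq, Finset.sum_mul_sum]
  simp only [h1]
  rw [integral_finsetSum s fun i hi => integrable_finsetSum s fun j hj => i1 i hi j hj]
  refine Finset.sum_congr rfl fun i hi => ?_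
  rw [integral_finsetSum s fun j hj => i1 i hi j hj, Finset.sum_eq_single_of_mem i hi fun j hj hij =>
    h0 i hi j hj (Ne.symm hij)]
  refine integral_congr_ae (Filter.Eventually.of_forall fun g => ?_)
  simp only
  ring

/-- The part of the conditional expectation given `B` which is orthogonal to the functions of one of the sets `A i`. -/
def gB (μ : Measure ℝ) {τ : Type*} (s : Finset τ) (A : τ → Set ι) (B : Set ι) (F : (ι → ℝ) → ℝ) : (ι → ℝ) → ℝ :=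
  fun g => fA μ B F g - ∑ i ∈ s, fA μ (A i) F g

lemma memLp_gB (hm : Measurable F) (hF : MemLp F 2 (lw ι μ)) {τ : Type*} (s : Finset τ) (A : τ → Set ι) (B : Set ι) :
    MemLp (gB μ s A B F) 2 (lw ι μ) := by
  have h1 : MemLp (fun g => ∑ i ∈ s, fA μ (A i) F g) 2 (lw ι μ) :=
    memLp_finsetSum s fun i _ => memLp_fA hm hF (A i)
  exact (memLp_fA hm hF B).sub h1

lemma int_gB_sq (hm : Measurable F) (hF : MemLp F 2 (lw ι μ)) {τ : Type*} [DecidableEq τ] (s : Finset τ)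
    (A : τ → Set ι) (hd : ∀ i ∈ s, ∀ j ∈ s, i ≠ j → Disjoint (A i) (A j)) {B : Set ι} (hB : ∀ i ∈ s, A i ⊆ B) :
    ∫ g, gB μ s A B F g ^ 2 ∂(lw ι μ) = uv μ B F - ∑ i ∈ s, uv μ (A i) F := by
  have mB := memLp_fA hm hF B
  have mA : ∀ i, MemLp (fA μ (A i) F) 2 (lw ι μ) := fun i => memLp_fA hm hF (A i)
  have mS : MemLp (fun g => ∑ i ∈ s, fA μ (A i) F g) 2 (lw ι μ) := memLp_finsetSum s fun i _ => mA i
  have h1 : ∀ i ∈ s, ∫ g, fA μ B F g * fA μ (A i) F g ∂(lw ι μ) = uv μ (A i) F := by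
    intro i hi
    have d1 : DependsOn (fA μ (A i) F) B := fun g g' h => fA_dep (A i) F fun p hp => h p (hB i hi hp)
    have e1 := int_mul_fA hm hF (mA i) d1 (int_fA hm hF (A i))
    have e2 := int_mul_fA hm hF (mA i) (fA_dep (A i) F) (int_fA hm hF (A i))
    rw [← e1, e2, uv_eq hm hF]
    refine integral_congr_ae (Filter.Eventually.of_forall fun g => ?_)
    simp only
    ring
  have h2 : ∫ g, (∑ i ∈ s, fA μ (A i) F g) ^ 2 ∂(lw ι μ) = ∑ i ∈ s, uv μ (A i) F := by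
    rw [int_sum_sq s (fun i _ => mA i)]
    · exact Finset.sum_congr rfl fun i _ => (uv_eq hm hF (A i)).symm
    · intro i hi j hj hij
      have d2 : DependsOn (fA μ (A j) F) (A i)ᶜ := fun g g' h => fA_dep (A j) F fun p hp =>
        h p fun hp' => Set.disjoint_left.1 (hd i hi j hj hij) hp' hp
      rw [integral_mul_indep (A i) (measurable_fA hm (A i)) (measurable_fA hm (A j)) (fA_dep (A i) F) d2,
        int_fA hm hF, zero_mul]
  have h3 : ∫ g, fA μ B F g * ∑ i ∈ s, fA μ (A i) F g ∂(lw ι μ) = ∑ i ∈ s, uv μ (A i) F := by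
    have e1 : ∀ g, fA μ B F g * ∑ i ∈ s, fA μ (A i) F g = ∑ i ∈ s, fA μ B F g * fA μ (A i) F g := fun g =>
      Finset.mul_sum _ _ _
    have e2 : ∀ i ∈ s, Integrable (fun g => fA μ B F g * fA μ (A i) F g) (lw ι μ) := fun i _ =>
      mB.integrable_mul (mA i)
    simp only [e1]
    rw [integral_finsetSum s e2]
    exact Finset.sum_congr rfl h1
  have i1 := mB.integrable_sq
  have i2 := mS.integrable_sq
  have i3 : Integrable (fun g => fA μ B F g * ∑ i ∈ s, fA μ (A i) F g) (lw ι μ) := mB.integrable_mul mS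
  have h4 : ∀ g, gB μ s A B F g ^ 2 = fA μ B F g ^ 2 - 2 * (fA μ B F g * ∑ i ∈ s, fA μ (A i) F g) +
      (∑ i ∈ s, fA μ (A i) F g) ^ 2 := by
    intro g
    unfold gB
    ring
  simp only [h4]
  have i4 : Integrable (fun g => fA μ B F g ^ 2 - 2 * (fA μ B F g * ∑ i ∈ s, fA μ (A i) F g)) (lw ι μ) :=
    i1.sub (i3.const_mul _)
  rw [integral_add i4 i2, integral_sub i1 (i3.const_mul _), integral_const_mul, h2, h3, uv_eq hm hF B]
  ring

theorem uv_sum_le (hm : Measurable F) (hF : MemLp F 2 (lw ι μ)) {τ : Type*} [DecidableEq τ] (s : Finset τ)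
    (A : τ → Set ι) (hd : ∀ i ∈ s, ∀ j ∈ s, i ≠ j → Disjoint (A i) (A j)) {B : Set ι} (hB : ∀ i ∈ s, A i ⊆ B) :
    ∑ i ∈ s, uv μ (A i) F ≤ uv μ B F := by
  have h1 := int_gB_sq hm hF s A hd hB
  have h2 : 0 ≤ ∫ g, gB μ s A B F g ^ 2 ∂(lw ι μ) := integral_nonneg fun _ => sq_nonneg _
  linarith

/-- (1.3) -/
theorem dich (hm : Measurable F) (hF : MemLp F 2 (lw ι μ)) {τ : Type*} [DecidableEq τ] (s : Finset τ)
    (A : τ → Set ι) (hd : ∀ i ∈ s, ∀ j ∈ s, i ≠ j → Disjoint (A i) (A j)) {B : Set ι} (hB : ∀ i ∈ s, A i ⊆ B)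
    {Y : (ι → ℝ) → ℝ} (_hYm : Measurable Y) (hY : MemLp Y 2 (lw ι μ)) (hYd : DependsOn Y B)
    (hY0 : ∫ g, Y g ∂(lw ι μ) = 0) {Yj : τ → (ι → ℝ) → ℝ} (_hjm : ∀ j ∈ s, Measurable (Yj j))
    (hj : ∀ j ∈ s, MemLp (Yj j) 2 (lw ι μ)) (_hj0 : ∀ j ∈ s, ∫ g, Yj j g ∂(lw ι μ) = 0)
    (hYY : ∀ j ∈ s, ∀ H : (ι → ℝ) → ℝ, Measurable H → MemLp H 2 (lw ι μ) → DependsOn H (A j) →
      ∫ g, H g * Y g ∂(lw ι μ) = ∫ g, H g * Yj j g ∂(lw ι μ))
    {V V1 G : ℝ} (hV : 0 < V) (hV1 : 0 < V1) (hG : 0 < G) (h1 : ∫ g, Y g ^ 2 ∂(lw ι μ) ≤ V)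
    (h2 : ∀ j ∈ s, ∫ g, Yj j g ^ 2 ∂(lw ι μ) ≤ V1) (h3 : G ≤ ∫ g, F g * Y g ∂(lw ι μ)) :
    G ^ 2 / (4 * (s.card * V1)) ≤ ∑ j ∈ s, uv μ (A j) F ∨
      ∑ j ∈ s, uv μ (A j) F + G ^ 2 / (4 * V) ≤ uv μ B F := by
  have mB := memLp_fA hm hF B
  have mA : ∀ i, MemLp (fA μ (A i) F) 2 (lw ι μ) := fun i => memLp_fA hm hF (A i)
  have mg := memLp_gB (μ := μ) hm hF s A B
  have hsplit : ∫ g, F g * Y g ∂(lw ι μ) = ∫ g, gB μ s A B F g * Y g ∂(lw ι μ) +
      ∑ j ∈ s, ∫ g, fA μ (A j) F g * Yj j g ∂(lw ι μ) := by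
    rw [int_mul_fA hm hF hY hYd hY0]
    have e1 : ∀ g, fA μ B F g * Y g = gB μ s A B F g * Y g + ∑ i ∈ s, fA μ (A i) F g * Y g := by
      intro g
      unfold gB
      rw [sub_mul, Finset.sum_mul]
      ring
    have e2 : ∀ i ∈ s, Integrable (fun g => fA μ (A i) F g * Y g) (lw ι μ) := fun i _ =>
      (mA i).integrable_mul hY
    have e3 : Integrable (fun g => gB μ s A B F g * Y g) (lw ι μ) := mg.integrable_mul hY
    simp only [e1]
    rw [integral_add e3 (integrable_finsetSum s e2), integral_finsetSum s e2]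
    congr 1
    exact Finset.sum_congr rfl fun j hj' => hYY j hj' _ (measurable_fA hm (A j)) (mA j) (fA_dep (A j) F)
  by_cases hc : G / 2 ≤ ∑ j ∈ s, ∫ g, fA μ (A j) F g * Yj j g ∂(lw ι μ)
  · left
    have c1 : (∑ j ∈ s, ∫ g, fA μ (A j) F g * Yj j g ∂(lw ι μ)) ^ 2 ≤
        s.card * ∑ j ∈ s, (∫ g, fA μ (A j) F g * Yj j g ∂(lw ι μ)) ^ 2 := sq_sum_le_card_mul_sum_sq
    have c2 : ∑ j ∈ s, (∫ g, fA μ (A j) F g * Yj j g ∂(lw ι μ)) ^ 2 ≤ ∑ j ∈ s, uv μ (A j) F * V1 := by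
      refine Finset.sum_le_sum fun j hj' => ?_
      refine (cs_int (mA j) (hj j hj')).trans ?_
      rw [uv_eq hm hF]
      exact mul_le_mul_of_nonneg_left (h2 j hj') (integral_nonneg fun _ => sq_nonneg _)
    rw [← Finset.sum_mul] at c2
    have hU : 0 ≤ ∑ j ∈ s, uv μ (A j) F := Finset.sum_nonneg fun j _ => uv_nonneg hm hF (A j)
    have hcard : (0 : ℝ) ≤ s.card := Nat.cast_nonneg _
    have c3 : (G / 2) ^ 2 ≤ (∑ j ∈ s, ∫ g, fA μ (A j) F g * Yj j g ∂(lw ι μ)) ^ 2 :=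
      pow_le_pow_left₀ (by linarith) hc 2
    have c4 : (G / 2) ^ 2 ≤ s.card * ((∑ j ∈ s, uv μ (A j) F) * V1) :=
      c3.trans (c1.trans (mul_le_mul_of_nonneg_left c2 hcard))
    rcases Nat.eq_zero_or_pos s.card with h0 | h0
    · rw [h0]
      simpa using hU
    · have h0' : (0 : ℝ) < s.card := by exact_mod_cast h0
      rw [div_le_iff₀ (by positivity)]
      nlinarith
  · right
    have hc' := not_le.1 hc
    have c0 : G / 2 ≤ ∫ g, gB μ s A B F g * Y g ∂(lw ι μ) := by linarith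
    have c1 := cs_int mg hY
    rw [int_gB_sq hm hF s A hd hB] at c1
    have c2 : (G / 2) ^ 2 ≤ (∫ g, gB μ s A B F g * Y g ∂(lw ι μ)) ^ 2 := pow_le_pow_left₀ (by linarith) c0 2
    have c3 : 0 ≤ uv μ B F - ∑ i ∈ s, uv μ (A i) F := by
      have := uv_sum_le hm hF s A hd hB
      linarith
    have c4 : (G / 2) ^ 2 ≤ (uv μ B F - ∑ i ∈ s, uv μ (A i) F) * V :=
      c2.trans (c1.trans (mul_le_mul_of_nonneg_left h1 c3))
    have c5 : G ^ 2 / (4 * V) ≤ uv μ B F - ∑ i ∈ s, uv μ (A i) F := by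
      rw [div_le_iff₀ (by positivity)]
      nlinarith
    linarith

end

end Pool.Agent.W_7d29a1_HN
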