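import Pool.Agent.W_7d29a1_HN.Qw

/-!
STRICT NEWMAN - PIZA AT EVERY TILT (MP_7d29a1_pr, proofs rows 649, 3.2, and 663): the deterministic chain through the `R` lucky
strips of a tube. (Model: `W_7d29a1_NP.Chain`; helper83.)
-/

set_option autoImplicit false

namespace Pool.Agent.W_7d29a1_HN

open MeasureTheory ProbabilityTheory Filter Topology Finset
open Pool.Agent.W_7d29a1_f21 Pool.Agent.W_7d29a1_F Pool.Agent.W_7d29a1_h4g Pool.Agent.W_7d29a1_H
open Pool.Agent.W_7d29a1_HS Pool.Agent.W_7d29a1_HL Pool.Agent.W_7d29a1_HX.XG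

noncomputable section

variable {μ : Measure ℝ} [IsProbabilityMeasure μ] {s c C : ℝ} {n₀ : ℕ}

omit [IsProbabilityMeasure μ] in
theorem X_zero7 (η : Env) (a : Pt) : X μ s η a 0 0 = 0 := by
  unfold X W WR
  simp [Zr]

/-- Through `R` lucky strips. -/
theorem strips7 (h : In μ s c C n₀) {r : ℝ} (hr : 1 ≤ r) (η : Env) {m k : ℕ} (hk : k ≤ m) {z : ℤ}
    (hend : ∀ d : ℤ, |(d : ℝ) - sl μ s * m| < 1 → ∀ y : ℤ, 0 ≤ y → y ≤ k → |(y : ℝ) - sl μ s * k| ≤ r →
      0 ≤ d - y ∧ d - y ≤ ((m - k : ℕ) : ℤ)) (n₃ : ℕ) :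
    ∀ (R a : ℕ), ∑ j ∈ range R, (Real.log (cf μ s r η (tp μ s a m z j) k) -
          CQ μ s (St μ s r (tp μ s a m z j)) η (tp μ s a m z j) k (m - k) (dj μ s a m j)) +
        V μ s η (tp μ s a m z R) n₃ ≤ V μ s η (tp μ s a m z 0) (R * m + n₃) := by
  intro R
  induction R with
  | zero =>
    intro a
    simp
  | succ R ih =>
    intro a
    have h1 := ih (a + m)
    simp only [tp_succ96, dj_succ96] at h1
    rw [zero_add] at h1
    have h2 := luck_det (μ := μ) (s := s) (S := St μ s r (tp μ s a m z 0)) (by linarith : (0 : ℝ) ≤ r) η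
      (tp μ s a m z 0) (t₁ := 0) (y₁ := 0)
      le_rfl le_rfl (by simp) k (m - k) (R * m + n₃) (dj μ s a m 0) (hend _ (dj_abs a m 0))
      (by
        have := cf_pos h hr η (tp μ s a m z 0) k
        simpa [cS, cf] using this)
    have e1 : (((tp μ s a m z 0).1 + ((0 : ℕ) : ℤ), (tp μ s a m z 0).2 + (0 : ℤ)) : Pt) = tp μ s a m z 0 :=
      Prod.ext (by simp) (by simp)
    have e2 : (((tp μ s a m z 0).1 + ((0 : ℕ) : ℤ) + (k : ℤ) + ((m - k : ℕ) : ℤ),
        (tp μ s a m z 0).2 + (0 : ℤ) + dj μ s a m 0) : Pt) = tp μ s a m z 1 := by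
      rw [show tp μ s a m z 1 = ((tp μ s a m z 0).1 + (m : ℤ), (tp μ s a m z 0).2 + dj μ s a m 0) from
        tp_step96 a m z 0]
      refine Prod.ext ?_ ?_
      · show (tp μ s a m z 0).1 + ((0 : ℕ) : ℤ) + (k : ℤ) + ((m - k : ℕ) : ℤ) = (tp μ s a m z 0).1 + (m : ℤ)
        push_cast [hk]
        ring
      · show (tp μ s a m z 0).2 + (0 : ℤ) + dj μ s a m 0 = (tp μ s a m z 0).2 + dj μ s a m 0
        ring
    rw [e1, e2, X_zero7] at h2
    have e3 : 0 + (k + (m - k + (R * m + n₃))) = (R + 1) * m + n₃ := by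
      have : (R + 1) * m = R * m + m := by ring
      rw [this]
      omega
    rw [e3] at h2
    have e4 : cS μ s (St μ s r (tp μ s a m z 0)) η (tp μ s a m z 0) k = cf μ s r η (tp μ s a m z 0) k := rfl
    rw [e4] at h2
    rw [Finset.sum_range_succ']
    linarith

/-- THE CHAIN: to the row `u`, to the tube, through the `R` lucky strips, back to the glued polymer. -/
theorem chain (h : In μ s c C n₀) {r : ℝ} (hr : 1 ≤ r) (η : Env) {u m k R : ℕ} (hk : k ≤ m) {z x : ℤ}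
    (hend : ∀ d : ℤ, |(d : ℝ) - sl μ s * m| < 1 → ∀ y : ℤ, 0 ≤ y → y ≤ k → |(y : ℝ) - sl μ s * k| ≤ r →
      0 ≤ d - y ∧ d - y ≤ ((m - k : ℕ) : ℤ))
    (hx : x ∈ Finset.Icc (0 : ℤ) u)
    (h2 : 0 ≤ w2 μ s u (R * m) z x ∧ w2 μ s u (R * m) z x ≤ ((R * m : ℕ) : ℤ))
    (h3 : 0 ≤ w3 μ s u (R * m) z x ∧ w3 μ s u (R * m) z x ≤ ((2 * (R * m) : ℕ) : ℤ)) (rr : ℕ) :
    Real.log (gw μ s η u (4 * (R * m)) rr x)
      - X μ s η ((u : ℤ), x) (R * m) (w2 μ s u (R * m) z x)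
      - X μ s η (tp μ s (u + R * m) m z R) (2 * (R * m)) (w3 μ s u (R * m) z x)
      + ∑ j ∈ range R, (Real.log (cf μ s r η (tp μ s (u + R * m) m z j) k) -
          CQ μ s (St μ s r (tp μ s (u + R * m) m z j)) η (tp μ s (u + R * m) m z j) k (m - k)
            (dj μ s (u + R * m) m j)) ≤
      V μ s η 0 (u + (4 * (R * m) + rr)) := by
  obtain ⟨L, hL⟩ : ∃ L : ℕ, L = R * m := ⟨_, rfl⟩
  rw [Finset.mem_Icc] at hx
  rw [← hL] at h2 h3 ⊢
  -- to the row `u`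
  have i1 := V_add_ge (μ := μ) (s := s) η 0 u (4 * L + rr) hx.1 hx.2
  have e1 : (((0 : Pt).1 + (u : ℤ), (0 : Pt).2 + x) : Pt) = ((u : ℤ), x) :=
    Prod.ext (by simp) (by simp)
  rw [e1] at i1
  -- to the tube
  have i2 := V_add_ge (μ := μ) (s := s) η ((u : ℤ), x) L (L + (2 * L + rr)) h2.1 h2.2
  have e2 : ((((u : ℤ), x) : Pt).1 + (L : ℤ), (((u : ℤ), x) : Pt).2 + w2 μ s u L z x) = tp μ s (u + L) m z 0 := by
    unfold tp w2
    refine Prod.ext ?_ ?_
    · show (u : ℤ) + (L : ℤ) = ((u + L + 0 * m : ℕ) : ℤ)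
      push_cast
      ring
    · show x + (md μ s (u + L) + z - x) = md μ s (u + L + 0 * m) + z
      have : u + L + 0 * m = u + L := by ring
      rw [this]
      ring
  rw [e2] at i2
  -- through the strips
  have i3 := strips7 h hr η hk (z := z) hend (2 * L + rr) R (u + L)
  rw [← hL] at i3
  -- back
  have i4 := V_add_ge (μ := μ) (s := s) η (tp μ s (u + L) m z R) (2 * L) rr h3.1 h3.2
  have e4 : ((tp μ s (u + L) m z R).1 + ((2 * L : ℕ) : ℤ), (tp μ s (u + L) m z R).2 + w3 μ s u L z x) =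
      ((u : ℤ) + ((4 * L : ℕ) : ℤ), x + md μ s (4 * L)) := by
    unfold tp w3
    rw [← hL]
    refine Prod.ext ?_ ?_
    · show ((u + L + L : ℕ) : ℤ) + ((2 * L : ℕ) : ℤ) = (u : ℤ) + ((4 * L : ℕ) : ℤ)
      push_cast
      ring
    · show md μ s (u + L + L) + z + (x + md μ s (4 * L) - (md μ s (u + 2 * L) + z)) = x + md μ s (4 * L)
      have j1 : u + L + L = u + 2 * L := by ring
      rw [j1]
      ring
  rw [e4] at i4
  -- the weight of the glued polymer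
  have i5 : Real.log (gw μ s η u (4 * L) rr x) = -X μ s η 0 u x +
      V μ s η ((u : ℤ) + ((4 * L : ℕ) : ℤ), x + md μ s (4 * L)) rr := by
    unfold gw X
    rw [Real.log_mul (W_pos (μ := μ) (s := s) η 0 hx.1 hx.2).ne' (Real.exp_pos _).ne', Real.log_exp, neg_neg]
  rw [i5]
  have e5 : L + (L + (2 * L + rr)) = 4 * L + rr := by ring
  rw [e5] at i2
  linarith

end

end Pool.Agent.W_7d29a1_HN
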