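import Pool.Agent.W_7d29a1_HN.MeanC
import Pool.Agent.W_7d29a1_HN.Chain

/-!
STRICT NEWMAN - PIZA AT EVERY TILT (MP_7d29a1_pr, proofs rows 649 and 663), leaf (d): the covariance of the free energy with one test function `phi`.
(Model: `W_7d29a1_NP.Mean`, helper56; port: helper83.)
-/

set_option autoImplicit false

namespace Pool.Agent.W_7d29a1_HN

open MeasureTheory ProbabilityTheory Filter Topology Finset
open Pool.Agent.W_7d29a1_f21 Pool.Agent.W_7d29a1_F Pool.Agent.W_7d29a1_h4g Pool.Agent.W_7d29a1_H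
open Pool.Agent.W_7d29a1_HS Pool.Agent.W_7d29a1_HL Pool.Agent.W_7d29a1_HX.XG

noncomputable section

variable {μ : Measure ℝ} [IsProbabilityMeasure μ] {s c C : ℝ} {n₀ : ℕ}

theorem cov_phi (h : In μ s c C n₀) {r lam : ℝ} (hr : 1 ≤ r) {u m k R rr : ℕ}
    (hp : 0 < pD μ s r k lam) (hk : k ≤ m) {z : ℤ} {ρ B1 B2 B3 : ℝ} (hB1 : 0 ≤ B1)
    (hend : ∀ d : ℤ, |(d : ℝ) - sl μ s * m| < 1 → ∀ y : ℤ, 0 ≤ y → y ≤ k → |(y : ℝ) - sl μ s * k| ≤ r →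
      0 ≤ d - y ∧ d - y ≤ ((m - k : ℕ) : ℤ) ∧ ep μ s (m - k) (d - y) ≤ B1)
    (h2 : ∀ x ∈ nearS μ s u ρ z, 0 ≤ w2 μ s u (R * m) z x ∧ w2 μ s u (R * m) z x ≤ ((R * m : ℕ) : ℤ) ∧
      ep μ s (R * m) (w2 μ s u (R * m) z x) ≤ B2)
    (h3 : ∀ x ∈ nearS μ s u ρ z, 0 ≤ w3 μ s u (R * m) z x ∧ w3 μ s u (R * m) z x ≤ ((2 * (R * m) : ℕ) : ℤ) ∧
      ep μ s (2 * (R * m)) (w3 μ s u (R * m) z x) ≤ B3) :
    ∑ x ∈ nearS μ s u ρ z, ((∫ η, qw μ s η u (4 * (R * m)) rr x ∂(law μ)) * (R * lam - R * B1 - B2 - B3) -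
      ∫ η, qw μ s η u (4 * (R * m)) rr x *
        (V μ s η 0 (u + (4 * (R * m) + rr)) - Real.log (gw μ s η u (4 * (R * m)) rr x)) ∂(law μ)) ≤
    ∫ η, V μ s η 0 (u + (4 * (R * m) + rr)) * (phi μ s r k lam (u + R * m) m R z η - 1) ∂(law μ) := by
  refine cov_phi_of (μ := μ) h.em hr hp hk hB1 hend h2 h3 fun x hx η => ?_
  exact chain h hr η hk (fun d hd y h4 h5 h6 => ⟨(hend d hd y h4 h5 h6).1, (hend d hd y h4 h5 h6).2.1⟩)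
    (Finset.mem_filter.1 hx).1 ⟨(h2 x hx).1, (h2 x hx).2.1⟩ ⟨(h3 x hx).1, (h3 x hx).2.1⟩ rr

end

end Pool.Agent.W_7d29a1_HN
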