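import Pool.Agent.W_7d29a1_HN.Scl
import Pool.Agent.W_7d29a1_HN.Bessel
import Pool.Agent.W_7d29a1_HN.Tube
import Pool.Agent.W_7d29a1_HN.Mean
import Pool.Agent.W_7d29a1_HN.Loc
import Pool.Agent.W_7d29a1_NP.Grid

/-!
STRICT NEWMAN - PIZA AT EVERY TILT (MP_7d29a1_pr, proofs rows 649, 663), section 3.4: the gain of one block. (helper64; at the tilt
helper96)
-/

namespace Pool.Agent.W_7d29a1_HN

open MeasureTheory ProbabilityTheory Filter Topology Finset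
open Pool.Agent.W_7d29a1_f21 Pool.Agent.W_7d29a1_F Pool.Agent.W_7d29a1_h4g Pool.Agent.W_7d29a1_H
open Pool.Agent.W_7d29a1_HS Pool.Agent.W_7d29a1_HL Pool.Agent.W_7d29a1_HX.XG
open Pool.Agent.W_7d29a1_X42 hiding sl
open Pool.Agent.W_7d29a1_NP (gridZ card_gridZ grid_sep grid_card_le grid_card_ge gain_sum)

noncomputable section

variable {μ : Measure ℝ} [IsProbabilityMeasure μ] {s c C : ℝ} {n₀ : ℕ}

/-- In bounded ratios of scales the logarithm is at most the unit. -/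
theorem log_small96 (h : In μ s c C n₀) (D : ℕ) : ∃ i₀ : ℕ, ∀ i N : ℕ, i₀ ≤ i → N ≤ 2 * 2 ^ (i + D) →
    Real.log N ≤ EE μ s (2 ^ i) := by
  obtain ⟨T, x₀, hd⟩ := h.dbl
  have hg0 : 0 ≤ gg μ s x₀ := by
    unfold gg
    exact Real.logb_nonneg (by norm_num) (one_le_EE _)
  have hg : ∀ k : ℕ, (k : ℝ) ≤ gg μ s (x₀ + k * T) := by
    intro k
    induction k with
    | zero => simpa using hg0
    | succ k ih =>
      have h1 := hd (x₀ + k * T) (by omega)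
      have h2 : x₀ + k * T + T = x₀ + (k + 1) * T := by ring
      rw [h2] at h1
      push_cast
      linarith
  have hE : ∀ k : ℕ, (2 : ℝ) ^ k ≤ EE μ s (2 ^ (x₀ + k * T)) := by
    intro k
    have h1 := Real.rpow_le_rpow_of_exponent_le (x := 2) (by norm_num) (hg k)
    rw [Real.rpow_natCast] at h1
    refine h1.trans (le_of_eq ?_)
    unfold gg
    exact Real.rpow_logb (by norm_num) (by norm_num) (EE_pos _)
  obtain ⟨A, hA⟩ : ∃ A : ℕ, A = x₀ + D + 1 + T := ⟨_, rfl⟩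
  obtain ⟨B, hB⟩ : ∃ B : ℕ, B = A + T := ⟨_, rfl⟩
  -- `A + T k ≤ 2 ^ k` for `k ≥ 4 B`
  have hlin : ∀ k : ℕ, 4 * B ≤ k → A + T * k ≤ 2 ^ k := by
    intro k hk
    obtain ⟨j, hj⟩ : ∃ j : ℕ, j = k / 2 := ⟨_, rfl⟩
    have h1 : j + 1 ≤ 2 ^ j := Nat.lt_two_pow_self
    have h2 : k - j + 1 ≤ 2 ^ (k - j) := Nat.lt_two_pow_self
    have h3 : 2 ^ k = 2 ^ j * 2 ^ (k - j) := by
      rw [← pow_add]
      congr 1
      omega
    have h4 : (j + 1) * (k - j + 1) ≤ 2 ^ k := by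
      rw [h3]
      exact Nat.mul_le_mul h1 h2
    have h5 : j ≤ k - j := by omega
    have h6 : (j + 1) * (j + 1) ≤ (j + 1) * (k - j + 1) := Nat.mul_le_mul_left _ (by omega)
    have h7 : k ≤ 2 * (j + 1) := by omega
    have h8 : 2 * B ≤ j + 1 := by omega
    have h9 : 2 * B * (j + 1) ≤ (j + 1) * (j + 1) := Nat.mul_le_mul_right _ h8
    have h10 : T * k ≤ T * (2 * (j + 1)) := Nat.mul_le_mul_left _ h7
    have h11 : A ≤ A * (2 * (j + 1)) := Nat.le_mul_of_pos_right A (by omega)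
    have h12 : A * (2 * (j + 1)) + T * (2 * (j + 1)) = 2 * B * (j + 1) := by rw [hB]; ring
    omega
  have hT : 1 ≤ T := by
    by_contra hcon
    have h0 : T = 0 := by omega
    have h1 := hd x₀ le_rfl
    rw [h0, add_zero] at h1
    linarith
  refine ⟨x₀ + (4 * B + 1) * T, fun i N hi hN => ?_⟩
  obtain ⟨k, hk⟩ : ∃ k : ℕ, k = (i - x₀) / T := ⟨_, rfl⟩
  have h1 : k * T ≤ i - x₀ := by rw [hk]; exact Nat.div_mul_le_self _ _
  have h2 : i - x₀ < (k + 1) * T := by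
    rw [hk]
    have := Nat.lt_div_mul_add (a := i - x₀) (b := T) hT
    calc i - x₀ < (i - x₀) / T * T + T := this
      _ = ((i - x₀) / T + 1) * T := by ring
  have h3 : 4 * B ≤ k := by
    rw [hk, Nat.le_div_iff_mul_le hT]
    have : (4 * B + 1) * T = 4 * B * T + T := by ring
    omega
  have hx : x₀ ≤ i := by
    have : 0 ≤ (4 * B + 1) * T := Nat.zero_le _
    omega
  have h4 : EE μ s (2 ^ (x₀ + k * T)) ≤ EE μ s (2 ^ i) := EE_mono (Nat.pow_le_pow_right (by norm_num) (by omega))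
  have h5 := hlin k h3
  have h6 : i + D + 1 ≤ A + T * k := by
    have e : (k + 1) * T = T * k + T := by ring
    omega
  have h7 : ((i + D + 1 : ℕ) : ℝ) ≤ (2 : ℝ) ^ k := by exact_mod_cast h6.trans h5
  rcases Nat.eq_zero_or_pos N with h0 | h0
  · rw [h0]
    simpa using (EE_pos (μ := μ) (s := s) (2 ^ i)).le
  have h8 : Real.log N ≤ ((i + D + 1 : ℕ) : ℝ) := by
    have h9 : (N : ℝ) ≤ (2 : ℝ) ^ (i + D + 1) := by
      have : N ≤ 2 ^ (i + D + 1) := by rw [pow_succ]; omega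
      exact_mod_cast this
    have hN0 : (0 : ℝ) < N := by exact_mod_cast h0
    have h10 := Real.log_le_log hN0 h9
    rw [Real.log_pow] at h10
    have h11 : Real.log 2 ≤ 1 := by
      have := Real.log_le_sub_one_of_pos (show (0 : ℝ) < 2 by norm_num)
      linarith
    have h12 : ((i + D + 1 : ℕ) : ℝ) * Real.log 2 ≤ ((i + D + 1 : ℕ) : ℝ) * 1 :=
      mul_le_mul_of_nonneg_left h11 (Nat.cast_nonneg _)
    linarith
  exact h8.trans (h7.trans ((hE k).trans h4))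

/-- The final estimate of 3.4. -/
theorem end_calc {W R E K C n0 n1 Q Bt : ℝ} (hW : 0 ≤ W) (hR : 1 ≤ R) (hE : 0 < E)
    (hC : 0 ≤ C) (hK : K = 43 * C + 301) (hQ : R * E * (K - 3 * C) ≤ Q) (hn1 : 2 * W ≤ n1) (hn0 : n0 ≤ 10 * W)
    (hBt0 : 0 ≤ Bt) (hBt : Bt ≤ (30 + 4 * C) * (R * E)) : R * W * E ≤ n1 * Q / 2 - n0 * Bt := by
  have hRE : 0 < R * E := by positivity
  have h1 : R * E * (40 * C + 301) ≤ Q := by
    rw [hK] at hQ
    linarith
  have hQ0 : 0 ≤ Q := by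
    have : 0 ≤ R * E * (40 * C + 301) := by positivity
    linarith
  have h2 : 2 * W * Q ≤ n1 * Q := mul_le_mul_of_nonneg_right hn1 hQ0
  have h3 : 2 * W * (R * E * (40 * C + 301)) ≤ 2 * W * Q := mul_le_mul_of_nonneg_left h1 (by positivity)
  have h4 : n0 * Bt ≤ 10 * W * Bt := mul_le_mul_of_nonneg_right hn0 hBt0
  have h5 : 10 * W * Bt ≤ 10 * W * ((30 + 4 * C) * (R * E)) := mul_le_mul_of_nonneg_left hBt (by positivity)
  have h6 : 0 ≤ W * (R * E) := by positivity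
  have h7 : 10 * W * ((30 + 4 * C) * (R * E)) = 300 * (W * (R * E)) + 40 * C * (W * (R * E)) := by ring
  have h8 : 2 * W * (R * E * (40 * C + 301)) = 80 * C * (W * (R * E)) + 602 * (W * (R * E)) := by ring
  have h9 : R * W * E = W * (R * E) := by ring
  rw [h9]
  linarith

theorem block (h : In μ s c C n₀) : ∃ p0 CZ : ℝ, 0 < p0 ∧ p0 ≤ 1 ∧ 0 < CZ ∧ ∀ ρ D : ℕ, ∃ i₁ : ℕ, ∀ i : ℕ, i₁ ≤ i →
    ∀ N : ℕ, 16 * (2 ^ ρ * 2 ^ i) ≤ N → N ≤ 2 ^ D * 2 ^ i →
    max (bb μ s (N - 4 * (2 ^ ρ * 2 ^ i)) - bb μ s N) 0 ≤ 12 * EE μ s (2 * (2 ^ ρ * 2 ^ i)) →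
    ∃ (r lam : ℝ) (k : ℕ) (Z : Finset ℤ), k ≤ 2 ^ i ∧ p0 ≤ pD μ s r k lam ∧ 1 ≤ r ∧
      (∀ z ∈ Z, ∀ z' ∈ Z, z ≠ z' → 2 * r < |(z : ℝ) - z'|) ∧ 1 ≤ Z.card ∧
      (Z.card : ℝ) ≤ CZ * (wd μ s N / wd μ s (2 ^ i)) ∧ 0 < wd μ s (2 ^ i) ∧ 0 < wd μ s N ∧
      wd μ s (2 ^ i) ≤ 2 * wd μ s (2 ^ ρ * 2 ^ i) ∧
      ∀ u rr : ℕ, u + (4 * (2 ^ ρ * 2 ^ i) + rr) = N →
        2 ^ ρ * (wd μ s (2 ^ ρ * 2 ^ i) / wd μ s (2 ^ i)) * EE μ s (2 ^ i) ≤
          ∫ η, V μ s η 0 N * YY μ s r k lam (u + 2 ^ ρ * 2 ^ i) (2 ^ i) (2 ^ ρ) Z η ∂(law μ) := by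
  have hc0 := h.c0
  have hC1 := h.C1
  have hC0 : 0 < C := lt_of_lt_of_le one_pos hC1
  obtain ⟨R₁, hR₁, hst⟩ := strip_of h
  obtain ⟨J₁, ia, hJ₁, hia⟩ := strip_k h hR₁
  obtain ⟨K, hK⟩ : ∃ K : ℝ, K = 43 * C + 301 := ⟨_, rfl⟩
  have hK0 : 0 < K := by rw [hK]; positivity
  obtain ⟨p, hp, nb, hnb⟩ := hst (K * 2 ^ J₁)
  obtain ⟨R₂, hR₂, nc, hnc⟩ := loc h
  obtain ⟨nd, hnd⟩ := wd_le2 h
  have hR₂0 : 0 < R₂ := lt_of_lt_of_le one_pos hR₂
  refine ⟨min p 1, (64 * R₂ + 16 * c) / c + 6, lt_min hp one_pos, min_le_right _ _, by positivity, fun ρ D => ?_⟩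
  obtain ⟨ie, hie⟩ := log_small96 h D
  obtain ⟨T, hT⟩ : ∃ T : ℕ, T = max (max (max ia nb) (max nc nd)) (max ie n₀) := ⟨_, rfl⟩
  refine ⟨T + J₁ + 1, fun i hi N hN1 hN2 hgood => ?_⟩
  have hTi : T ≤ 2 ^ i := (show T ≤ i by omega).trans Nat.lt_two_pow_self.le
  have hTk : T ≤ 2 ^ (i - J₁) := (show T ≤ i - J₁ by omega).trans Nat.lt_two_pow_self.le
  have ia' : ia ≤ T := by rw [hT]; exact ((le_max_left _ _).trans (le_max_left _ _)).trans (le_max_left _ _)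
  have nb' : nb ≤ T := by rw [hT]; exact ((le_max_right _ _).trans (le_max_left _ _)).trans (le_max_left _ _)
  have nc' : nc ≤ T := by rw [hT]; exact ((le_max_left _ _).trans (le_max_right _ _)).trans (le_max_left _ _)
  have nd' : nd ≤ T := by rw [hT]; exact ((le_max_right _ _).trans (le_max_right _ _)).trans (le_max_left _ _)
  have ie' : ie ≤ T := by rw [hT]; exact (le_max_left _ _).trans (le_max_right _ _)
  have n0' : n₀ ≤ T := by rw [hT]; exact (le_max_right _ _).trans (le_max_right _ _)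
  obtain ⟨hiJ, hr1, hr2, hw16, hwm2⟩ := hia i (by omega)
  -- the numbers
  obtain ⟨m, hm⟩ : ∃ m : ℕ, m = 2 ^ i := ⟨_, rfl⟩
  obtain ⟨R, hR⟩ : ∃ R : ℕ, R = 2 ^ ρ := ⟨_, rfl⟩
  obtain ⟨k, hk⟩ : ∃ k : ℕ, k = 2 ^ (i - J₁) := ⟨_, rfl⟩
  obtain ⟨r, hr⟩ : ∃ r : ℝ, r = R₁ * wd μ s k := ⟨_, rfl⟩
  have hRr : (2 : ℝ) ^ ρ = (R : ℝ) := by rw [hR]; push_cast; rfl
  rw [hRr]
  rw [← hk, ← hr] at hr1
  rw [← hk, ← hr, ← hm] at hr2
  rw [← hm] at hw16 hwm2 hN1 hN2 hgood ⊢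
  rw [← hR] at hN1 hgood ⊢
  obtain ⟨L, hL⟩ : ∃ L : ℕ, L = R * m := ⟨_, rfl⟩
  have hR1 : 1 ≤ R := by rw [hR]; exact Nat.one_le_two_pow
  have hm1 : 1 ≤ m := by rw [hm]; exact Nat.one_le_two_pow
  have hmT : T ≤ m := by rw [hm]; exact hTi
  have hkT : T ≤ k := by rw [hk]; exact hTk
  have hmL : m ≤ L := by rw [hL]; exact Nat.le_mul_of_pos_left m hR1
  have hmk : m = 2 ^ J₁ * k := by
    rw [hm, hk, ← pow_add]
    congr 1
    omega
  have hJ1' : 2 ≤ 2 ^ J₁ := by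
    calc 2 = 2 ^ 1 := by norm_num
      _ ≤ 2 ^ J₁ := Nat.pow_le_pow_right (by norm_num) hJ₁
  have hke : 2 * k ≤ m := by
    rw [hmk]
    exact Nat.mul_le_mul_right k hJ1'
  have hkm : k ≤ m := by omega
  obtain ⟨lam, hlam⟩ : ∃ lam : ℝ, lam = K * EE μ s m := ⟨_, rfl⟩
  have hEm := EE_pos (μ := μ) (s := s) m
  have hEk := EE_pos (μ := μ) (s := s) k
  have hEL : EE μ s L ≤ R * EE μ s m := by rw [hL]; exact EE_mul h.em s m hR1
  have hE2L : EE μ s (2 * L) ≤ 2 * R * EE μ s m := by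
    have h1 := EE_mul h.em s m (k := 2 * R) (by omega)
    rw [hL, ← mul_assoc]
    push_cast at h1
    exact h1
  have hE4L : EE μ s (4 * L) ≤ 4 * R * EE μ s m := by
    have h1 := EE_mul h.em s m (k := 4 * R) (by omega)
    rw [hL, ← mul_assoc]
    push_cast at h1
    exact h1
  -- the probability
  have hpD : min p 1 ≤ pD μ s r k lam := by
    refine (min_le_left _ _).trans ((hnb k (nb'.trans hkT)).trans ?_)
    refine measureReal_mono (fun η hη => ?_) (measure_ne_top _ _)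
    rw [Set.mem_ofPred_eq, ← hr] at hη
    show lam ≤ Real.log (cf μ s r η 0 k)
    refine le_trans ?_ hη
    rw [hlam, mul_assoc]
    refine mul_le_mul_of_nonneg_left ?_ hK0.le
    rw [hmk]
    have h1 := EE_mul h.em s k (k := 2 ^ J₁) (by omega)
    push_cast at h1
    exact h1
  have hpD0 : 0 < pD μ s r k lam := lt_of_lt_of_le (lt_min hp one_pos) hpD
  -- the grid
  have hwm := wd_nonneg h m
  have hwm0 : 0 < wd μ s m := by
    rcases hwm.lt_or_eq with h1 | h1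
    · exact h1
    · rw [← h1] at hw16
      norm_num at hw16
  have hwL : wd μ s m ≤ 2 * wd μ s L := hnd m L (nd'.trans hmT) hmL
  have hLN : 16 * L ≤ N := by rw [hL]; exact hN1
  have hwLN : wd μ s L ≤ 2 * wd μ s N := hnd L N ((nd'.trans hmT).trans hmL) (by omega)
  have hwmN : wd μ s m ≤ 2 * wd μ s N := hnd m N (nd'.trans hmT) (by omega)
  have hwN0 : 0 < wd μ s N := by linarith
  have hwL0 : 0 < wd μ s L := by linarith
  obtain ⟨hh, hhd⟩ : ∃ hh : ℕ, hh = ⌈c * wd μ s m / 16⌉₊ := ⟨_, rfl⟩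
  have hh1 : c * wd μ s m / 16 ≤ hh := by rw [hhd]; exact Nat.le_ceil _
  have hh2 : (hh : ℝ) ≤ c * wd μ s m / 8 := by
    have h1 : (hh : ℝ) < c * wd μ s m / 16 + 1 := by
      rw [hhd]
      exact Nat.ceil_lt_add_one (by positivity)
    linarith
  have hh0 : (1 : ℝ) ≤ hh := hw16.trans hh1
  have hh0' : 1 ≤ hh := by exact_mod_cast hh0
  have hhp : (0 : ℝ) < hh := lt_of_lt_of_le one_pos hh0
  obtain ⟨ρn, hρn⟩ : ∃ ρn : ℝ, ρn = c * wd μ s L / 4 := ⟨_, rfl⟩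
  have hρn0 : 0 ≤ ρn := by rw [hρn]; positivity
  obtain ⟨M, hM⟩ : ∃ M : ℕ, M = ⌈(2 * R₂ * wd μ s N + ρn) / hh⌉₊ := ⟨_, rfl⟩
  have hM1 : 2 * R₂ * wd μ s N + ρn ≤ hh * M := by
    have h1 : (2 * R₂ * wd μ s N + ρn) / hh ≤ M := by rw [hM]; exact Nat.le_ceil _
    rw [div_le_iff₀ hhp] at h1
    linarith
  have hM2 : (M : ℝ) ≤ (2 * R₂ * wd μ s N + ρn) / hh + 1 := by
    have h1 : (M : ℝ) < (2 * R₂ * wd μ s N + ρn) / hh + 1 := by
      rw [hM]
      exact Nat.ceil_lt_add_one (by positivity)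
    exact h1.le
  obtain ⟨Z, hZ⟩ : ∃ Z : Finset ℤ, Z = gridZ hh M := ⟨_, rfl⟩
  have hZc : Z.card = 2 * M + 1 := by rw [hZ]; exact card_gridZ hh0' M
  have hsep : ∀ z ∈ Z, ∀ z' ∈ Z, z ≠ z' → 2 * r < |(z : ℝ) - z'| := by
    intro z hz z' hz' hne
    rw [hZ] at hz hz'
    have h1 := grid_sep hz hz' hne
    have h2 : 0 < c * wd μ s m := by positivity
    linarith
  have hcard : (Z.card : ℝ) ≤ ((64 * R₂ + 16 * c) / c + 6) * (wd μ s N / wd μ s m) := by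
    rw [hZc]
    push_cast
    have h1 : (2 * R₂ * wd μ s N + ρn) / hh ≤ (32 * R₂ + 8 * c) / c * (wd μ s N / wd μ s m) := by
      rw [div_le_iff₀ hhp]
      have h2 : 2 * R₂ * wd μ s N + ρn ≤ (2 * R₂ + c / 2) * wd μ s N := by
        rw [hρn]
        nlinarith
      have h3 : (2 * R₂ + c / 2) * wd μ s N = (32 * R₂ + 8 * c) / c * (wd μ s N / wd μ s m) * (c * wd μ s m / 16) := by
        field_simp
        ring
      have h4 : (32 * R₂ + 8 * c) / c * (wd μ s N / wd μ s m) * (c * wd μ s m / 16) ≤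
          (32 * R₂ + 8 * c) / c * (wd μ s N / wd μ s m) * hh := mul_le_mul_of_nonneg_left hh1 (by positivity)
      linarith
    have h5 : 1 ≤ 2 * (wd μ s N / wd μ s m) := by
      rw [← mul_div_assoc, le_div_iff₀ hwm0]
      linarith
    have h6 : ((64 * R₂ + 16 * c) / c + 6) * (wd μ s N / wd μ s m) =
        2 * ((32 * R₂ + 8 * c) / c * (wd μ s N / wd μ s m)) + 3 * (2 * (wd μ s N / wd μ s m)) := by
      field_simp
      ring
    rw [h6]
    linarith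
  refine ⟨r, lam, k, Z, hkm, hpD, hr1, hsep, by omega, hcard, hwm0, hwN0, by rw [← hL]; exact hwL, ?_⟩
  intro u rr hsN
  rw [← hL] at hsN hgood ⊢
  obtain ⟨W, hW⟩ : ∃ W : ℝ, W = wd μ s L / wd μ s m := ⟨_, rfl⟩
  have hW0 : 0 ≤ W := by rw [hW]; positivity
  have hW1 : 1 ≤ 2 * W := by
    rw [hW, ← mul_div_assoc, le_div_iff₀ hwm0]
    linarith
  have hLn0 : n₀ ≤ L := (n0'.trans hmT).trans hmL
  have hLi : 2 ^ (i + ρ) = L := by rw [hL, hR, hm, pow_add, Nat.mul_comm]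
  have hwL2 : wd μ s L ≤ min (sl μ s) (1 - sl μ s) * L := by
    have h1 := (hia (i + ρ) (by omega)).2.2.2.2
    rw [hLi] at h1
    exact h1
  have hcL : 1 ≤ c * wd μ s L / 16 := by
    have h1 := (hia (i + ρ) (by omega)).2.2.2.1
    rw [hLi] at h1
    exact h1
  obtain ⟨Q, hQ⟩ : ∃ Q : ℝ, Q = (R : ℝ) * lam - R * (C * EE μ s m) - C * EE μ s L - C * EE μ s L := ⟨_, rfl⟩
  have hQ1 : (R : ℝ) * EE μ s m * (K - 3 * C) ≤ Q := by
    rw [hQ, hlam]
    have h1 := mul_le_mul_of_nonneg_left hEL hC0.le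
    nlinarith
  have hR0 : (1 : ℝ) ≤ R := by exact_mod_cast hR1
  have hQ0 : 0 ≤ Q := by
    refine le_trans ?_ hQ1
    rw [hK]
    have : 43 * C + 301 - 3 * C = 40 * C + 301 := by ring
    rw [this]
    positivity
  -- the sum over the tubes
  obtain ⟨F, hF⟩ : ∃ F : Env → ℝ, F = fun η => V μ s η 0 N := ⟨_, rfl⟩
  have hFS : Sub F := by rw [hF]; exact Sub_V 0 N
  have hφS : ∀ z, Sub fun η => phi μ s r k lam (u + L) m R z η - 1 := by
    intro z
    obtain ⟨h1, h2, -⟩ := phi_spec (μ := μ) (s := s) (a := u + L) (m := m) (R := R) hpD0 hkm z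
    have h3 : ∀ η, |phi μ s r k lam (u + L) m R z η| ≤ (1 / pD μ s r k lam) ^ R := fun η => by
      rw [abs_of_nonneg (h2 η).1]
      exact (h2 η).2
    exact (Sub_bd h1 h3).sub (Sub.const 1)
  have hint : ∀ z, Integrable (fun η => F η * (phi μ s r k lam (u + L) m R z η - 1)) (law μ) := fun z =>
    Sub.mul_integrable h.em hFS (hφS z)
  have hsum : ∫ η, V μ s η 0 N * YY μ s r k lam (u + L) m R Z η ∂(law μ) =
      ∑ z ∈ Z, ∫ η, F η * (phi μ s r k lam (u + L) m R z η - 1) ∂(law μ) := by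
    rw [← integral_finsetSum _ fun z _ => hint z]
    refine integral_congr_ae (ae_of_all _ fun η => ?_)
    show V μ s η 0 N * YY μ s r k lam (u + L) m R Z η = ∑ z ∈ Z, F η * (phi μ s r k lam (u + L) m R z η - 1)
    rw [← Finset.mul_sum, hF]
    rfl
  rw [hsum]
  obtain ⟨q, hq⟩ : ∃ q : ℤ → ℝ, q = fun x => ∫ η, qw μ s η u (4 * L) rr x ∂(law μ) := ⟨_, rfl⟩
  obtain ⟨E1, hE1⟩ : ∃ E1 : ℤ → ℝ, E1 = fun x => ∫ η, qw μ s η u (4 * L) rr x *
    (V μ s η 0 N - Real.log (gw μ s η u (4 * L) rr x)) ∂(law μ) := ⟨_, rfl⟩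
  obtain ⟨E2, hE2⟩ : ∃ E2 : ℤ → ℝ, E2 = fun x => ∫ η, max (qw μ s η u (4 * L) rr x *
    (V μ s η 0 N - Real.log (gw μ s η u (4 * L) rr x))) 0 ∂(law μ) := ⟨_, rfl⟩
  have hqn : ∀ η : Env, ∀ x : ℤ, 0 ≤ qw μ s η u (4 * L) rr x := fun η x =>
    div_nonneg (gw_nonneg η u (4 * L) rr x) (glue_pos η u (4 * L) rr).le
  have hcov : ∀ z ∈ Z, ∑ x ∈ nearS μ s u ρn z, (q x * Q - E1 x) ≤
      ∫ η, F η * (phi μ s r k lam (u + L) m R z η - 1) ∂(law μ) := by
    intro z _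
    have h1 := cov_phi h (r := r) (lam := lam) hr1 (u := u) (m := m) (k := k) (R := R) (rr := rr) hpD0
      hkm (z := z) (ρ := ρn) (B1 := C * EE μ s m) (B2 := C * EE μ s L) (B3 := C * EE μ s L) (by positivity)
      (joint h (n0'.trans hmT) hke hr2 hw16 hwm2) (by
        intro x hx
        rw [← hL]
        refine (ways h hLn0 hcL hwL2 (z := z) (x := x) ?_).1
        rw [← hρn]
        exact (Finset.mem_filter.1 hx).2) (by
        intro x hx
        rw [← hL]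
        refine (ways h hLn0 hcL hwL2 (z := z) (x := x) ?_).2
        rw [← hρn]
        exact (Finset.mem_filter.1 hx).2)
    rw [← hL] at h1
    rw [hsN] at h1
    rw [hq, hE1, hQ, hF]
    exact h1
  refine le_trans ?_ (Finset.sum_le_sum hcov)
  -- the entropy and the localization
  obtain ⟨hei, hes⟩ := ent h u (4 * L) rr
  rw [hsN] at hei hes
  have hloc := hnc u (4 * L) rr (by
    have := (nc'.trans hmT).trans hmL
    omega)
  have hsrr : u + rr = N - 4 * L := by omega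
  rw [hsrr] at hes hloc
  obtain ⟨Bt, hBt⟩ : ∃ Bt : ℝ, Bt = max (bb μ s (N - 4 * L) - bb μ s N) 0 + ep μ s (4 * L) (md μ s (4 * L)) +
    Real.log (u + 1) + 1 := ⟨_, rfl⟩
  rw [← hBt] at hes
  have hep : ep μ s (4 * L) (md μ s (4 * L)) ≤ C * EE μ s (4 * L) := by
    refine h.inn (4 * L) (by omega) (4 * L) _ (by omega) (h.md_nonneg _) (h.md_le_nat _) ?_
    have h1 := md_abs (μ := μ) (s := s) (4 * L)
    have h2 : 0 ≤ c * vA 1 μ s (4 * L) * ((4 * L : ℕ) : ℝ) := by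
      have := h.vA_nonneg (4 * L)
      positivity
    linarith
  have hlog0 : 0 ≤ Real.log ((u : ℝ) + 1) := Real.log_nonneg (by
    have : (0 : ℝ) ≤ u := Nat.cast_nonneg u
    linarith)
  have hep0 : 0 ≤ ep μ s (4 * L) (md μ s (4 * L)) := integral_nonneg fun η => le_max_right _ _
  have hBt0 : 0 ≤ Bt := by
    rw [hBt]
    have := le_max_right (bb μ s (N - 4 * L) - bb μ s N) 0
    linarith
  have hlog : Real.log ((u : ℝ) + 1) ≤ EE μ s m := by
    have h1 := hie i N (by omega) (by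
      rw [hm] at hN2
      have h2 : 2 ^ (i + D) = 2 ^ D * 2 ^ i := by rw [pow_add, Nat.mul_comm]
      omega)
    rw [← hm] at h1
    refine le_trans (Real.log_le_log (by positivity) ?_) h1
    have h2 : u + 1 ≤ N := by omega
    exact_mod_cast h2
  have hE1' := one_le_EE (μ := μ) (s := s) m
  have hBt30 : Bt ≤ (30 + 4 * C) * (R * EE μ s m) := by
    rw [hBt]
    have h1 : EE μ s m ≤ R * EE μ s m := le_mul_of_one_le_left hEm.le hR0
    have h2 : C * EE μ s (4 * L) ≤ C * (4 * R * EE μ s m) := mul_le_mul_of_nonneg_left hE4L hC0.le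
    linarith
  have hgs := gain_sum (X := Finset.Icc (0 : ℤ) u) (Z := Z) (u := fun x => (x : ℝ) - sl μ s * u) (ρ := ρn) (q := q)
    (E := E1) (Ep := E2) (X₂ := nearS μ s u (R₂ * wd μ s (N - 4 * L)) 0) (Finset.filter_subset _ _)
    (fun x _ => by rw [hq]; exact integral_nonneg fun η => hqn η x)
    (fun x hx => by
      rw [hE1, hE2]
      exact integral_mono (hei x hx) ((hei x hx).sup (integrable_zero _ _ _)) fun η => le_max_left _ _)
    (fun x _ => by rw [hE2]; exact integral_nonneg fun η => le_max_right _ _) (n0 := 2 * ρn / hh + 1)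
    (n1 := 2 * ρn / hh - 1) (Bt := Bt) hQ0 (fun x _ => by rw [hZ]; exact grid_card_le hh0' M _ hρn0)
    (fun x hx => by
      rw [hZ]
      refine grid_card_ge hh0' ?_
      have h1 := (Finset.mem_filter.1 hx).2
      rw [Int.cast_zero, sub_zero] at h1
      have h2 : wd μ s (N - 4 * L) ≤ 2 * wd μ s N := hnd (N - 4 * L) N (by
        have := (nd'.trans hmT).trans hmL
        omega) (by omega)
      have h3 : R₂ * wd μ s (N - 4 * L) ≤ R₂ * (2 * wd μ s N) := mul_le_mul_of_nonneg_left h2 hR₂0.le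
      linarith)
    (by
      have h1 : 4 * W ≤ 2 * ρn / hh := by
        rw [le_div_iff₀ hhp, hW, hρn]
        have h2 : (4 : ℝ) * (wd μ s L / wd μ s m) * hh ≤ 4 * (wd μ s L / wd μ s m) * (c * wd μ s m / 8) :=
          mul_le_mul_of_nonneg_left hh2 (by positivity)
        have h3 : (4 : ℝ) * (wd μ s L / wd μ s m) * (c * wd μ s m / 8) = c * wd μ s L / 2 := by
          field_simp
          ring
        linarith
      linarith) (by positivity) (by rw [hq]; exact hloc) (by rw [hE2]; exact hes)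
  have h1 : 4 * W ≤ 2 * ρn / hh := by
    rw [le_div_iff₀ hhp, hW, hρn]
    have h2 : (4 : ℝ) * (wd μ s L / wd μ s m) * hh ≤ 4 * (wd μ s L / wd μ s m) * (c * wd μ s m / 8) :=
      mul_le_mul_of_nonneg_left hh2 (by positivity)
    have h3 : (4 : ℝ) * (wd μ s L / wd μ s m) * (c * wd μ s m / 8) = c * wd μ s L / 2 := by
      field_simp
      ring
    linarith
  have h2 : 2 * ρn / hh ≤ 8 * W := by
    rw [div_le_iff₀ hhp, hW, hρn]
    have h3 : (8 : ℝ) * (wd μ s L / wd μ s m) * (c * wd μ s m / 16) ≤ 8 * (wd μ s L / wd μ s m) * hh :=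
      mul_le_mul_of_nonneg_left hh1 (by positivity)
    have h4 : (8 : ℝ) * (wd μ s L / wd μ s m) * (c * wd μ s m / 16) = c * wd μ s L / 2 := by
      field_simp
      ring
    linarith
  have h3 := end_calc (W := W) (R := R) (E := EE μ s m) (K := K) (C := C) (n0 := 2 * ρn / hh + 1) (n1 := 2 * ρn / hh - 1)
    (Q := Q) (Bt := Bt) hW0 hR0 hEm hC0.le hK hQ1 (by linarith) (by linarith) hBt0 hBt30
  rw [← hW]
  exact h3.trans hgs

end

end Pool.Agent.W_7d29a1_HN
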