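import Pool.Agent.W_7d29a1_HS.Scale
import Pool.Agent.W_7d29a1_X42.Slab
import Pool.Agent.W_7d29a1_h48.Har

/-!
STRICT NEWMAN - PIZA AT EVERY TILT (MP_7d29a1_pr, proofs rows 649, 663): definitions (the case `s = 0` is `W_7d29a1_NP.Defs`).
The lucky strips, the test functions and the variances of the conditional expectations. The tilt is `s`, rows are `u`.

There are no parity conditions. The centre of the row `t` is `md μ s t`. The step of a tube from the slab `j` to the slab `j + 1` is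
`dj μ s a m j`, it is at distance less than `1` from `sl μ s * m` (`dj_abs`). The way from the site `x` of the row `u` to the tube `z`
(duration `L`) has the displacement `w2 μ s u L z x`, the way back (duration `2 L`, from the row `u + 2 L`) has the displacement
`w3 μ s u L z x` (`w2_abs`, `w3_abs`).
-/

set_option autoImplicit false

namespace Pool.Agent.W_7d29a1_HN

open MeasureTheory ProbabilityTheory Filter Topology Finset
open Pool.Agent.W_7d29a1_f21 Pool.Agent.W_7d29a1_F Pool.Agent.W_7d29a1_h4g Pool.Agent.W_7d29a1_H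
open Pool.Agent.W_7d29a1_HS
open Pool.Agent.W_7d29a1_X42 hiding sl

noncomputable section

/-- The slab number `k` of duration `m`: the rows `(k m, (k + 1) m]`. -/
abbrev slab (m k : ℕ) : Set Pt := Pool.Agent.W_7d29a1_X42.sl m k

/-- The variance of the conditional expectation of `F` given the coordinates in `A`. -/
def uv {ι : Type*} (μ : Measure ℝ) (A : Set ι) (F : (ι → ℝ) → ℝ) : ℝ :=
  (∫ g, cE μ Aᶜ F g ^ 2 ∂(lw ι μ)) - (∫ g, F g ∂(lw ι μ)) ^ 2

/-- The sum of `uv` over the first `K` slabs of duration `m`. -/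
def UU (μ : Measure ℝ) (F : Env → ℝ) (m K : ℕ) : ℝ := ∑ k ∈ range K, uv μ (slab m k) F

/-- The start of the tube `z` in the slab `(a + j m, a + (j + 1) m]`. -/
def tp (μ : Measure ℝ) (s : ℝ) (a m : ℕ) (z : ℤ) (j : ℕ) : Pt := (((a + j * m : ℕ) : ℤ), md μ s (a + j * m) + z)

/-- The displacement of the tube from the slab `j` to the slab `j + 1`. -/
def dj (μ : Measure ℝ) (s : ℝ) (a m j : ℕ) : ℤ := md μ s (a + (j + 1) * m) - md μ s (a + j * m)

/-- The displacement from the site `x` of the row `u` to the tube `z`, duration `L`. -/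
def w2 (μ : Measure ℝ) (s : ℝ) (u L : ℕ) (z x : ℤ) : ℤ := md μ s (u + L) + z - x

/-- The displacement from the tube `z` (row `u + 2 L`) to the site `x + md (4 L)` of the row `u + 4 L`, duration `2 L`. -/
def w3 (μ : Measure ℝ) (s : ℝ) (u L : ℕ) (z x : ℤ) : ℤ := x + md μ s (4 * L) - (md μ s (u + 2 * L) + z)

/-- The lucky event: the strip of half width `r` and duration `k` from `b` has at least `lam` units of luck. -/
def tD (μ : Measure ℝ) (s r : ℝ) (k : ℕ) (lam : ℝ) (b : Pt) : Set Env := {η | lam ≤ Real.log (cf μ s r η b k)}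

/-- The probability of the lucky event. -/
def pD (μ : Measure ℝ) (s r : ℝ) (k : ℕ) (lam : ℝ) : ℝ := (law μ).real (tD μ s r k lam 0)

/-- The normalised indicator of the lucky event. -/
def psi (μ : Measure ℝ) (s r : ℝ) (k : ℕ) (lam : ℝ) (b : Pt) (η : Env) : ℝ :=
  (tD μ s r k lam b).indicator (fun _ => (1 : ℝ)) η / pD μ s r k lam

/-- The product over the `R` slabs. -/
def phi (μ : Measure ℝ) (s r : ℝ) (k : ℕ) (lam : ℝ) (a m R : ℕ) (z : ℤ) (η : Env) : ℝ :=
  ∏ j ∈ range R, psi μ s r k lam (tp μ s a m z j) η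

/-- The test function of the block of `R` slabs, for the grid `Z`. -/
def YY (μ : Measure ℝ) (s r : ℝ) (k : ℕ) (lam : ℝ) (a m R : ℕ) (Z : Finset ℤ) (η : Env) : ℝ :=
  ∑ z ∈ Z, (phi μ s r k lam a m R z η - 1)

/-- The test function of one slab. -/
def Yj (μ : Measure ℝ) (s r : ℝ) (k : ℕ) (lam : ℝ) (a m : ℕ) (Z : Finset ℤ) (j : ℕ) (η : Env) : ℝ :=
  ∑ z ∈ Z, (psi μ s r k lam (tp μ s a m z j) η - 1)

/-- The sites of the row `u` at the relative distance at most `ρ` from `z`. -/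
def nearS (μ : Measure ℝ) (s : ℝ) (u : ℕ) (ρ : ℝ) (z : ℤ) : Finset ℤ :=
  (Finset.Icc (0 : ℤ) u).filter fun x => |(x : ℝ) - sl μ s * u - z| ≤ ρ

/-- The Newman - Piza quantity. -/
def bn (μ : Measure ℝ) (s : ℝ) (n : ℕ) : ℝ := wd μ s n * EE μ s n ^ 2 / n

/-! ### Roundings -/

variable {μ : Measure ℝ} {s : ℝ}

theorem md_lo96 (m : ℕ) : (md μ s m : ℝ) ≤ sl μ s * m := by
  unfold md
  exact Int.floor_le _

theorem md_hi96 (m : ℕ) : sl μ s * m - 1 < (md μ s m : ℝ) := by
  unfold md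
  exact Int.sub_one_lt_floor _

theorem dj_abs (a m j : ℕ) : |(dj μ s a m j : ℝ) - sl μ s * m| < 1 := by
  have h1 := md_lo96 (μ := μ) (s := s) (a + (j + 1) * m)
  have h2 := md_hi96 (μ := μ) (s := s) (a + (j + 1) * m)
  have h3 := md_lo96 (μ := μ) (s := s) (a + j * m)
  have h4 := md_hi96 (μ := μ) (s := s) (a + j * m)
  have e : sl μ s * ((a + (j + 1) * m : ℕ) : ℝ) = sl μ s * ((a + j * m : ℕ) : ℝ) + sl μ s * m := by
    push_cast
    ring
  unfold dj
  push_cast at h1 h2 h3 h4 e ⊢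
  rw [abs_lt]
  constructor <;> linarith

theorem w2_abs (u L : ℕ) (z x : ℤ) : |(w2 μ s u L z x : ℝ) - sl μ s * L| ≤ |(x : ℝ) - sl μ s * u - z| + 1 := by
  have h1 := md_lo96 (μ := μ) (s := s) (u + L)
  have h2 := md_hi96 (μ := μ) (s := s) (u + L)
  have h3 := le_abs_self ((x : ℝ) - sl μ s * u - z)
  have h4 := neg_abs_le ((x : ℝ) - sl μ s * u - z)
  unfold w2
  push_cast at h1 h2 ⊢
  rw [abs_le]
  constructor <;> linarith

theorem w3_abs (u L : ℕ) (z x : ℤ) :
    |(w3 μ s u L z x : ℝ) - sl μ s * ((2 * L : ℕ) : ℝ)| ≤ |(x : ℝ) - sl μ s * u - z| + 1 := by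
  have h1 := md_lo96 (μ := μ) (s := s) (4 * L)
  have h2 := md_hi96 (μ := μ) (s := s) (4 * L)
  have h5 := md_lo96 (μ := μ) (s := s) (u + 2 * L)
  have h6 := md_hi96 (μ := μ) (s := s) (u + 2 * L)
  have h3 := le_abs_self ((x : ℝ) - sl μ s * u - z)
  have h4 := neg_abs_le ((x : ℝ) - sl μ s * u - z)
  unfold w3
  push_cast at h1 h2 h5 h6 ⊢
  rw [abs_le]
  constructor <;> linarith

theorem tp_fst (a m : ℕ) (z : ℤ) (j : ℕ) : (tp μ s a m z j).1 = ((a + j * m : ℕ) : ℤ) := rfl

theorem tp_snd (a m : ℕ) (z : ℤ) (j : ℕ) : (tp μ s a m z j).2 = md μ s (a + j * m) + z := rfl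

/-- The starts of the tube in the next slab. -/
theorem tp_succ96 {a m : ℕ} (z : ℤ) (j : ℕ) : tp μ s (a + m) m z j = tp μ s a m z (j + 1) := by
  unfold tp
  have h : a + m + j * m = a + (j + 1) * m := by ring
  rw [h]

theorem dj_succ96 (a m j : ℕ) : dj μ s (a + m) m j = dj μ s a m (j + 1) := by
  unfold dj
  have h : a + m + (j + 1) * m = a + (j + 1 + 1) * m := by ring
  have h2 : a + m + j * m = a + (j + 1) * m := by ring
  rw [h, h2]

/-- The next start of the tube. -/
theorem tp_step96 (a m : ℕ) (z : ℤ) (j : ℕ) :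
    tp μ s a m z (j + 1) = ((tp μ s a m z j).1 + (m : ℤ), (tp μ s a m z j).2 + dj μ s a m j) := by
  unfold tp dj
  refine Prod.ext ?_ ?_
  · show ((a + (j + 1) * m : ℕ) : ℤ) = ((a + j * m : ℕ) : ℤ) + (m : ℤ)
    push_cast
    ring
  · show md μ s (a + (j + 1) * m) + z = md μ s (a + j * m) + z + (md μ s (a + (j + 1) * m) - md μ s (a + j * m))
    ring

end

end Pool.Agent.W_7d29a1_HN
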