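import Pool.Agent.W_7d29a1_HN.Block
import Pool.Agent.W_7d29a1_HN.Bessel
import Pool.Agent.W_7d29a1_HN.VarLe
import Pool.Agent.W_7d29a1_NP.LevelA
import Pool.Agent.W_7d29a1_NP.Rec

/-!
STRICT NEWMAN - PIZA AT EVERY TILT (MP_7d29a1_pr, proofs rows 649 and 663), section 4: the two cases at one level, and the input
of the recursion. (Model: `W_7d29a1_NP.Level`, helper64; port: helper83.)
-/

set_option autoImplicit false

namespace Pool.Agent.W_7d29a1_HN

open MeasureTheory ProbabilityTheory Filter Topology Finset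
open Pool.Agent.W_7d29a1_f21 Pool.Agent.W_7d29a1_F Pool.Agent.W_7d29a1_h4g Pool.Agent.W_7d29a1_H
open Pool.Agent.W_7d29a1_HS Pool.Agent.W_7d29a1_HX.XG
open Pool.Agent.W_7d29a1_X42 hiding sl
open Pool.Agent.W_7d29a1_NP (sum_blocks two_cases good_half caseA caseB card_int LevIn)

noncomputable section

variable {μ : Measure ℝ} [IsProbabilityMeasure μ] {s c C : ℝ} {n₀ : ℕ}

/-- `bn` is nearly nondecreasing times `n`. -/
theorem bn_comp (h : In μ s c C n₀) : ∃ n₁ : ℕ, 1 ≤ n₁ ∧ ∀ m n : ℕ, n₁ ≤ m → m ≤ n → (m : ℝ) * bn μ s m ≤ 2 * (n * bn μ s n) := by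
  obtain ⟨n₁, h1⟩ := wd_le2 h
  refine ⟨max n₁ 1, le_max_right _ _, fun m n hm hmn => ?_⟩
  have hm1 : n₁ ≤ m := (le_max_left _ _).trans hm
  have hm2 : 1 ≤ m := (le_max_right _ _).trans hm
  have h2 := h1 m n hm1 hmn
  have h3 : EE μ s m ≤ EE μ s n := EE_mono hmn
  have h4 := EE_pos (μ := μ) (s := s) m
  have hm0 : (0 : ℝ) < m := by exact_mod_cast hm2
  have hn0 : (0 : ℝ) < n := by exact_mod_cast (show 0 < n by omega)
  have e1 : (m : ℝ) * bn μ s m = wd μ s m * EE μ s m ^ 2 := by unfold bn; field_simp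
  have e2 : (n : ℝ) * bn μ s n = wd μ s n * EE μ s n ^ 2 := by unfold bn; field_simp
  rw [e1, e2]
  have h5 : EE μ s m ^ 2 ≤ EE μ s n ^ 2 := pow_le_pow_left₀ h4.le h3 2
  have h6 := wd_nonneg h m
  calc wd μ s m * EE μ s m ^ 2 ≤ wd μ s m * EE μ s n ^ 2 := mul_le_mul_of_nonneg_left h5 h6
    _ ≤ (2 * wd μ s n) * EE μ s n ^ 2 := mul_le_mul_of_nonneg_right h2 (sq_nonneg _)
    _ = 2 * (wd μ s n * EE μ s n ^ 2) := by ring

/-- The sums of the variances of the slabs. -/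
def VV (μ : Measure ℝ) (s : ℝ) (N J l : ℕ) : ℝ := wd μ s N / N * UU μ (fun η => V μ s η 0 N) (2 ^ l) (2 ^ (J + 1 - l))

theorem slab_sub {m k : ℕ} (R j : ℕ) (hj : j < R) : slab m (k * R + j) ⊆ slab (R * m) k := by
  intro p hp
  rw [mem_sl] at hp ⊢
  have h1 : k * (R * m) ≤ (k * R + j) * m := by
    have : (k * R + j) * m = k * (R * m) + j * m := by ring
    omega
  have h2 : (k * R + j + 1) * m ≤ (k + 1) * (R * m) := by
    have e : (k + 1) * (R * m) = (k * R + R) * m := by ring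
    rw [e]
    exact Nat.mul_le_mul_right m (by omega)
  have h1' : ((k * (R * m) : ℕ) : ℤ) ≤ (((k * R + j) * m : ℕ) : ℤ) := by exact_mod_cast h1
  have h2' : (((k * R + j + 1) * m : ℕ) : ℤ) ≤ (((k + 1) * (R * m) : ℕ) : ℤ) := by exact_mod_cast h2
  exact ⟨lt_of_le_of_lt h1' hp.1, hp.2.trans h2'⟩

theorem UU_mono {F : Env → ℝ} (hm : Measurable F) (hF : MemLp F 2 (lw Pt μ)) (m R K : ℕ) :
    UU μ F m (R * K) ≤ UU μ F (R * m) K := by
  unfold UU
  rw [sum_blocks]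
  refine Finset.sum_le_sum fun k _ => ?_
  refine uv_sum_le hm hF (range R) (fun j => slab m (k * R + j)) (fun i _ j _ hij => sl_disj m fun e => hij (by omega))
    fun j hj => slab_sub R j (Finset.mem_range.1 hj)

theorem UU_le_var {F : Env → ℝ} (hm : Measurable F) (hF : MemLp F 2 (lw Pt μ)) (m K : ℕ) :
    UU μ F m K ≤ Var[F; lw Pt μ] := by
  unfold UU
  exact (uv_sum_le hm hF (range K) (fun k => slab m k) (fun i _ j _ hij => sl_disj m hij) (B := Set.univ)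
    fun j _ => Set.subset_univ _).trans (uv_le_var hm hF _)

theorem UU_nonneg {F : Env → ℝ} (hm : Measurable F) (hF : MemLp F 2 (lw Pt μ)) (m K : ℕ) : 0 ≤ UU μ F m K :=
  Finset.sum_nonneg fun _ _ => uv_nonneg hm hF _

/-- (1.3) for one interior block. -/
theorem block_dich (hEM : Pool.Agent.W_7d29a1_h47.EM μ) {N m R k kk : ℕ} {r lam G : ℝ} {Z : Finset ℤ}
    (hp : 0 < pD μ s r k lam) (hkm : k ≤ m)
    (hsep : ∀ z ∈ Z, ∀ z' ∈ Z, z ≠ z' → 2 * r < |(z : ℝ) - z'|) (hZ : 1 ≤ Z.card) (hG : 0 < G)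
    (hgain : ∀ u rr : ℕ, u + (4 * (R * m) + rr) = N →
      G ≤ ∫ η, V μ s η 0 N * YY μ s r k lam (u + R * m) m R Z η ∂(law μ))
    (hk1 : 1 ≤ kk) (hk2 : (kk + 3) * (R * m) ≤ N) :
    G ^ 2 / (4 * (R * (Z.card * (1 / pD μ s r k lam)))) ≤ ∑ j ∈ range R, uv μ (slab m (kk * R + j)) (fun η => V μ s η 0 N) ∨
      ∑ j ∈ range R, uv μ (slab m (kk * R + j)) (fun η => V μ s η 0 N) +
        G ^ 2 / (4 * (Z.card * (1 / pD μ s r k lam) ^ R)) ≤ uv μ (slab (R * m) kk) (fun η => V μ s η 0 N) := by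
  obtain ⟨u, hs⟩ : ∃ u : ℕ, u = (kk - 1) * (R * m) := ⟨_, rfl⟩
  obtain ⟨a, ha⟩ : ∃ a : ℕ, a = kk * (R * m) := ⟨_, rfl⟩
  obtain ⟨kk', hkk'⟩ : ∃ kk' : ℕ, kk = kk' + 1 := ⟨kk - 1, by omega⟩
  have hsa : u + R * m = a := by
    rw [hs, ha, hkk']
    simp only [Nat.add_sub_cancel]
    ring
  have hsN : u + 4 * (R * m) ≤ N := by
    have : u + 4 * (R * m) = (kk + 3) * (R * m) := by
      rw [hs, hkk']
      simp only [Nat.add_sub_cancel]
      ring
    omega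
  have hg := hgain u (N - (u + 4 * (R * m))) (by omega)
  rw [hsa] at hg
  obtain ⟨y1, y2, y3, y4, y5, y6⟩ := YY_spec (μ := μ) hp (R := R) (a := a) hkm hsep
  have hFm : Measurable fun η : Env => V μ s η 0 N := measurable_V 0 N
  have hF : MemLp (fun η : Env => V μ s η 0 N) 2 (lw Pt μ) := memLp_of_Sub hEM (Sub_V 0 N)
  have hZ0 : (0 : ℝ) < Z.card := by exact_mod_cast hZ
  have hB : rows (a : ℤ) ((a + R * m : ℕ) : ℤ) = slab (R * m) kk := by
    unfold slab Pool.Agent.W_7d29a1_X42.sl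
    rw [ha]
    congr 2
    ring
  have hA : ∀ j : ℕ, rows ((a + j * m : ℕ) : ℤ) ((a + (j + 1) * m : ℕ) : ℤ) = slab m (kk * R + j) := by
    intro j
    unfold slab Pool.Agent.W_7d29a1_X42.sl
    rw [ha]
    congr 2
    · ring
    · ring
  have h := dich (μ := μ) hFm hF (range R) (fun j => slab m (kk * R + j))
    (fun i _ j _ hij => sl_disj m fun e => hij (by omega)) (B := slab (R * m) kk)
    (fun j hj => slab_sub R j (Finset.mem_range.1 hj)) (Y := YY μ s r k lam a m R Z) y1 y2 (by rw [← hB]; exact y3) y4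
    (Yj := fun j => Yj μ s r k lam a m Z j) (fun j hj => (y6 j hj).1) (fun j hj => (y6 j hj).2.1)
    (fun j hj => (y6 j hj).2.2.1) (fun j hj H hHm hH hHd => (y6 j hj).2.2.2.2 H hHm hH (by rw [hA j]; exact hHd))
    (V := Z.card * (1 / pD μ s r k lam) ^ R) (V1 := Z.card * (1 / pD μ s r k lam)) (G := G) (by positivity) (by positivity)
    hG y5 (fun j hj => (y6 j hj).2.2.2.1) hg
  rw [Finset.card_range] at h
  exact h

/-- Section 4: the two cases at one level. -/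
theorem level (h : In μ s c C n₀) : ∃ cA : ℝ, 0 < cA ∧ ∃ cB : ℝ, 0 < cB ∧ ∃ p0 : ℝ, 0 < p0 ∧ ∀ ρ D : ℕ, ∃ i₁ : ℕ, ∀ i : ℕ, i₁ ≤ i →
    ∀ N J : ℕ, i + ρ + 4 ≤ J → J ≤ i + D → 2 ^ J < N → N ≤ 2 * 2 ^ J →
    max (bb μ s (N - 4 * (2 ^ ρ * 2 ^ i)) - bb μ s N) 0 ≤ 12 * EE μ s (2 * (2 ^ ρ * 2 ^ i)) →
    cA * (wd μ s (2 ^ ρ * 2 ^ i) / wd μ s (2 ^ i)) ^ 2 * bn μ s (2 ^ i) ≤ bn μ s N ∨
      VV μ s N J i + cB * p0 ^ (2 ^ ρ) * bn μ s (2 ^ i) ≤ VV μ s N J (i + ρ) := by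
  obtain ⟨p0, CZ, hp0, -, hCZ, hb⟩ := block h
  obtain ⟨A, hA0, hA⟩ := var_le83 h
  refine ⟨p0 / (32 * CZ) / A ^ 2, by positivity, 1 / (128 * CZ), by positivity, p0, hp0, fun ρ D => ?_⟩
  obtain ⟨i₁, hi₁⟩ := hb ρ (D + 1)
  refine ⟨i₁ + 1, fun i hi N J hJ1 hJ2 hN1 hN2 hgood => ?_⟩
  have hL : 2 ^ ρ * 2 ^ i = 2 ^ (i + ρ) := by rw [pow_add, Nat.mul_comm]
  have hN16 : 16 * (2 ^ ρ * 2 ^ i) ≤ N := by
    have h1 : 16 * (2 ^ ρ * 2 ^ i) = 2 ^ (i + ρ + 4) := by rw [hL, pow_add]; ring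
    have h2 : 2 ^ (i + ρ + 4) ≤ 2 ^ J := Nat.pow_le_pow_right (by norm_num) hJ1
    omega
  have hND : N ≤ 2 ^ (D + 1) * 2 ^ i := by
    have h1 : 2 * 2 ^ J = 2 ^ (J + 1) := by rw [pow_succ]; ring
    have h2 : 2 ^ (J + 1) ≤ 2 ^ (D + 1) * 2 ^ i := by
      rw [← pow_add]
      exact Nat.pow_le_pow_right (by norm_num) (by omega)
    omega
  obtain ⟨r, lam, k, Z, hkm, hp, hr1, hsep, hZ1, hZc, hwm, hwN, hwL, hgain⟩ := hi₁ i (by omega) N hN16 hND hgood
  obtain ⟨m, hm⟩ : ∃ m : ℕ, m = 2 ^ i := ⟨_, rfl⟩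
  obtain ⟨R, hR⟩ : ∃ R : ℕ, R = 2 ^ ρ := ⟨_, rfl⟩
  obtain ⟨F, hF⟩ : ∃ F : Env → ℝ, F = fun η => V μ s η 0 N := ⟨_, rfl⟩
  have hRr : (2 : ℝ) ^ ρ = (R : ℝ) := by rw [hR]; push_cast; rfl
  rw [hRr] at hgain
  rw [← hm, ← hR] at hgain hN16 hwL ⊢
  rw [← hm] at hkm hZc hwm
  have hm1 : 1 ≤ m := by rw [hm]; exact Nat.one_le_two_pow
  have hR1 : 1 ≤ R := by rw [hR]; exact Nat.one_le_two_pow
  have hm0 : (0 : ℝ) < m := by exact_mod_cast hm1
  have hR0 : (1 : ℝ) ≤ R := by exact_mod_cast hR1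
  have hN0 : 0 < N := by omega
  have hN0' : (0 : ℝ) < N := by exact_mod_cast hN0
  have hZ0 : (0 : ℝ) < Z.card := by exact_mod_cast hZ1
  have hp1 : 0 < pD μ s r k lam := lt_of_lt_of_le hp0 hp
  have hE := EE_pos (μ := μ) (s := s) m
  obtain ⟨W, hW⟩ : ∃ W : ℝ, W = wd μ s (R * m) / wd μ s m := ⟨_, rfl⟩
  have hW1 : 1 ≤ 2 * W := by
    rw [hW, ← mul_div_assoc, le_div_iff₀ hwm]
    linarith
  have hW0 : 0 < W := by linarith
  rw [← hW] at hgain ⊢
  obtain ⟨G, hG⟩ : ∃ G : ℝ, G = R * W * EE μ s m := ⟨_, rfl⟩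
  have hG0 : 0 < G := by rw [hG]; positivity
  rw [← hG] at hgain
  -- the interior blocks
  obtain ⟨I, hI⟩ : ∃ I : Finset ℕ, I = Finset.Icc 1 (N / (R * m) - 3) := ⟨_, rfl⟩
  have hRm : 1 ≤ R * m := Nat.mul_pos hR1 hm1
  have hIc := card_int hRm hN16
  rw [← hI] at hIc
  have hdiv : (N / (R * m)) * (R * m) ≤ N := Nat.div_mul_le_self N (R * m)
  have h16 : 16 ≤ N / (R * m) := by
    rw [Nat.le_div_iff_mul_le (by omega)]
    exact hN16
  obtain ⟨Kt, hKt⟩ : ∃ Kt : ℕ, Kt = 2 ^ (J + 1 - (i + ρ)) := ⟨_, rfl⟩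
  have hKtR : R * Kt = 2 ^ (J + 1 - i) := by
    rw [hKt, hR, ← pow_add]
    congr 1
    omega
  have hKtL : Kt * (R * m) = 2 ^ (J + 1) := by
    rw [hKt, hR, hm, hL, ← pow_add]
    congr 1
    omega
  have hIK : ∀ kk ∈ I, kk < Kt ∧ 1 ≤ kk ∧ (kk + 3) * (R * m) ≤ N := by
    intro kk hkk
    rw [hI, Finset.mem_Icc] at hkk
    have h1 : (kk + 3) * (R * m) ≤ (N / (R * m)) * (R * m) := Nat.mul_le_mul_right _ (by omega)
    have h2 : N ≤ Kt * (R * m) := by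
      rw [hKtL, pow_succ]
      omega
    refine ⟨?_, hkk.1, h1.trans hdiv⟩
    by_contra hcon
    rw [not_lt] at hcon
    have h3 : Kt * (R * m) ≤ kk * (R * m) := Nat.mul_le_mul_right _ hcon
    have h4 : (kk + 3) * (R * m) = kk * (R * m) + 3 * (R * m) := by ring
    omega
  have hFm : Measurable F := by rw [hF]; exact measurable_V 0 N
  have hFL : MemLp F 2 (lw Pt μ) := by rw [hF]; exact memLp_of_Sub h.em (Sub_V 0 N)
  have hIr : I ⊆ range Kt := fun kk hkk => Finset.mem_range.2 (hIK kk hkk).1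
  have hblk : ∀ kk ∈ I, _ := fun kk hkk => block_dich (μ := μ) h.em hp1 hkm hsep hZ1 hG0 hgain
    (hIK kk hkk).2.1 (hIK kk hkk).2.2
  rw [← hF] at hblk
  have hvar : Var[F; lw Pt μ] ≤ A ^ 2 * EE μ s N ^ 2 := by
    rw [hF]
    exact hA N hN0
  have hUm : UU μ F m (R * Kt) = ∑ kk ∈ range Kt, ∑ j ∈ range R, uv μ (slab m (kk * R + j)) F := by
    unfold UU
    exact sum_blocks _ R Kt
  have hVi : VV μ s N J i = wd μ s N / N * UU μ F m (R * Kt) := by
    unfold VV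
    rw [hKtR, hm, hF]
  have hVr : VV μ s N J (i + ρ) = wd μ s N / N * UU μ F (R * m) Kt := by
    unfold VV
    rw [hR, hm, hL, hKt, hF]
  rcases two_cases I hblk with ⟨I', hI', hc, hP⟩ | ⟨I', hI', hc, hQ⟩
  · left
    have hc' : (I.card : ℝ) / 2 ≤ I'.card := by
      have : (I.card : ℝ) ≤ 2 * I'.card := by exact_mod_cast hc
      linarith
    have h1 : (I'.card : ℝ) * (G ^ 2 / (4 * (R * (Z.card * (1 / pD μ s r k lam))))) ≤ UU μ F m (R * Kt) := by
      rw [hUm]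
      have h2 := Finset.card_nsmul_le_sum I' (fun kk => ∑ j ∈ range R, uv μ (slab m (kk * R + j)) F) _ hP
      rw [nsmul_eq_mul] at h2
      exact h2.trans (Finset.sum_le_sum_of_subset_of_nonneg (hI'.trans hIr) fun kk _ _ =>
        Finset.sum_nonneg fun j _ => uv_nonneg hFm hFL _)
    have h3 : (I.card : ℝ) / 2 * (G ^ 2 / (4 * (R * (Z.card * (1 / pD μ s r k lam))))) ≤ A ^ 2 * EE μ s N ^ 2 := by
      refine le_trans ?_ (h1.trans ((UU_le_var hFm hFL _ _).trans hvar))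
      exact mul_le_mul_of_nonneg_right hc' (by positivity)
    rw [hG] at h3
    have h4 := caseA (n := N) (I := I.card) (R := R) (W := W) (E := EE μ s m) (Zc := Z.card) (p := pD μ s r k lam) (p0 := p0)
      (CZ := CZ) (wN := wd μ s N) (wm := wd μ s m) (m := m) (A2 := A ^ 2) hN0' hR0 hE hZ0 hp0 hp hCZ hwN hwm hm0 hZc
      (by push_cast at hIc; exact hIc) h3
    have h5 : p0 / (32 * CZ) / A ^ 2 * W ^ 2 * bn μ s m = (p0 / (32 * CZ) * W ^ 2 * (wd μ s m * EE μ s m ^ 2 / m)) / A ^ 2 := by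
      unfold bn
      ring
    rw [h5, div_le_iff₀ (by positivity), mul_comm (bn μ s N)]
    exact h4
  · right
    have hc' : (I.card : ℝ) / 2 ≤ I'.card := by
      have : (I.card : ℝ) ≤ 2 * I'.card := by exact_mod_cast hc
      linarith
    have h1 : UU μ F m (R * Kt) + (I'.card : ℝ) * (G ^ 2 / (4 * (Z.card * (1 / pD μ s r k lam) ^ R))) ≤ UU μ F (R * m) Kt := by
      rw [hUm]
      have h2 : (I'.card : ℝ) * (G ^ 2 / (4 * (Z.card * (1 / pD μ s r k lam) ^ R))) =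
          ∑ kk ∈ range Kt, if kk ∈ I' then G ^ 2 / (4 * (Z.card * (1 / pD μ s r k lam) ^ R)) else 0 := by
        rw [← Finset.sum_filter, Finset.sum_const, nsmul_eq_mul]
        congr 3
        ext kk
        rw [Finset.mem_filter]
        exact ⟨fun hk => ⟨hIr (hI' hk), hk⟩, fun hk => hk.2⟩
      rw [h2, ← Finset.sum_add_distrib]
      unfold UU
      refine Finset.sum_le_sum fun kk _ => ?_
      split_ifs with hk
      · exact hQ kk hk
      · rw [add_zero]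
        exact uv_sum_le hFm hFL (range R) (fun j => slab m (kk * R + j))
          (fun i _ j _ hij => sl_disj m fun e => hij (by omega)) fun j hj => slab_sub R j (Finset.mem_range.1 hj)
    have h3 : UU μ F m (R * Kt) + (I.card : ℝ) / 2 * (G ^ 2 / (4 * (Z.card * (1 / pD μ s r k lam) ^ R))) ≤
        UU μ F (R * m) Kt := by
      refine le_trans ?_ h1
      have := mul_le_mul_of_nonneg_right hc'
        (show 0 ≤ G ^ 2 / (4 * (Z.card * (1 / pD μ s r k lam) ^ R)) by positivity)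
      linarith
    rw [hG] at h3
    have h4 := caseB (n := N) (I := I.card) (R := R) (W := W) (E := EE μ s m) (Zc := Z.card) (p := pD μ s r k lam) (p0 := p0)
      (CZ := CZ) (wN := wd μ s N) (wm := wd μ s m) (m := m) (r := R) hN0' hR0 hW1 hE hZ0 hp0 hp hCZ hwN hwm hm0 hZc
      (by push_cast at hIc; exact hIc) h3
    rw [hVi, hVr]
    have h5 : 1 / (128 * CZ) * p0 ^ R * bn μ s m = p0 ^ R / (128 * CZ) * (wd μ s m * EE μ s m ^ 2 / m) := by
      unfold bn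
      ring
    rw [h5]
    exact h4

theorem bn_pos (h : In μ s c C n₀) {n : ℕ} (hn : 1 ≤ n) : 0 < bn μ s n := by
  have hn0 : (0 : ℝ) < n := by exact_mod_cast hn
  have h2 : 0 < wd μ s n := h.wd_pos hn
  have h3 := EE_pos (μ := μ) (s := s) n
  unfold bn
  positivity

/-- `VV` is nondecreasing in the level. -/
theorem VV_mono (hEM : Pool.Agent.W_7d29a1_h47.EM μ) (N J : ℕ) (hw : 0 ≤ wd μ s N / N) : Monotone (VV μ s N J) := by
  have hFm : Measurable fun η : Env => V μ s η 0 N := measurable_V 0 N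
  have hF : MemLp (fun η : Env => V μ s η 0 N) 2 (lw Pt μ) := memLp_of_Sub hEM (Sub_V 0 N)
  refine monotone_nat_of_le_succ fun l => mul_le_mul_of_nonneg_left ?_ hw
  have h1 := UU_mono (μ := μ) hFm hF (2 ^ l) 2 (2 ^ (J + 1 - (l + 1)))
  rw [← pow_succ', ← pow_succ'] at h1
  refine le_trans ?_ h1
  rcases le_or_gt (l + 1) (J + 1) with h2 | h2
  · rw [show J + 1 - (l + 1) + 1 = J + 1 - l by omega]
  · rw [show J + 1 - (l + 1) + 1 = 1 by omega, show J + 1 - l = 0 by omega]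
    unfold UU
    exact Finset.sum_le_sum_of_subset_of_nonneg (Finset.range_mono (by norm_num)) fun k _ _ => uv_nonneg hFm hF _

/-- The input of the recursion. -/
theorem lev_in (h : In μ s c C n₀) : ∃ K : ℝ, 1 ≤ K ∧ LevIn (fun i => bn μ s (2 ^ i)) K ∧
    ∃ i₀ : ℕ, ∀ i d : ℕ, i₀ ≤ i → bn μ s (2 ^ i) ≤ K * 2 ^ d * bn μ s (2 ^ (i + d)) := by
  obtain ⟨cA, hcA, cB, hcB, p0, hp0, hlev⟩ := level h
  obtain ⟨A, hA0, hA⟩ := var_le83 h
  obtain ⟨n₁, hn₁, hcomp⟩ := bn_comp h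
  obtain ⟨n₂, hgrow⟩ := wd_growth h
  have hK4 : (4 : ℝ) ≤ 4 * (A ^ 2 + 1) := by nlinarith [sq_nonneg A]
  refine ⟨4 * (A ^ 2 + 1), by linarith, fun B => ?_, n₁, fun i d hi => ?_⟩
  · obtain ⟨B', hB'⟩ : ∃ B' : ℝ, B' = 2 * (|B| / cA + 1) := ⟨_, rfl⟩
    obtain ⟨J0, n₃, hsc⟩ := scale_a h B'
    obtain ⟨ρ, hρ⟩ : ∃ ρ : ℕ, ρ = J0 + 1 := ⟨_, rfl⟩
    refine ⟨ρ, by omega, cB * p0 ^ (2 ^ ρ), by positivity, fun D => ?_⟩
    obtain ⟨i₁, hi₁⟩ := hlev ρ D
    obtain ⟨T, hT⟩ : ∃ T : ℕ, T = max (max n₁ n₂) n₃ := ⟨_, rfl⟩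
    refine ⟨i₁ + T, fun i J hi hJ S hS => ?_⟩
    have hJT : T ≤ 2 ^ i := (show T ≤ i by omega).trans Nat.lt_two_pow_self.le
    rcases S.eq_empty_or_nonempty with hSe | hSne
    · subst hSe
      refine ⟨fun _ => 0, monotone_const, fun _ => le_rfl, fun _ => ?_, ∅, Finset.empty_subset _, by simp, by simp⟩
      have := bn_pos h (n := 2 ^ (J + 1)) Nat.one_le_two_pow
      positivity
    obtain ⟨N, hN1, hN2, hN3⟩ := XGood_of h J
      (fun i' => if i' ∈ S.image (fun l => l + ρ + 1) then 1 else 0) (fun i' _ => by split_ifs <;> norm_num)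
    have hsub : S.image (fun l => l + ρ + 1) ⊆ range J := by
      intro i' hi'
      rw [Finset.mem_image] at hi'
      obtain ⟨l, hl, rfl⟩ := hi'
      have := (hS l hl).2
      rw [Finset.mem_range]
      omega
    have hinj : ∀ l ∈ S, ∀ l' ∈ S, l + ρ + 1 = l' + ρ + 1 → l = l' := fun l _ l' _ e => by omega
    obtain ⟨g, hg⟩ : ∃ g : ℕ → ℝ, g = fun l => max (bb μ s (N - 4 * (2 ^ ρ * 2 ^ l)) - bb μ s N) 0 /
      EE μ s (2 * (2 ^ ρ * 2 ^ l)) := ⟨_, rfl⟩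
    have hsum : ∑ l ∈ S, g l ≤ 6 * S.card := by
      have e1 : ∑ i' ∈ range J, (if i' ∈ S.image (fun l => l + ρ + 1) then (1 : ℝ) else 0) *
          (max (bb μ s (N - 2 * 2 ^ i') - bb μ s N) 0 / EE μ s (2 ^ i')) = ∑ l ∈ S, g l := by
        simp only [ite_mul, one_mul, zero_mul]
        rw [← Finset.sum_filter, Finset.filter_mem_eq_inter, Finset.inter_eq_right.2 hsub, Finset.sum_image hinj]
        refine Finset.sum_congr rfl fun l _ => ?_
        rw [hg]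
        simp only
        have e2 : 2 * 2 ^ (l + ρ + 1) = 4 * (2 ^ ρ * 2 ^ l) := by
          rw [pow_succ, pow_add]
          ring
        have e3 : 2 ^ (l + ρ + 1) = 2 * (2 ^ ρ * 2 ^ l) := by
          rw [pow_succ, pow_add]
          ring
        rw [e2, e3]
      have e4 : ∑ i' ∈ range J, (if i' ∈ S.image (fun l => l + ρ + 1) then (1 : ℝ) else 0) = S.card := by
        rw [← Finset.sum_filter, Finset.filter_mem_eq_inter, Finset.inter_eq_right.2 hsub, Finset.sum_const,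
          nsmul_eq_mul, mul_one, Finset.card_image_of_injOn fun l hl l' hl' e => hinj l hl l' hl' e]
      rw [e1, e4] at hN3
      exact hN3
    have hN0 : 0 < N := by omega
    have hNp : (0 : ℝ) < N := by exact_mod_cast hN0
    have hbN : 0 < bn μ s N := bn_pos h hN0
    have hbJ : bn μ s N ≤ 4 * bn μ s (2 ^ (J + 1)) := by
      obtain ⟨l, hl⟩ := hSne
      have hl2 := hS l hl
      have hiN : 2 ^ i ≤ N := by
        have : 2 ^ i ≤ 2 ^ J := Nat.pow_le_pow_right (by norm_num) (by omega)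
        omega
      have h1 := hcomp N (2 ^ (J + 1)) (by
        have : n₁ ≤ T := by rw [hT]; exact (le_max_left _ _).trans (le_max_left _ _)
        omega) (by rw [pow_succ]; omega)
      have h2 : (((2 : ℕ) ^ (J + 1) : ℕ) : ℝ) ≤ 2 * N := by
        have : 2 ^ (J + 1) ≤ 2 * N := by rw [pow_succ]; omega
        exact_mod_cast this
      have h3 := bn_pos h (n := 2 ^ (J + 1)) Nat.one_le_two_pow
      have h4 : 2 * ((((2 : ℕ) ^ (J + 1) : ℕ) : ℝ) * bn μ s (2 ^ (J + 1))) ≤ 2 * (2 * N * bn μ s (2 ^ (J + 1))) := by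
        have := mul_le_mul_of_nonneg_right h2 h3.le
        linarith
      have h5 : (N : ℝ) * bn μ s N ≤ N * (4 * bn μ s (2 ^ (J + 1))) := by linarith
      exact le_of_mul_le_mul_left h5 hNp
    have hwN : 0 ≤ wd μ s N / N := div_nonneg (wd_nonneg h N) hNp.le
    have hFm : Measurable fun η : Env => V μ s η 0 N := measurable_V 0 N
    have hFL : MemLp (fun η : Env => V μ s η 0 N) 2 (lw Pt μ) := memLp_of_Sub h.em (Sub_V 0 N)
    have hvar : Var[fun η : Env => V μ s η 0 N; lw Pt μ] ≤ A ^ 2 * EE μ s N ^ 2 := hA N hN0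
    refine ⟨VV μ s N J, VV_mono h.em N J hwN, fun l => mul_nonneg hwN (UU_nonneg hFm hFL _ _), fun l => ?_,
      S.filter fun l => g l ≤ 12, Finset.filter_subset _ _, good_half (fun l _ => ?_) hsum, fun l hl => ?_⟩
    · have h1 : VV μ s N J l ≤ wd μ s N / N * (A ^ 2 * EE μ s N ^ 2) :=
        mul_le_mul_of_nonneg_left ((UU_le_var hFm hFL _ _).trans hvar) hwN
      have h2 : wd μ s N / N * (A ^ 2 * EE μ s N ^ 2) = A ^ 2 * bn μ s N := by
        unfold bn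
        ring
      have h3 : A ^ 2 * bn μ s N ≤ A ^ 2 * (4 * bn μ s (2 ^ (J + 1))) := mul_le_mul_of_nonneg_left hbJ (sq_nonneg A)
      have h4 := bn_pos h (n := 2 ^ (J + 1)) Nat.one_le_two_pow
      linarith
    · rw [hg]
      exact div_nonneg (le_max_right _ _) (EE_pos _).le
    · rw [Finset.mem_filter] at hl
      obtain ⟨hlS, hgl⟩ := hl
      obtain ⟨hl1, hl2⟩ := hS l hlS
      have hTl : T ≤ 2 ^ l := (show T ≤ l by omega).trans Nat.lt_two_pow_self.le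
      rw [hg] at hgl
      simp only at hgl
      rw [div_le_iff₀ (EE_pos _)] at hgl
      rcases hi₁ l (by omega) N J hl2 (by omega) hN1 hN2 hgl with h1 | h1
      · left
        obtain ⟨W, hW⟩ : ∃ W : ℝ, W = wd μ s (2 ^ ρ * 2 ^ l) / wd μ s (2 ^ l) := ⟨_, rfl⟩
        rw [← hW] at h1
        have hwl : 0 < wd μ s (2 ^ l) := h.wd_pos Nat.one_le_two_pow
        have hml : 2 ^ l ≤ 2 ^ ρ * 2 ^ l := Nat.le_mul_of_pos_left _ (by positivity)
        have h2 := hgrow (2 ^ l) (2 ^ ρ * 2 ^ l) (by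
          have : n₂ ≤ T := by rw [hT]; exact (le_max_right _ _).trans (le_max_left _ _)
          omega) hml
        have h3 := hsc (2 ^ l) (2 ^ ρ * 2 ^ l) (by
          have : n₃ ≤ T := by rw [hT]; exact le_max_right _ _
          omega) (by
          refine Nat.mul_le_mul_right _ (Nat.pow_le_pow_right (by norm_num) (by omega)))
        have hEl := EE_pos (μ := μ) (s := s) (2 ^ l)
        have h4 : |B| / cA + 1 ≤ W := by
          rw [hW, le_div_iff₀ hwl]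
          have h5 : wd μ s (2 ^ l) * (B' * EE μ s (2 ^ l)) ≤ 2 * EE μ s (2 ^ l) * wd μ s (2 ^ ρ * 2 ^ l) :=
            (mul_le_mul_of_nonneg_left h3 hwl.le).trans h2
          have h6 : ((|B| / cA + 1) * wd μ s (2 ^ l)) * (2 * EE μ s (2 ^ l)) ≤ wd μ s (2 ^ ρ * 2 ^ l) * (2 * EE μ s (2 ^ l)) := by
            rw [hB'] at h5
            linarith
          exact le_of_mul_le_mul_right h6 (by positivity)
        have h5 : 0 ≤ |B| / cA := by positivity
        have h6 : |B| / cA ≤ W ^ 2 := by nlinarith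
        have h7 : B ≤ cA * W ^ 2 := by
          rw [div_le_iff₀ hcA] at h6
          linarith [le_abs_self B]
        have h8 := bn_pos h (n := 2 ^ l) Nat.one_le_two_pow
        have h9 := bn_pos h (n := 2 ^ (J + 1)) Nat.one_le_two_pow
        have h10 : B * bn μ s (2 ^ l) ≤ cA * W ^ 2 * bn μ s (2 ^ l) := mul_le_mul_of_nonneg_right h7 h8.le
        have h11 : 4 * bn μ s (2 ^ (J + 1)) ≤ 4 * (A ^ 2 + 1) * bn μ s (2 ^ (J + 1)) := mul_le_mul_of_nonneg_right hK4 h9.le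
        linarith
      · right
        exact h1
  · have h1 := hcomp (2 ^ i) (2 ^ (i + d)) (hi.trans Nat.lt_two_pow_self.le) (Nat.pow_le_pow_right (by norm_num) (by omega))
    have h2 := bn_pos h (n := 2 ^ (i + d)) Nat.one_le_two_pow
    push_cast at h1
    rw [pow_add] at h1
    have h3 : (0 : ℝ) < 2 ^ i := by positivity
    have h4 : (2 : ℝ) ^ i * bn μ s (2 ^ i) ≤ 2 ^ i * (2 * 2 ^ d * bn μ s (2 ^ (i + d))) := by linarith
    have h5 := le_of_mul_le_mul_left h4 h3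
    have h6 : 2 * 2 ^ d * bn μ s (2 ^ (i + d)) ≤ 4 * (A ^ 2 + 1) * 2 ^ d * bn μ s (2 ^ (i + d)) := by
      have : (2 : ℝ) * (2 ^ d * bn μ s (2 ^ (i + d))) ≤ 4 * (A ^ 2 + 1) * (2 ^ d * bn μ s (2 ^ (i + d))) :=
        mul_le_mul_of_nonneg_right (by linarith) (by positivity)
      linarith
    exact h5.trans h6

end

end Pool.Agent.W_7d29a1_HN
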