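import Pool.Agent.W_7d29a1_HN.Defs
import Pool.Agent.W_7d29a1_HS.FinS

/-!
STRICT NEWMAN - PIZA AT EVERY TILT (rows 649, 663), leaf (h): from the power growth of `wd n EE n ^ 2 / n` at the tilt `2 h` to the
width and the deviation at the force `h` on the probability space of the problem (the case `h = 0` is `W_7d29a1_NP.MainNP`).
-/

set_option autoImplicit false

namespace Pool.Agent.W_7d29a1_HN

open MeasureTheory ProbabilityTheory Filter Topology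
open Pool.Agent.W_7d29a1_F Pool.Agent.W_7d29a1_h4g Pool.Agent.W_7d29a1_H Pool.Agent.W_7d29a1_HS
open Pool.Agent.W_7d29a1_SR (toF)

variable {μ : Measure ℝ} [IsProbabilityMeasure μ] {h c C : ℝ} {n₀ : ℕ}
variable {Ω : Type*} [MeasurableSpace Ω] {P : Measure Ω} [IsProbabilityMeasure P] {ω : ℕ × ℤ → Ω → ℝ} {β : ℝ}

/-- Strict Newman - Piza on the probability space of the problem, at all scales. -/
theorem np_P (hI : In μ (2 * h) c C n₀) (hmp : MeasurePreserving (fun x => toF β fun p => ω p x) P (law μ))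
    (hnp : ∃ c' : ℝ, 0 < c' ∧ ∃ n₁ : ℕ, 1 ≤ n₁ ∧ ∀ m n : ℕ, n₁ ≤ m → m ≤ n →
      c' * ((n : ℝ) / m) ^ c' * bn μ (2 * h) m ≤ bn μ (2 * h) n) :
    ∃ k : ℝ, 0 < k ∧ ∃ n₁ : ℕ, 1 ≤ n₁ ∧
      (∀ n : ℕ, n₁ ≤ n → k * (n : ℝ) ^ (1 + k) ≤ wth P β h ω (fun v => J μ (2 * h) (v / 2)) n * sgm P β h ω n ^ 2) ∧
      ∀ m n : ℕ, n₁ ≤ m → m ≤ n →
        k * ((n : ℝ) / m) ^ (1 + k) * (wth P β h ω (fun v => J μ (2 * h) (v / 2)) m * sgm P β h ω m ^ 2) ≤
          wth P β h ω (fun v => J μ (2 * h) (v / 2)) n * sgm P β h ω n ^ 2 := by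
  obtain ⟨a, A, b, B, ha, hA, hb, hB, n₂, hn₂, hsc⟩ := scales (P := P) (β := β) (ω := ω) hI hmp
  obtain ⟨c', hc', n₃, hn₃, hg⟩ := hnp
  obtain ⟨f, hf⟩ : ∃ f : ℕ → ℝ, ∀ n, f n = wth P β h ω (fun v => J μ (2 * h) (v / 2)) n * sgm P β h ω n ^ 2 := ⟨_, fun _ => rfl⟩
  obtain ⟨N, hN⟩ : ∃ N : ℕ, N = max n₂ n₃ := ⟨_, rfl⟩
  have hN2 : n₂ ≤ N := by rw [hN]; exact le_max_left _ _
  have hN3 : n₃ ≤ N := by rw [hN]; exact le_max_right _ _
  have hN1 : 1 ≤ N := hn₂.trans hN2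
  -- comparison with `n * bn n`
  have hup : ∀ n, N ≤ n → f n ≤ B * A ^ 2 * (n * bn μ (2 * h) n) := by
    intro n hn
    obtain ⟨s1, s2, s3, s4, s5⟩ := hsc n (hN2.trans hn)
    have hE := lt_of_lt_of_le one_pos (one_le_EE (μ := μ) (s := 2 * h) n)
    have hn0 : (0 : ℝ) < n := by exact_mod_cast hN1.trans hn
    have hσ0 : 0 ≤ sgm P β h ω n := le_trans (by positivity) s1
    have e : (n : ℝ) * bn μ (2 * h) n = wd μ (2 * h) n * EE μ (2 * h) n ^ 2 := by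
      unfold bn
      field_simp
    rw [hf, e]
    calc wth P β h ω (fun v => J μ (2 * h) (v / 2)) n * sgm P β h ω n ^ 2 ≤ (B * wd μ (2 * h) n) * (A * EE μ (2 * h) n) ^ 2 :=
          mul_le_mul s4 (pow_le_pow_left₀ hσ0 s2 2) (by positivity) (by positivity)
      _ = _ := by ring
  have hlo : ∀ n, N ≤ n → b * a ^ 2 * (n * bn μ (2 * h) n) ≤ f n := by
    intro n hn
    obtain ⟨s1, s2, s3, s4, s5⟩ := hsc n (hN2.trans hn)
    have hE := lt_of_lt_of_le one_pos (one_le_EE (μ := μ) (s := 2 * h) n)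
    have hn0 : (0 : ℝ) < n := by exact_mod_cast hN1.trans hn
    have e : (n : ℝ) * bn μ (2 * h) n = wd μ (2 * h) n * EE μ (2 * h) n ^ 2 := by
      unfold bn
      field_simp
    rw [hf, e]
    calc b * a ^ 2 * (wd μ (2 * h) n * EE μ (2 * h) n ^ 2) = (b * wd μ (2 * h) n) * (a * EE μ (2 * h) n) ^ 2 := by ring
      _ ≤ _ := mul_le_mul s3 (pow_le_pow_left₀ (by positivity) s1 2) (by positivity)
          (le_trans (by positivity) s3)
  have hbp : ∀ n, N ≤ n → 0 < bn μ (2 * h) n := by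
    intro n hn
    obtain ⟨s1, s2, s3, s4, s5⟩ := hsc n (hN2.trans hn)
    have hE := lt_of_lt_of_le one_pos (one_le_EE (μ := μ) (s := 2 * h) n)
    have hn0 : (0 : ℝ) < n := by exact_mod_cast hN1.trans hn
    unfold bn
    positivity
  have hfp : ∀ n, N ≤ n → 0 < f n := by
    intro n hn
    have hn0 : (0 : ℝ) < n := by exact_mod_cast hN1.trans hn
    have := hbp n hn
    exact lt_of_lt_of_le (by positivity) (hlo n hn)
  -- growth with one constant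
  obtain ⟨q, hq⟩ : ∃ q : ℝ, q = b * a ^ 2 / (B * A ^ 2) * c' := ⟨_, rfl⟩
  have hq0 : 0 < q := by rw [hq]; positivity
  have hgr : ∀ m n : ℕ, N ≤ m → m ≤ n → q * ((n : ℝ) / m) ^ (1 + c') * f m ≤ f n := by
    intro m n hm hmn
    have hm0 : (0 : ℝ) < m := by exact_mod_cast hN1.trans hm
    have hn0 : (0 : ℝ) < n := by exact_mod_cast hN1.trans (hm.trans hmn)
    have hr0 : (0 : ℝ) < (n : ℝ) / m := by positivity
    have h1 := hg m n (hN3.trans hm) hmn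
    have hbm := hbp m hm
    calc q * ((n : ℝ) / m) ^ (1 + c') * f m ≤ q * ((n : ℝ) / m) ^ (1 + c') * (B * A ^ 2 * (m * bn μ (2 * h) m)) :=
          mul_le_mul_of_nonneg_left (hup m hm) (by positivity)
      _ = b * a ^ 2 * (n * (c' * ((n : ℝ) / m) ^ c' * bn μ (2 * h) m)) := by
          rw [hq, Real.rpow_add hr0, Real.rpow_one]
          field_simp
      _ ≤ b * a ^ 2 * (n * bn μ (2 * h) n) :=
          mul_le_mul_of_nonneg_left (mul_le_mul_of_nonneg_left h1 hn0.le) (by positivity)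
      _ ≤ f n := hlo n (hm.trans hmn)
  -- the constant of the first clause
  obtain ⟨r, hr⟩ : ∃ r : ℝ, r = q * f N / (N : ℝ) ^ (1 + c') := ⟨_, rfl⟩
  have hNR : (0 : ℝ) < N := by exact_mod_cast hN1
  have hr0 : 0 < r := by
    have := hfp N le_rfl
    rw [hr]
    positivity
  obtain ⟨k, hk⟩ : ∃ k : ℝ, k = min c' (min q r) := ⟨_, rfl⟩
  have hk0 : 0 < k := by rw [hk]; positivity
  have hk1 : k ≤ c' := by rw [hk]; exact min_le_left _ _
  have hk2 : k ≤ q := by rw [hk]; exact (min_le_right _ _).trans (min_le_left _ _)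
  have hk3 : k ≤ r := by rw [hk]; exact (min_le_right _ _).trans (min_le_right _ _)
  refine ⟨k, hk0, N, hN1, fun n hn => ?_, fun m n hm hmn => ?_⟩
  · rw [← hf]
    have hn0 : (0 : ℝ) < n := by exact_mod_cast hN1.trans hn
    have hn1 : (1 : ℝ) ≤ n := by exact_mod_cast hN1.trans hn
    have h1 := hgr N n le_rfl hn
    have h2 : q * ((n : ℝ) / N) ^ (1 + c') * f N = r * (n : ℝ) ^ (1 + c') := by
      rw [hr, Real.div_rpow hn0.le hNR.le]
      ring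
    rw [h2] at h1
    refine le_trans (mul_le_mul hk3 (Real.rpow_le_rpow_of_exponent_le hn1 (by linarith)) (Real.rpow_nonneg hn0.le _)
      hr0.le) h1
  · rw [← hf, ← hf]
    have hm0 : (0 : ℝ) < m := by exact_mod_cast hN1.trans hm
    have hr1 : (1 : ℝ) ≤ (n : ℝ) / m := by
      rw [le_div_iff₀ hm0, one_mul]
      exact_mod_cast hmn
    refine le_trans (mul_le_mul_of_nonneg_right (mul_le_mul hk2 (Real.rpow_le_rpow_of_exponent_le hr1 (by linarith))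
      (Real.rpow_nonneg (by positivity) _) hq0.le) (hfp m hm).le) (hgr m n hm hmn)

/-- Superconcentration on the probability space of the problem, at all scales. -/
theorem sc_P (hI : In μ (2 * h) c C n₀) (hmp : MeasurePreserving (fun x => toF β fun p => ω p x) P (law μ))
    (hsc : ∃ (D e : ℝ) (n₁ : ℕ), 0 < D ∧ 0 < e ∧ e ≤ 1 ∧ 1 ≤ n₁ ∧ ∀ m n : ℕ, n₁ ≤ m → m ≤ n →
      EE μ (2 * h) n ^ 2 ≤ D * ((n : ℝ) / m) ^ (1 - e) * EE μ (2 * h) m ^ 2) :
    ∃ k K : ℝ, 0 < k ∧ k ≤ 1 / 2 ∧ 0 < K ∧ ∃ n₁ : ℕ, 1 ≤ n₁ ∧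
      (∀ n : ℕ, n₁ ≤ n → sgm P β h ω n ≤ K * (n : ℝ) ^ (1 / 2 - k)) ∧
      ∀ m n : ℕ, n₁ ≤ m → m ≤ n → sgm P β h ω n ≤ K * ((n : ℝ) / m) ^ (1 / 2 - k) * sgm P β h ω m := by
  obtain ⟨a, A, b, B, ha, hA, hb, hB, n₂, hn₂, hs⟩ := scales (P := P) (β := β) (ω := ω) hI hmp
  obtain ⟨D, e, n₃, hD, he, he1, hn₃, h3⟩ := hsc
  obtain ⟨N, hN⟩ : ∃ N : ℕ, N = max n₂ n₃ := ⟨_, rfl⟩
  have hN2 : n₂ ≤ N := by rw [hN]; exact le_max_left _ _
  have hN3 : n₃ ≤ N := by rw [hN]; exact le_max_right _ _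
  have hN1 : 1 ≤ N := hn₂.trans hN2
  obtain ⟨K₀, hK₀⟩ : ∃ K₀ : ℝ, K₀ = A * Real.sqrt D / a := ⟨_, rfl⟩
  have hK₀0 : 0 < K₀ := by rw [hK₀]; positivity
  have key : ∀ m n : ℕ, N ≤ m → m ≤ n → sgm P β h ω n ≤ K₀ * ((n : ℝ) / m) ^ (1 / 2 - e / 2) * sgm P β h ω m := by
    intro m n hm hmn
    have hm0 : (0 : ℝ) < m := by exact_mod_cast hN1.trans hm
    have hn0 : (0 : ℝ) < n := by exact_mod_cast hN1.trans (hm.trans hmn)
    have hr0 : (0 : ℝ) < (n : ℝ) / m := by positivity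
    have hE := lt_of_lt_of_le one_pos (one_le_EE (μ := μ) (s := 2 * h) m)
    have hE' := lt_of_lt_of_le one_pos (one_le_EE (μ := μ) (s := 2 * h) n)
    have h4 := h3 m n (hN3.trans hm) hmn
    have h5 : EE μ (2 * h) n ≤ Real.sqrt D * ((n : ℝ) / m) ^ (1 / 2 - e / 2) * EE μ (2 * h) m := by
      refine le_of_sq_le_sq ?_ (by positivity)
      refine h4.trans (le_of_eq ?_)
      rw [mul_pow, mul_pow, Real.sq_sqrt hD.le, ← Real.rpow_natCast (((n : ℝ) / m) ^ (1 / 2 - e / 2)), ← Real.rpow_mul hr0.le]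
      congr 3
      push_cast
      ring
    have s2 := (hs n (hN2.trans (hm.trans hmn))).2.1
    have s1 := (hs m (hN2.trans hm)).1
    calc sgm P β h ω n ≤ A * EE μ (2 * h) n := s2
      _ ≤ A * (Real.sqrt D * ((n : ℝ) / m) ^ (1 / 2 - e / 2) * EE μ (2 * h) m) := mul_le_mul_of_nonneg_left h5 hA.le
      _ = K₀ * ((n : ℝ) / m) ^ (1 / 2 - e / 2) * (a * EE μ (2 * h) m) := by
          rw [hK₀]
          field_simp
      _ ≤ _ := mul_le_mul_of_nonneg_left s1 (by positivity)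
  have hNR : (0 : ℝ) < N := by exact_mod_cast hN1
  have hσ : 0 ≤ sgm P β h ω N := Real.sqrt_nonneg _
  refine ⟨e / 2, K₀ + K₀ * sgm P β h ω N / (N : ℝ) ^ (1 / 2 - e / 2), by positivity, by linarith, by positivity, N, hN1,
    fun n hn => ?_, fun m n hm hmn => ?_⟩
  · have hn0 : (0 : ℝ) < n := by exact_mod_cast hN1.trans hn
    have h4 := key N n le_rfl hn
    rw [Real.div_rpow hn0.le hNR.le] at h4
    refine h4.trans ?_
    have h5 : 0 ≤ K₀ * (n : ℝ) ^ (1 / 2 - e / 2) := by positivity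
    have h6 : K₀ * ((n : ℝ) ^ (1 / 2 - e / 2) / (N : ℝ) ^ (1 / 2 - e / 2)) * sgm P β h ω N =
        K₀ * sgm P β h ω N / (N : ℝ) ^ (1 / 2 - e / 2) * (n : ℝ) ^ (1 / 2 - e / 2) := by ring
    rw [h6, add_mul]
    linarith
  · have hm0 : (0 : ℝ) < m := by exact_mod_cast hN1.trans hm
    have hr0 : (0 : ℝ) ≤ (n : ℝ) / m := by positivity
    have hσm : 0 ≤ sgm P β h ω m := Real.sqrt_nonneg _
    refine (key m n hm hmn).trans (mul_le_mul_of_nonneg_right (mul_le_mul_of_nonneg_right ?_ (Real.rpow_nonneg hr0 _)) hσm)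
    have : 0 ≤ K₀ * sgm P β h ω N / (N : ℝ) ^ (1 / 2 - e / 2) := by positivity
    linarith

end Pool.Agent.W_7d29a1_HN
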