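import Pool.Agent.W_7d29a1_HN.Qw
import Pool.Agent.W_7d29a1_h48.Ins

/-!
STRICT NEWMAN - PIZA AT EVERY TILT (MP_7d29a1_pr, proofs rows 649 and 663), leaf (d), first part: the weights `qw`, the Harris inequality for the part of
the free energy which does not go near the tube, and the mean of the costs `CQ` under `phi`. (Model: `W_7d29a1_NP.MeanA`, helper56; port: helper83.)
-/

set_option autoImplicit false

namespace Pool.Agent.W_7d29a1_HN.Me

open MeasureTheory ProbabilityTheory Filter Topology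
open Pool.Agent.W_7d29a1_f21 Pool.Agent.W_7d29a1_F Pool.Agent.W_7d29a1_h4g Pool.Agent.W_7d29a1_H
open Pool.Agent.W_7d29a1_HS Pool.Agent.W_7d29a1_HL Pool.Agent.W_7d29a1_HX.XG
open Pool.Agent.W_7d29a1_L78

noncomputable section

variable {μ : Measure ℝ} {s : ℝ}

/-- The free energy is nondecreasing in the environment. -/
theorem V_mono_env {η η' : Env} (h : ∀ p, η p ≤ η' p) (a : Pt) (n : ℕ) : V μ s η a n ≤ V μ s η' a n := by
  unfold V WS
  refine Real.log_le_log ?_ (Finset.sum_le_sum fun y _ => Pool.Agent.W_7d29a1_h48.W_mono_env h a n y)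
  exact lt_of_lt_of_le (W_pos (μ := μ) (s := s) η a le_rfl (Int.natCast_nonneg n))
    (Finset.single_le_sum (f := fun y => W μ s η a n y) (fun y _ => W_nonneg _ _ _ _)
      (Finset.mem_Icc.2 ⟨le_rfl, Int.natCast_nonneg n⟩))

/-- A bounded measurable function. -/
theorem Sub_bd {f : Env → ℝ} (hm : Measurable f) {b : ℝ} (h : ∀ η, |f η| ≤ b) : Sub f := by
  refine ⟨hm, ∅, b, (abs_nonneg (f 0)).trans (h 0), fun η => ?_⟩
  rw [Finset.sum_empty, add_zero, mul_one]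
  exact h η

theorem qw_nonneg (η : Env) (u l rr : ℕ) (x : ℤ) : 0 ≤ qw μ s η u l rr x :=
  div_nonneg (gw_nonneg η u l rr x) (glue_pos η u l rr).le

theorem qw_le_one (η : Env) (u l rr : ℕ) {x : ℤ} (hx : x ∈ Finset.Icc (0 : ℤ) u) : qw μ s η u l rr x ≤ 1 :=
  gw_le η u l rr hx

theorem measurable_qw (u l rr : ℕ) (x : ℤ) : Measurable fun η => qw μ s η u l rr x :=
  (measurable_gw u l rr x).div (measurable_glue u l rr)

theorem sum_qw_le {N : Finset ℤ} {u : ℕ} (hN : N ⊆ Finset.Icc (0 : ℤ) u) (η : Env) (l rr : ℕ) :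
    ∑ x ∈ N, qw μ s η u l rr x ≤ 1 := by
  refine (Finset.sum_le_sum_of_subset_of_nonneg hN fun x _ _ => qw_nonneg η u l rr x).trans (le_of_eq ?_)
  unfold qw
  rw [← Finset.sum_div, ← glue_eq, div_self (glue_pos η u l rr).ne']

theorem gw_dep (u l rr : ℕ) (x : ℤ) :
    DependsOn (fun η : Env => gw μ s η u l rr x) (rows 0 u ∪ rows ((u : ℤ) + l) ((u : ℤ) + l + rr)) := by
  intro η η' h
  show gw μ s η u l rr x = gw μ s η' u l rr x
  unfold gw
  have h2 : W μ s η 0 u x = W μ s η' 0 u x := W_dep_rows (μ := μ) (s := s) 0 u x fun p hp => h p (Or.inl (by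
    have h3 : rows (0 : Pt).1 ((0 : Pt).1 + u) ⊆ rows 0 u := rows_mono le_rfl (by
      show (0 : ℤ) + u ≤ u
      omega)
    exact h3 hp))
  have h3 : V μ s η ((u : ℤ) + l, x + md μ s l) rr = V μ s η' ((u : ℤ) + l, x + md μ s l) rr :=
    V_dep_rows (μ := μ) (s := s) _ rr fun p hp => h p (Or.inr hp)
  rw [h2, h3]

theorem qw_dep (u l rr : ℕ) (x : ℤ) :
    DependsOn (fun η : Env => qw μ s η u l rr x) (rows 0 u ∪ rows ((u : ℤ) + l) ((u : ℤ) + l + rr)) := by
  intro η η' h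
  show qw μ s η u l rr x = qw μ s η' u l rr x
  have h1 : ∀ y : ℤ, gw μ s η u l rr y = gw μ s η' u l rr y := fun y => gw_dep (μ := μ) u l rr y h
  unfold qw
  rw [glue_eq, glue_eq, h1 x]
  simp only [h1]

theorem log_gw (η : Env) {u : ℕ} (l rr : ℕ) {x : ℤ} (hx : x ∈ Finset.Icc (0 : ℤ) u) :
    Real.log (gw μ s η u l rr x) = -X μ s η 0 u x + V μ s η ((u : ℤ) + l, x + md μ s l) rr := by
  rw [Finset.mem_Icc] at hx
  unfold gw
  rw [Real.log_mul (W_pos η 0 hx.1 hx.2).ne' (Real.exp_pos _).ne', Real.log_exp]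
  unfold X
  rw [neg_neg]

theorem Sub_log_gw {u : ℕ} (l rr : ℕ) {x : ℤ} (hx : x ∈ Finset.Icc (0 : ℤ) u) :
    Sub fun η => Real.log (gw μ s η u l rr x) := by
  simp only [log_gw (μ := μ) _ l rr hx]
  rw [Finset.mem_Icc] at hx
  exact (Sub_X 0 hx.1 hx.2).neg.add (Sub_V _ rr)

theorem CQ_dep (S : Set Pt) (a : Pt) (l t : ℕ) (z : ℤ) :
    DependsOn (fun η : Env => CQ μ s S η a l t z) (rows a.1 (a.1 + l + t)) := by
  intro η η' h
  have h2 : cS μ s S η a l = cS μ s S η' a l := cS_dep (μ := μ) S a l fun p hp => h p ⟨hp.2.1, by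
    have h1 : p.1 ≤ a.1 + l := hp.2.2
    omega⟩
  have h3 : ∀ y : ℤ, WR μ s S η a l y = WR μ s S η' a l y := fun y =>
    WR_dep (μ := μ) (s := s) S a l y fun p hp => h p ⟨hp.1.1, by
      have h1 : p.1 ≤ a.1 + l := hp.1.2.1
      omega⟩
  have h4 : ∀ y : ℤ, X μ s η (a.1 + l, a.2 + y) t (z - y) = X μ s η' (a.1 + l, a.2 + y) t (z - y) := fun y =>
    X_dep_rows (μ := μ) (s := s) (a.1 + l, a.2 + y) t (z - y) fun p hp => h p ⟨by
      have h1 : a.1 + l < p.1 := hp.1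
      omega, hp.2⟩
  show CQ μ s S η a l t z = CQ μ s S η' a l t z
  unfold CQ
  rw [h2]
  simp only [h3, h4]

theorem measurableSet_tD (r : ℝ) (k : ℕ) (lam : ℝ) (b : Pt) : MeasurableSet (tD μ s r k lam b) := by
  have h1 : Measurable fun η : Env => Real.log (cf μ s r η b k) := (measurable_cS (μ := μ) (St μ s r b) b k).log
  exact measurableSet_le measurable_const h1

theorem tD_dep' (r : ℝ) (k : ℕ) (lam : ℝ) (b : Pt) {η η' : Env} (h : ∀ p ∈ St μ s r b ∩ rows b.1 (b.1 + k), η p = η' p) :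
    η ∈ tD μ s r k lam b ↔ η' ∈ tD μ s r k lam b := by
  have h1 : cf μ s r η b k = cf μ s r η' b k := cS_dep (μ := μ) (St μ s r b) b k h
  show lam ≤ Real.log (cf μ s r η b k) ↔ lam ≤ Real.log (cf μ s r η' b k)
  rw [h1]

variable [IsProbabilityMeasure μ]

/-- (3.1): the part of the free energy outside of `N` is positively correlated with an increasing function of the
removed rows. -/
theorem harris_part (hEM : Pool.Agent.W_7d29a1_h47.EM μ) {u l rr : ℕ} {N : Finset ℤ}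
    (hN : N ⊆ Finset.Icc (0 : ℤ) u) {φ : Env → ℝ} (hm : Measurable φ) {b : ℝ} (hb : ∀ η, 0 ≤ φ η ∧ φ η ≤ b)
    {D : Finset Pt} (hD : ∀ p ∈ D, p ∈ rows (u : ℤ) ((u : ℤ) + l)) (hd : DependsOn φ (D : Set Pt))
    (hmono : Monotone φ) (h1 : ∫ η, φ η ∂(law μ) = 1) :
    0 ≤ ∫ η, V μ s η 0 (u + (l + rr)) * (1 - ∑ x ∈ N, qw μ s η u l rr x) * (φ η - 1) ∂(law μ) := by
  obtain ⟨Q, hQ⟩ : ∃ Q : Env → ℝ, Q = fun η => 1 - ∑ x ∈ N, qw μ s η u l rr x := ⟨_, rfl⟩
  obtain ⟨F, hF⟩ : ∃ F : Env → ℝ, F = fun η => V μ s η 0 (u + (l + rr)) := ⟨_, rfl⟩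
  have hQm : Measurable Q := by
    rw [hQ]
    exact measurable_const.sub (Finset.measurable_sum _ fun x _ => measurable_qw u l rr x)
  have hQ0 : ∀ η, 0 ≤ Q η := fun η => by
    rw [hQ]
    have := sum_qw_le (μ := μ) (s := s) hN η l rr
    show 0 ≤ 1 - ∑ x ∈ N, qw μ s η u l rr x
    linarith
  have hQ1 : ∀ η, Q η ≤ 1 := fun η => by
    rw [hQ]
    have : 0 ≤ ∑ x ∈ N, qw μ s η u l rr x := Finset.sum_nonneg fun x _ => qw_nonneg η u l rr x
    show 1 - ∑ x ∈ N, qw μ s η u l rr x ≤ 1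
    linarith
  have hQS : Sub Q := Sub_bd hQm (b := 1) fun η => by
    rw [abs_of_nonneg (hQ0 η)]
    exact hQ1 η
  have hFS : Sub F := by rw [hF]; exact Sub_V 0 _
  have hb0 : 0 ≤ b := (hb 0).1.trans (hb 0).2
  have hQφS : Sub fun η => Q η * φ η := Sub_bd (hQm.mul hm) (b := b) fun η => by
    rw [abs_of_nonneg (mul_nonneg (hQ0 η) (hb η).1)]
    have := mul_le_mul (hQ1 η) (hb η).2 (hb η).1 zero_le_one
    linarith
  have i1 : Integrable (fun η => F η * Q η) (law μ) := Sub.mul_integrable hEM hFS hQS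
  have i2 : Integrable (fun η => F η * Q η * φ η) (law μ) := by
    have := Sub.mul_integrable hEM hFS hQφS
    simpa only [mul_assoc] using this
  have hmo : Pool.Agent.W_7d29a1_h48.MonoOn (D : Set Pt) fun η => F η * Q η := by
    intro g g' hle heq
    have h2 : Q g = Q g' := by
      rw [hQ]
      show 1 - ∑ x ∈ N, qw μ s g u l rr x = 1 - ∑ x ∈ N, qw μ s g' u l rr x
      congr 1
      refine Finset.sum_congr rfl fun x _ => ?_
      refine qw_dep (μ := μ) u l rr x fun p hp => heq p fun hpD => ?_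
      have h3 := hD p hpD
      have h4 : Disjoint (rows 0 u ∪ rows ((u : ℤ) + l) ((u : ℤ) + l + rr)) (rows u ((u : ℤ) + l)) :=
        Set.disjoint_union_left.2 ⟨rows_disj le_rfl, (rows_disj le_rfl).symm⟩
      exact (Set.disjoint_left.1 h4) hp h3
    show F g * Q g ≤ F g' * Q g'
    rw [h2]
    refine mul_le_mul_of_nonneg_right ?_ (hQ0 g')
    rw [hF]
    exact V_mono_env hle 0 _
  have h5 := Pool.Agent.W_7d29a1_h48.harris (μ := μ) D (F := fun η => F η * Q η) (G := φ) (hFS.1.mul hQm) i1 hm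
    (b := b) (fun η => by rw [abs_of_nonneg (hb η).1]; exact (hb η).2) hmo
    (Pool.Agent.W_7d29a1_h48.monoOn_of_monotone hmono _) hd
  have h6 : (∫ η, φ η ∂(lw Pt μ)) = 1 := h1
  rw [h6, mul_one] at h5
  have h7 : ∫ η, F η * Q η * (φ η - 1) ∂(law μ) = ∫ η, F η * Q η * φ η ∂(law μ) - ∫ η, F η * Q η ∂(law μ) := by
    rw [← integral_sub i2 i1]
    refine integral_congr_ae (ae_of_all _ fun η => ?_)
    show F η * Q η * (φ η - 1) = F η * Q η * φ η - F η * Q η
    ring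
  have h8 : ∫ η, F η * Q η ∂(law μ) ≤ ∫ η, F η * Q η * φ η ∂(law μ) := h5
  have h9 : (0 : ℝ) ≤ ∫ η, F η * Q η * (φ η - 1) ∂(law μ) := by
    rw [h7]
    linarith
  rw [hF, hQ] at h9
  exact h9

end

end Pool.Agent.W_7d29a1_HN.Me
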