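import Pool.Agent.W_7d29a1_HN.MeanA
import Pool.Agent.W_7d29a1_HN.Tube

/-!
STRICT NEWMAN - PIZA AT EVERY TILT (MP_7d29a1_pr, proofs rows 649 and 663), leaf (d), second part: the mean of the costs `CQ` under `phi`, and the contribution of one
site of the row `u`. (Model: `W_7d29a1_NP.MeanB`, helper56; port: helper83.)
-/

set_option autoImplicit false

namespace Pool.Agent.W_7d29a1_HN

open MeasureTheory ProbabilityTheory Filter Topology
open Pool.Agent.W_7d29a1_f21 Pool.Agent.W_7d29a1_F Pool.Agent.W_7d29a1_h4g Pool.Agent.W_7d29a1_H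
open Pool.Agent.W_7d29a1_HS Pool.Agent.W_7d29a1_HL Pool.Agent.W_7d29a1_HX.XG
open Pool.Agent.W_7d29a1_L78 Me

noncomputable section

variable {μ : Measure ℝ} [IsProbabilityMeasure μ] {s : ℝ}

/-- The mean of the cost of the way after one lucky strip. -/
theorem psi_CQ (hEM : Pool.Agent.W_7d29a1_h47.EM μ) {r lam : ℝ} (hr : 1 ≤ r) {m k : ℕ}
    (hp : 0 < pD μ s r k lam) {B1 : ℝ} (hB1 : 0 ≤ B1) {d : ℤ}
    (hend : ∀ y : ℤ, 0 ≤ y → y ≤ k → |(y : ℝ) - sl μ s * k| ≤ r →
      0 ≤ d - y ∧ d - y ≤ ((m - k : ℕ) : ℤ) ∧ ep μ s (m - k) (d - y) ≤ B1) (b : Pt) :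
    Integrable (fun η => CQ μ s (St μ s r b) η b k (m - k) d) (law μ) ∧
    ∫ η, psi μ s r k lam b η * CQ μ s (St μ s r b) η b k (m - k) d ∂(law μ) ≤ B1 := by
  obtain ⟨i0, -⟩ := CQ_mean (μ := μ) hEM (zero_le_one.trans hr) (subset_refl (St μ s r b)) k (m - k) d
    hB1 hend (S := ∅) (fun p hp => absurd hp (Set.notMem_empty p)) (A := Set.univ) MeasurableSet.univ
    (fun η η' _ => by simp)
  obtain ⟨i1, h1⟩ := CQ_mean (μ := μ) hEM (zero_le_one.trans hr) (subset_refl (St μ s r b)) k (m - k) d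
    hB1 hend (S := St μ s r b ∩ rows b.1 (b.1 + k)) (fun p hp => hp.2.2) (A := tD μ s r k lam b)
    (measurableSet_tD r k lam b) (fun η η' h => tD_dep' r k lam b h)
  refine ⟨?_, ?_⟩
  · refine i0.congr (ae_of_all _ fun η => ?_)
    show Set.univ.indicator (fun _ => (1 : ℝ)) η * CQ μ s (St μ s r b) η b k (m - k) d = _
    rw [Set.indicator_of_mem (Set.mem_univ η), one_mul]
  · obtain ⟨-, -, -, h2, -, -⟩ := psi_spec (μ := μ) hp b
    rw [h2] at h1
    have h3 : ∫ η, psi μ s r k lam b η * CQ μ s (St μ s r b) η b k (m - k) d ∂(law μ) =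
        (pD μ s r k lam)⁻¹ * ∫ η, (tD μ s r k lam b).indicator (fun _ => (1 : ℝ)) η *
          CQ μ s (St μ s r b) η b k (m - k) d ∂(law μ) := by
      rw [← integral_const_mul]
      refine integral_congr_ae (ae_of_all _ fun η => ?_)
      show (tD μ s r k lam b).indicator (fun _ => (1 : ℝ)) η / pD μ s r k lam * _ = _ * (_ * _)
      rw [div_eq_mul_inv]
      ring
    rw [h3]
    refine (mul_le_mul_of_nonneg_left h1 (inv_nonneg.2 hp.le)).trans (le_of_eq ?_)
    field_simp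

/-- The mean of the cost of the way after the lucky strip `j` under `phi`. -/
theorem phi_CQ (hEM : Pool.Agent.W_7d29a1_h47.EM μ) {r lam : ℝ} (hr : 1 ≤ r) {m k R : ℕ}
    (hp : 0 < pD μ s r k lam) (hk : k ≤ m) {B1 : ℝ} (hB1 : 0 ≤ B1)
    (hend : ∀ d : ℤ, |(d : ℝ) - sl μ s * m| < 1 → ∀ y : ℤ, 0 ≤ y → y ≤ k → |(y : ℝ) - sl μ s * k| ≤ r →
      0 ≤ d - y ∧ d - y ≤ ((m - k : ℕ) : ℤ) ∧ ep μ s (m - k) (d - y) ≤ B1) (a : ℕ) (z : ℤ) {j : ℕ} (hj : j < R) :
    Integrable (fun η => phi μ s r k lam a m R z η *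
      CQ μ s (St μ s r (tp μ s a m z j)) η (tp μ s a m z j) k (m - k) (dj μ s a m j)) (law μ) ∧
    ∫ η, phi μ s r k lam a m R z η *
      CQ μ s (St μ s r (tp μ s a m z j)) η (tp μ s a m z j) k (m - k) (dj μ s a m j) ∂(law μ) ≤ B1 := by
  obtain ⟨C, hC⟩ : ∃ C : Env → ℝ, C = fun η => CQ μ s (St μ s r (tp μ s a m z j)) η (tp μ s a m z j) k (m - k) (dj μ s a m j) :=
    ⟨_, rfl⟩
  obtain ⟨iC, hψC⟩ := psi_CQ (μ := μ) hEM hr hp hB1 (hend _ (dj_abs a m j)) (tp μ s a m z j)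
  obtain ⟨hφm, hφb, -, -, -⟩ := phi_spec (μ := μ) hp (a := a) (R := R) hk z
  have hCm : Measurable C := by rw [hC]; exact measurable_CQ _ _ _ _ _
  have hC0 : ∀ η, 0 ≤ C η := fun η => by rw [hC]; exact CQ_nonneg _ _ _ _ _ _
  have hCd : DependsOn C (rows ((a + j * m : ℕ) : ℤ) ((a + (j + 1) * m : ℕ) : ℤ)) := by
    have h1 := CQ_dep (μ := μ) (s := s) (St μ s r (tp μ s a m z j)) (tp μ s a m z j) k (m - k) (dj μ s a m j)
    have h2 : (tp μ s a m z j).1 + (k : ℤ) + ((m - k : ℕ) : ℤ) = ((a + (j + 1) * m : ℕ) : ℤ) := by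
      show ((a + j * m : ℕ) : ℤ) + k + ((m - k : ℕ) : ℤ) = _
      push_cast [Nat.cast_sub hk]
      ring
    rw [h2] at h1
    rw [hC]
    exact h1
  have hCe : ∀ η : Env, CQ μ s (St μ s r (tp μ s a m z j)) η (tp μ s a m z j) k (m - k) (dj μ s a m j) = C η :=
    fun η => by rw [hC]
  simp only [hCe] at hψC iC ⊢
  refine ⟨?_, ?_⟩
  · refine (iC.const_mul ((1 / pD μ s r k lam) ^ R)).mono' (hφm.mul hCm).aestronglyMeasurable
      (ae_of_all _ fun η => ?_)
    rw [Real.norm_eq_abs, abs_of_nonneg (mul_nonneg (hφb η).1 (hC0 η))]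
    exact mul_le_mul_of_nonneg_right (hφb η).2 (hC0 η)
  · obtain ⟨G, hG⟩ : ∃ G : ℕ → Env → ℝ, G = fun i η => psi μ s r k lam (tp μ s a m z i) η * (if i = j then C η else 1) :=
      ⟨_, rfl⟩
    have h1 : ∀ η, phi μ s r k lam a m R z η * C η = ∏ i ∈ Finset.range R, G i η := by
      intro η
      rw [hG]
      show phi μ s r k lam a m R z η * C η =
        ∏ i ∈ Finset.range R, psi μ s r k lam (tp μ s a m z i) η * (if i = j then C η else 1)
      rw [Finset.prod_mul_distrib, Finset.prod_ite_eq', if_pos (Finset.mem_range.2 hj)]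
      rfl
    have hdep : ∀ i, DependsOn (psi μ s r k lam (tp μ s a m z i))
        (rows ((a + i * m : ℕ) : ℤ) ((a + (i + 1) * m : ℕ) : ℤ)) := by
      intro i η η' h
      obtain ⟨-, -, h2, -, -, -⟩ := psi_spec (μ := μ) hp (tp μ s a m z i)
      refine h2 fun p hp2 => h p ⟨hp2.2.1, hp2.2.2.trans ?_⟩
      show ((a + i * m : ℕ) : ℤ) + k ≤ ((a + (i + 1) * m : ℕ) : ℤ)
      have h3 : (k : ℤ) ≤ m := by exact_mod_cast hk
      push_cast
      nlinarith
    have h2 := indep_prod (μ := μ) (Finset.range R) G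
      (fun i => rows ((a + i * m : ℕ) : ℤ) ((a + (i + 1) * m : ℕ) : ℤ))
      (fun i _ => by
        rw [hG]
        obtain ⟨h3, -⟩ := psi_spec (μ := μ) hp (tp μ s a m z i)
        by_cases h4 : i = j
        · simp only [h4, if_true]
          rw [h4] at h3
          exact h3.mul hCm
        · simp only [h4, if_false, mul_one]
          exact h3)
      (fun i _ => by
        rw [hG]
        by_cases h4 : i = j
        · simp only [h4, if_true]
          intro η η' h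
          show psi μ s r k lam (tp μ s a m z j) η * C η = psi μ s r k lam (tp μ s a m z j) η' * C η'
          rw [hdep j h, hCd h]
        · simp only [h4, if_false, mul_one]
          exact hdep i)
      (fun i _ i' _ h4 => by
        rcases Nat.lt_or_gt_of_ne h4 with h5 | h5
        · refine rows_disj ?_
          have h6 : (i + 1) * m ≤ i' * m := Nat.mul_le_mul_right m h5
          exact_mod_cast Nat.add_le_add_left h6 a
        · refine (rows_disj ?_).symm
          have h6 : (i' + 1) * m ≤ i * m := Nat.mul_le_mul_right m h5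
          exact_mod_cast Nat.add_le_add_left h6 a)
    simp only [h1]
    rw [h2]
    have h3 : ∀ i ∈ Finset.range R, ∫ η, G i η ∂(law μ) =
        if i = j then ∫ η, psi μ s r k lam (tp μ s a m z j) η * C η ∂(law μ) else 1 := by
      intro i _
      rw [hG]
      by_cases h4 : i = j
      · simp only [h4, if_true]
      · simp only [h4, if_false, mul_one]
        exact (psi_spec (μ := μ) hp (tp μ s a m z i)).2.2.2.2.1
    rw [Finset.prod_congr rfl h3, Finset.prod_ite_eq', if_pos (Finset.mem_range.2 hj)]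
    exact hψC

/-- (3.2): the contribution of one site of the row `u`. -/
theorem term_le (hEM : Pool.Agent.W_7d29a1_h47.EM μ) {r lam : ℝ} (hr : 1 ≤ r) {u m k R rr : ℕ}
    (hp : 0 < pD μ s r k lam) (hk : k ≤ m) {z : ℤ} {B1 B2 B3 : ℝ} (hB1 : 0 ≤ B1)
    (hend : ∀ d : ℤ, |(d : ℝ) - sl μ s * m| < 1 → ∀ y : ℤ, 0 ≤ y → y ≤ k → |(y : ℝ) - sl μ s * k| ≤ r →
      0 ≤ d - y ∧ d - y ≤ ((m - k : ℕ) : ℤ) ∧ ep μ s (m - k) (d - y) ≤ B1)
    {x y2 y3 : ℤ} (hx : x ∈ Finset.Icc (0 : ℤ) u)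
    (hy2 : 0 ≤ y2) (hy2' : y2 ≤ ((R * m : ℕ) : ℤ)) (h2 : ep μ s (R * m) y2 ≤ B2)
    (hy3 : 0 ≤ y3) (hy3' : y3 ≤ ((2 * (R * m) : ℕ) : ℤ)) (h3 : ep μ s (2 * (R * m)) y3 ≤ B3)
    (hpt : ∀ η : Env, Real.log (gw μ s η u (4 * (R * m)) rr x) - X μ s η ((u : ℤ), x) (R * m) y2 -
      X μ s η (tp μ s (u + R * m) m z R) (2 * (R * m)) y3 +
      ∑ j ∈ Finset.range R, (Real.log (cf μ s r η (tp μ s (u + R * m) m z j) k) -
          CQ μ s (St μ s r (tp μ s (u + R * m) m z j)) η (tp μ s (u + R * m) m z j) k (m - k) (dj μ s (u + R * m) m j)) ≤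
      V μ s η 0 (u + (4 * (R * m) + rr))) :
    (∫ η, qw μ s η u (4 * (R * m)) rr x ∂(law μ)) * (R * lam - R * B1 - B2 - B3) -
      ∫ η, qw μ s η u (4 * (R * m)) rr x *
        (V μ s η 0 (u + (4 * (R * m) + rr)) - Real.log (gw μ s η u (4 * (R * m)) rr x)) ∂(law μ) ≤
    ∫ η, V μ s η 0 (u + (4 * (R * m) + rr)) * qw μ s η u (4 * (R * m)) rr x *
      (phi μ s r k lam (u + R * m) m R z η - 1) ∂(law μ) := by
  obtain ⟨hφm, hφb, ⟨D, hD, hDd⟩, -, -⟩ := phi_spec (μ := μ) hp (a := u + R * m) (R := R) hk z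
  obtain ⟨φ, hφ⟩ : ∃ φ : Env → ℝ, φ = phi μ s r k lam (u + R * m) m R z := ⟨_, rfl⟩
  obtain ⟨q, hq⟩ : ∃ q : Env → ℝ, q = fun η => qw μ s η u (4 * (R * m)) rr x := ⟨_, rfl⟩
  obtain ⟨w, hw⟩ : ∃ w : Env → ℝ, w = fun η => Real.log (gw μ s η u (4 * (R * m)) rr x) := ⟨_, rfl⟩
  obtain ⟨F, hF⟩ : ∃ F : Env → ℝ, F = fun η => V μ s η 0 (u + (4 * (R * m) + rr)) := ⟨_, rfl⟩
  obtain ⟨u2, hu2⟩ : ∃ v : Env → ℝ, v = fun η => max (X μ s η ((u : ℤ), x) (R * m) y2) 0 := ⟨_, rfl⟩
  obtain ⟨u3, hu3⟩ : ∃ v : Env → ℝ, v = fun η => max (X μ s η (tp μ s (u + R * m) m z R) (2 * (R * m)) y3) 0 :=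
    ⟨_, rfl⟩
  obtain ⟨C, hC⟩ : ∃ C : ℕ → Env → ℝ, C = fun j η => CQ μ s (St μ s r (tp μ s (u + R * m) m z j)) η (tp μ s (u + R * m) m z j) k
    (m - k) (dj μ s (u + R * m) m j) := ⟨_, rfl⟩
  obtain ⟨O, hO⟩ : ∃ O : Set Pt, O = rows 0 u ∪ rows ((u : ℤ) + (4 * (R * m) : ℕ)) ((u : ℤ) + (4 * (R * m) : ℕ) + rr) :=
    ⟨_, rfl⟩
  obtain ⟨b, hb⟩ : ∃ b : ℝ, b = (1 / pD μ s r k lam) ^ R := ⟨_, rfl⟩
  -- the functions
  have hφ0 : ∀ η, 0 ≤ φ η := fun η => by rw [hφ]; exact (hφb η).1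
  have hφ1 : ∀ η, φ η ≤ b := fun η => by rw [hφ, hb]; exact (hφb η).2
  have hb0 : 0 ≤ b := (hφ0 0).trans (hφ1 0)
  have hφm' : Measurable φ := by rw [hφ]; exact hφm
  have hq0 : ∀ η, 0 ≤ q η := fun η => by rw [hq]; exact qw_nonneg η _ _ _ _
  have hq1 : ∀ η, q η ≤ 1 := fun η => by rw [hq]; exact qw_le_one η _ _ _ hx
  have hqm : Measurable q := by rw [hq]; exact measurable_qw _ _ _ _
  have hqd : DependsOn q O := by rw [hq, hO]; exact qw_dep u (4 * (R * m)) rr x
  have hqS : Sub q := Sub_bd hqm (b := 1) fun η => by rw [abs_of_nonneg (hq0 η)]; exact hq1 η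
  have hwS : Sub w := by rw [hw]; exact Sub_log_gw _ _ hx
  have hwd : DependsOn w O := by
    intro η η' h
    rw [hO] at h
    rw [hw]
    show Real.log (gw μ s η u (4 * (R * m)) rr x) = Real.log (gw μ s η' u (4 * (R * m)) rr x)
    rw [show gw μ s η u (4 * (R * m)) rr x = gw μ s η' u (4 * (R * m)) rr x from gw_dep (μ := μ) u (4 * (R * m)) rr x h]
  have hFS : Sub F := by rw [hF]; exact Sub_V 0 _
  have hu2S : Sub u2 := by rw [hu2]; exact Sub_Xp _ hy2 hy2'
  have hu3S : Sub u3 := by rw [hu3]; exact Sub_Xp _ hy3 hy3'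
  have hu2d : DependsOn u2 (rows (u : ℤ) ((u : ℤ) + (R * m : ℕ))) := by
    intro η η' h
    rw [hu2]
    show max (X μ s η ((u : ℤ), x) (R * m) y2) 0 = max (X μ s η' ((u : ℤ), x) (R * m) y2) 0
    rw [show X μ s η ((u : ℤ), x) (R * m) y2 = X μ s η' ((u : ℤ), x) (R * m) y2 from
      X_dep_rows (μ := μ) (s := s) ((u : ℤ), x) (R * m) y2 h]
  have hu3d : DependsOn u3 (rows (((u + R * m + R * m : ℕ)) : ℤ)
      (((u + R * m + R * m : ℕ) : ℤ) + (2 * (R * m) : ℕ))) := by
    intro η η' h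
    rw [hu3]
    show max (X μ s η (tp μ s (u + R * m) m z R) (2 * (R * m)) y3) 0 =
      max (X μ s η' (tp μ s (u + R * m) m z R) (2 * (R * m)) y3) 0
    rw [show X μ s η (tp μ s (u + R * m) m z R) (2 * (R * m)) y3 = X μ s η' (tp μ s (u + R * m) m z R) (2 * (R * m)) y3 from
      X_dep_rows (μ := μ) (s := s) (tp μ s (u + R * m) m z R) (2 * (R * m)) y3 h]
  -- disjointness
  have eL : ((R * m : ℕ) : ℤ) = (R : ℤ) * m := by push_cast; ring
  have hL0 : (0 : ℤ) ≤ (R : ℤ) * m := by positivity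
  have dO : Disjoint O (rows ((u + R * m : ℕ) : ℤ) ((u + R * m + R * m : ℕ) : ℤ)) := by
    rw [hO]
    refine Set.disjoint_union_left.2 ⟨rows_disj ?_, (rows_disj ?_).symm⟩
    · push_cast
      linarith
    · push_cast
      linarith
  have dO2 : Disjoint O (rows (u : ℤ) ((u : ℤ) + (R * m : ℕ))) := by
    rw [hO]
    refine Set.disjoint_union_left.2 ⟨rows_disj le_rfl, (rows_disj ?_).symm⟩
    push_cast
    linarith
  have dO3 : Disjoint O (rows (((u + R * m + R * m : ℕ)) : ℤ) (((u + R * m + R * m : ℕ) : ℤ) + (2 * (R * m) : ℕ))) := by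
    rw [hO]
    refine Set.disjoint_union_left.2 ⟨rows_disj ?_, (rows_disj ?_).symm⟩
    · push_cast
      linarith
    · push_cast
      linarith
  have d2 : Disjoint (rows (u : ℤ) ((u : ℤ) + (R * m : ℕ)))
      (rows ((u + R * m : ℕ) : ℤ) ((u + R * m + R * m : ℕ) : ℤ)) := rows_disj (by push_cast; linarith)
  have d3 : Disjoint (rows (((u + R * m + R * m : ℕ)) : ℤ) (((u + R * m + R * m : ℕ) : ℤ) + (2 * (R * m) : ℕ)))
      (rows ((u + R * m : ℕ) : ℤ) ((u + R * m + R * m : ℕ) : ℤ)) := (rows_disj le_rfl).symm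
  -- integrability
  have hφqS : Sub fun η => φ η * q η := Sub_bd (hφm'.mul hqm) (b := b) fun η => by
    rw [abs_of_nonneg (mul_nonneg (hφ0 η) (hq0 η))]
    have := mul_le_mul (hφ1 η) (hq1 η) (hq0 η) hb0
    linarith
  have iφq : Integrable (fun η => φ η * q η) (law μ) := hφqS.integrable hEM
  have i3f : ∀ {f : Env → ℝ}, Sub f → Integrable (fun η => φ η * (q η * f η)) (law μ) := by
    intro f hf
    have := Sub.mul_integrable hEM hφqS hf
    simpa only [mul_assoc] using this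
  have iC : ∀ j ∈ Finset.range R, Integrable (fun η => q η * (φ η * C j η)) (law μ) := by
    intro j hj
    obtain ⟨h4, -⟩ := phi_CQ (μ := μ) hEM hr hp hk hB1 hend (u + R * m) z (Finset.mem_range.1 hj)
    have h5 : Integrable (fun η => φ η * C j η) (law μ) := by rw [hφ, hC]; exact h4
    refine h5.abs.mono' (hqm.aestronglyMeasurable.mul h5.aestronglyMeasurable) (ae_of_all _ fun η => ?_)
    rw [Real.norm_eq_abs, abs_mul, abs_of_nonneg (hq0 η)]
    have := mul_le_mul_of_nonneg_right (hq1 η) (abs_nonneg (φ η * C j η))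
    linarith
  -- the means
  have I1 : ∫ η, φ η * q η ∂(law μ) = ∫ η, q η ∂(law μ) := by
    rw [hφ]
    exact phi_mul hp hk z hqm hqd dO
  have I2 : ∫ η, φ η * (q η * u2 η) ∂(law μ) ≤ (∫ η, q η ∂(law μ)) * B2 := by
    have h4 : ∫ η, φ η * (q η * u2 η) ∂(law μ) = ∫ η, q η * u2 η ∂(law μ) := by
      rw [hφ]
      refine phi_mul hp hk z (H := fun η => q η * u2 η) (hqm.mul hu2S.1)
        (S := O ∪ rows (u : ℤ) ((u : ℤ) + (R * m : ℕ))) ?_ (Set.disjoint_union_left.2 ⟨dO, d2⟩)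
      intro η η' h
      show q η * u2 η = q η' * u2 η'
      rw [hqd fun p hp => h p (Or.inl hp), hu2d fun p hp => h p (Or.inr hp)]
    rw [h4, integral_indep hqm hu2S.1 hqd hu2d dO2]
    refine mul_le_mul_of_nonneg_left (le_trans (le_of_eq ?_) h2) (integral_nonneg hq0)
    rw [hu2]
    exact integral_Xp _ _ _
  have I3 : ∫ η, φ η * (q η * u3 η) ∂(law μ) ≤ (∫ η, q η ∂(law μ)) * B3 := by
    have h4 : ∫ η, φ η * (q η * u3 η) ∂(law μ) = ∫ η, q η * u3 η ∂(law μ) := by
      rw [hφ]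
      refine phi_mul hp hk z (H := fun η => q η * u3 η) (hqm.mul hu3S.1)
        (S := O ∪ rows (((u + R * m + R * m : ℕ)) : ℤ) (((u + R * m + R * m : ℕ) : ℤ) + (2 * (R * m) : ℕ))) ?_
        (Set.disjoint_union_left.2 ⟨dO, d3⟩)
      intro η η' h
      show q η * u3 η = q η' * u3 η'
      rw [hqd fun p hp => h p (Or.inl hp), hu3d fun p hp => h p (Or.inr hp)]
    rw [h4, integral_indep hqm hu3S.1 hqd hu3d dO3]
    refine mul_le_mul_of_nonneg_left (le_trans (le_of_eq ?_) h3) (integral_nonneg hq0)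
    rw [hu3]
    exact integral_Xp _ _ _
  have I4 : ∀ j ∈ Finset.range R, ∫ η, q η * (φ η * C j η) ∂(law μ) ≤ (∫ η, q η ∂(law μ)) * B1 := by
    intro j hj
    obtain ⟨-, h5⟩ := phi_CQ (μ := μ) hEM hr hp hk hB1 hend (u + R * m) z (Finset.mem_range.1 hj)
    have hCm : Measurable (C j) := by rw [hC]; exact measurable_CQ _ _ _ _ _
    have hCd : DependsOn (fun η => φ η * C j η) (rows ((u + R * m : ℕ) : ℤ) ((u + R * m + R * m : ℕ) : ℤ)) := by
      intro η η' h
      have h6 : φ η = φ η' := by rw [hφ]; exact hDd fun p hp => h p (hD p hp)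
      have h7 : C j η = C j η' := by
        rw [hC]
        refine CQ_dep (μ := μ) (s := s) (St μ s r (tp μ s (u + R * m) m z j)) (tp μ s (u + R * m) m z j) k (m - k) (dj μ s (u + R * m) m j)
          fun p hp => h p ⟨?_, ?_⟩
        · have h8 : ((u + R * m + j * m : ℕ) : ℤ) < p.1 := hp.1
          have h9 : (0 : ℤ) ≤ (j : ℤ) * m := by positivity
          push_cast at h8 ⊢
          linarith
        · have h8 : p.1 ≤ ((u + R * m + j * m : ℕ) : ℤ) + k + ((m - k : ℕ) : ℤ) := hp.2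
          have h9 : (((j + 1) * m : ℕ) : ℤ) ≤ ((R * m : ℕ) : ℤ) := by
            exact_mod_cast Nat.mul_le_mul_right m (Finset.mem_range.1 hj)
          push_cast [Nat.cast_sub hk] at h8 h9 ⊢
          linarith
      show φ η * C j η = φ η' * C j η'
      rw [h6, h7]
    rw [integral_indep (f := q) (g := fun η => φ η * C j η) hqm (hφm'.mul hCm) hqd hCd dO]
    refine mul_le_mul_of_nonneg_left ?_ (integral_nonneg hq0)
    rw [hφ, hC]
    exact h5
  have I5 : ∫ η, φ η * (q η * w η) ∂(law μ) = ∫ η, q η * w η ∂(law μ) := by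
    rw [hφ]
    refine phi_mul hp hk z (H := fun η => q η * w η) (hqm.mul hwS.1) (S := O) ?_ dO
    intro η η' h
    show q η * w η = q η' * w η'
    rw [hqd h, hwd h]
  -- pointwise
  have P : ∀ η, R * lam * (φ η * q η) - φ η * (q η * u2 η) - φ η * (q η * u3 η) -
      ∑ j ∈ Finset.range R, q η * (φ η * C j η) ≤ φ η * (q η * F η) - φ η * (q η * w η) := by
    intro η
    have h4 : ∑ j ∈ Finset.range R, q η * (φ η * C j η) = φ η * q η * ∑ j ∈ Finset.range R, C j η := by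
      rw [Finset.mul_sum]
      exact Finset.sum_congr rfl fun j _ => by ring
    rw [h4]
    rcases (hφ0 η).eq_or_lt with h5 | h5
    · rw [← h5]
      simp
    · have h6 : ∀ j ∈ Finset.range R, lam ≤ Real.log (cf μ s r η (tp μ s (u + R * m) m z j) k) := by
        intro j hj
        have h7 : ∏ j ∈ Finset.range R, psi μ s r k lam (tp μ s (u + R * m) m z j) η ≠ 0 := by
          have h8 : φ η = ∏ j ∈ Finset.range R, psi μ s r k lam (tp μ s (u + R * m) m z j) η := by rw [hφ]; rfl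
          rw [← h8]
          exact h5.ne'
        have h8 := (Finset.prod_ne_zero_iff.1 h7) j hj
        by_contra h9
        apply h8
        unfold psi
        rw [Set.indicator_of_notMem (show η ∉ tD μ s r k lam (tp μ s (u + R * m) m z j) from h9), zero_div]
      have h7 : R * lam ≤ ∑ j ∈ Finset.range R, Real.log (cf μ s r η (tp μ s (u + R * m) m z j) k) := by
        have h8 := Finset.card_nsmul_le_sum _ _ _ h6
        rwa [Finset.card_range, nsmul_eq_mul] at h8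
      have h8 := hpt η
      rw [Finset.sum_sub_distrib] at h8
      have e2 : X μ s η ((u : ℤ), x) (R * m) y2 ≤ u2 η := by rw [hu2]; exact le_max_left _ _
      have e3 : X μ s η (tp μ s (u + R * m) m z R) (2 * (R * m)) y3 ≤ u3 η := by rw [hu3]; exact le_max_left _ _
      have e4 : Real.log (gw μ s η u (4 * (R * m)) rr x) = w η := by rw [hw]
      have e5 : V μ s η 0 (u + (4 * (R * m) + rr)) = F η := by rw [hF]
      have e6 : ∑ j ∈ Finset.range R, CQ μ s (St μ s r (tp μ s (u + R * m) m z j)) η (tp μ s (u + R * m) m z j) k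
          (m - k) (dj μ s (u + R * m) m j) = ∑ j ∈ Finset.range R, C j η := by rw [hC]
      rw [e4, e5, e6] at h8
      have h9 : R * lam - u2 η - u3 η - ∑ j ∈ Finset.range R, C j η ≤ F η - w η := by linarith
      have h10 := mul_le_mul_of_nonneg_left h9 (mul_nonneg h5.le (hq0 η))
      have e7 : φ η * q η * (R * lam - u2 η - u3 η - ∑ j ∈ Finset.range R, C j η) =
          R * lam * (φ η * q η) - φ η * (q η * u2 η) - φ η * (q η * u3 η) -
            φ η * q η * ∑ j ∈ Finset.range R, C j η := by ring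
      have e8 : φ η * q η * (F η - w η) = φ η * (q η * F η) - φ η * (q η * w η) := by ring
      rw [e7, e8] at h10
      exact h10
  have iS : Integrable (fun η => ∑ j ∈ Finset.range R, q η * (φ η * C j η)) (law μ) := integrable_finsetSum _ iC
  have iA : Integrable (fun η => R * lam * (φ η * q η)) (law μ) := iφq.const_mul _
  have iB : Integrable (fun η => R * lam * (φ η * q η) - φ η * (q η * u2 η)) (law μ) := iA.sub (i3f hu2S)
  have iD : Integrable (fun η => R * lam * (φ η * q η) - φ η * (q η * u2 η) - φ η * (q η * u3 η)) (law μ) :=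
    iB.sub (i3f hu3S)
  have J : ∫ η, (R * lam * (φ η * q η) - φ η * (q η * u2 η) - φ η * (q η * u3 η) -
      ∑ j ∈ Finset.range R, q η * (φ η * C j η)) ∂(law μ) ≤
      ∫ η, (φ η * (q η * F η) - φ η * (q η * w η)) ∂(law μ) :=
    integral_mono (iD.sub iS) ((i3f hFS).sub (i3f hwS)) P
  rw [integral_sub iD iS, integral_sub iB (i3f hu3S), integral_sub iA (i3f hu2S), integral_const_mul,
    integral_sub (i3f hFS) (i3f hwS), I1, I5, integral_finsetSum _ iC] at J
  have I4' : ∑ j ∈ Finset.range R, ∫ η, q η * (φ η * C j η) ∂(law μ) ≤ R * ((∫ η, q η ∂(law μ)) * B1) := by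
    have h4 := Finset.sum_le_card_nsmul _ _ _ I4
    rwa [Finset.card_range, nsmul_eq_mul] at h4
  have iqF : Integrable (fun η => q η * F η) (law μ) := Sub.mul_integrable hEM hqS hFS
  have iqw : Integrable (fun η => q η * w η) (law μ) := Sub.mul_integrable hEM hqS hwS
  have K1 : ∫ η, q η * (F η - w η) ∂(law μ) = ∫ η, q η * F η ∂(law μ) - ∫ η, q η * w η ∂(law μ) := by
    rw [← integral_sub iqF iqw]
    refine integral_congr_ae (ae_of_all _ fun η => ?_)
    show q η * (F η - w η) = q η * F η - q η * w η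
    ring
  have K2 : ∫ η, F η * q η * (φ η - 1) ∂(law μ) = ∫ η, φ η * (q η * F η) ∂(law μ) - ∫ η, q η * F η ∂(law μ) := by
    rw [← integral_sub (i3f hFS) iqF]
    refine integral_congr_ae (ae_of_all _ fun η => ?_)
    show F η * q η * (φ η - 1) = φ η * (q η * F η) - q η * F η
    ring
  have K : (∫ η, q η ∂(law μ)) * (R * lam - R * B1 - B2 - B3) - ∫ η, q η * (F η - w η) ∂(law μ) ≤
      ∫ η, F η * q η * (φ η - 1) ∂(law μ) := by
    rw [K1, K2]
    linarith
  rw [hq, hF, hw, hφ] at K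
  exact K

end

end Pool.Agent.W_7d29a1_HN
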