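import Pool.Agent.W_7d29a1_HN.MeanB

/-!
STRICT NEWMAN - PIZA AT EVERY TILT (MP_7d29a1_pr, proofs rows 649 and 663), leaf (d), third part: the covariance of the free energy with one test function
`phi`, from the deterministic inequality (leaf (c)). (Model: `W_7d29a1_NP.MeanC`, helper56; port: helper83.)
-/

set_option autoImplicit false

namespace Pool.Agent.W_7d29a1_HN

open MeasureTheory ProbabilityTheory Filter Topology
open Pool.Agent.W_7d29a1_f21 Pool.Agent.W_7d29a1_F Pool.Agent.W_7d29a1_h4g Pool.Agent.W_7d29a1_H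
open Pool.Agent.W_7d29a1_HS Pool.Agent.W_7d29a1_HL Pool.Agent.W_7d29a1_HX.XG
open Pool.Agent.W_7d29a1_L78 Me

noncomputable section

variable {μ : Measure ℝ} [IsProbabilityMeasure μ] {s : ℝ}

/-- The covariance with one `phi`, from the inequality of leaf (c). -/
theorem cov_phi_of (hEM : Pool.Agent.W_7d29a1_h47.EM μ) {r lam : ℝ} (hr : 1 ≤ r) {u m k R rr : ℕ}
    (hp : 0 < pD μ s r k lam) (hk : k ≤ m) {z : ℤ} {ρ B1 B2 B3 : ℝ} (hB1 : 0 ≤ B1)
    (hend : ∀ d : ℤ, |(d : ℝ) - sl μ s * m| < 1 → ∀ y : ℤ, 0 ≤ y → y ≤ k → |(y : ℝ) - sl μ s * k| ≤ r →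
      0 ≤ d - y ∧ d - y ≤ ((m - k : ℕ) : ℤ) ∧ ep μ s (m - k) (d - y) ≤ B1)
    (h2 : ∀ x ∈ nearS μ s u ρ z, 0 ≤ w2 μ s u (R * m) z x ∧ w2 μ s u (R * m) z x ≤ ((R * m : ℕ) : ℤ) ∧
      ep μ s (R * m) (w2 μ s u (R * m) z x) ≤ B2)
    (h3 : ∀ x ∈ nearS μ s u ρ z, 0 ≤ w3 μ s u (R * m) z x ∧ w3 μ s u (R * m) z x ≤ ((2 * (R * m) : ℕ) : ℤ) ∧
      ep μ s (2 * (R * m)) (w3 μ s u (R * m) z x) ≤ B3)
    (hch : ∀ x ∈ nearS μ s u ρ z, ∀ η : Env, Real.log (gw μ s η u (4 * (R * m)) rr x)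
      - X μ s η ((u : ℤ), x) (R * m) (w2 μ s u (R * m) z x)
      - X μ s η (tp μ s (u + R * m) m z R) (2 * (R * m)) (w3 μ s u (R * m) z x)
      + ∑ j ∈ Finset.range R, (Real.log (cf μ s r η (tp μ s (u + R * m) m z j) k) -
          CQ μ s (St μ s r (tp μ s (u + R * m) m z j)) η (tp μ s (u + R * m) m z j) k (m - k)
            (dj μ s (u + R * m) m j)) ≤
      V μ s η 0 (u + (4 * (R * m) + rr))) :
    ∑ x ∈ nearS μ s u ρ z, ((∫ η, qw μ s η u (4 * (R * m)) rr x ∂(law μ)) * (R * lam - R * B1 - B2 - B3) -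
      ∫ η, qw μ s η u (4 * (R * m)) rr x *
        (V μ s η 0 (u + (4 * (R * m) + rr)) - Real.log (gw μ s η u (4 * (R * m)) rr x)) ∂(law μ)) ≤
    ∫ η, V μ s η 0 (u + (4 * (R * m) + rr)) * (phi μ s r k lam (u + R * m) m R z η - 1) ∂(law μ) := by
  obtain ⟨hφm, hφb, ⟨D, hD, hDd⟩, hφmo, hφ1⟩ := phi_spec (μ := μ) hp (a := u + R * m) (R := R) hk z
  obtain ⟨φ, hφ⟩ : ∃ φ : Env → ℝ, φ = phi μ s r k lam (u + R * m) m R z := ⟨_, rfl⟩
  obtain ⟨b, hb⟩ : ∃ b : ℝ, b = (1 / pD μ s r k lam) ^ R := ⟨_, rfl⟩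
  rw [← hφ] at hφm hφb hDd hφmo hφ1
  rw [← hb] at hφb
  have hN : nearS μ s u ρ z ⊆ Finset.Icc (0 : ℤ) u := Finset.filter_subset _ _
  have eL : ((R * m : ℕ) : ℤ) = (R : ℤ) * m := by push_cast; ring
  have hL0 : (0 : ℤ) ≤ (R : ℤ) * m := by positivity
  -- (3.1)
  have H := harris_part (μ := μ) (s := s) hEM (u := u) (l := 4 * (R * m)) (rr := rr) hN hφm hφb (D := D)
    (fun p hp2 => by
      obtain ⟨h4, h5⟩ := hD p hp2
      refine ⟨?_, ?_⟩
      · push_cast at h4 ⊢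
        linarith
      · push_cast at h5 ⊢
        linarith) hDd hφmo hφ1
  -- (3.2)
  have T : ∀ x ∈ nearS μ s u ρ z, (∫ η, qw μ s η u (4 * (R * m)) rr x ∂(law μ)) * (R * lam - R * B1 - B2 - B3) -
      ∫ η, qw μ s η u (4 * (R * m)) rr x *
        (V μ s η 0 (u + (4 * (R * m) + rr)) - Real.log (gw μ s η u (4 * (R * m)) rr x)) ∂(law μ) ≤
      ∫ η, V μ s η 0 (u + (4 * (R * m) + rr)) * qw μ s η u (4 * (R * m)) rr x * (φ η - 1) ∂(law μ) := by
    intro x hx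
    rw [hφ]
    obtain ⟨h4, h5, h6⟩ := h2 x hx
    obtain ⟨h7, h8, h9⟩ := h3 x hx
    exact term_le (μ := μ) hEM hr hp hk hB1 hend (hN hx) h4 h5 h6 h7 h8 h9 (hch x hx)
  -- the sum
  have hFS : Sub fun η : Env => V μ s η 0 (u + (4 * (R * m) + rr)) := Sub_V 0 _
  have hb0 : 0 ≤ b := (hφb 0).1.trans (hφb 0).2
  have iS : ∀ {f : Env → ℝ} {b : ℝ}, Measurable f → (∀ η, 0 ≤ f η ∧ f η ≤ b) →
      Integrable (fun η => V μ s η 0 (u + (4 * (R * m) + rr)) * f η * (φ η - 1)) (law μ) := by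
    intro f c hf hc
    have h4 : Sub fun η => f η * (φ η - 1) := Sub_bd (hf.mul (hφm.sub measurable_const)) (b := c * (b + 1)) fun η => by
      rw [abs_mul, abs_of_nonneg (hc η).1]
      refine mul_le_mul (hc η).2 ?_ (abs_nonneg _) ((hc η).1.trans (hc η).2)
      have h5 := hφb η
      rw [abs_le]
      constructor <;> linarith
    have := Sub.mul_integrable hEM hFS h4
    simpa only [mul_assoc] using this
  have i1 : Integrable (fun η => V μ s η 0 (u + (4 * (R * m) + rr)) *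
      (1 - ∑ x ∈ nearS μ s u ρ z, qw μ s η u (4 * (R * m)) rr x) * (φ η - 1)) (law μ) :=
    iS (b := 1) (measurable_const.sub (Finset.measurable_sum _ fun x _ => measurable_qw _ _ _ x)) fun η => by
      have h4 := sum_qw_le (μ := μ) (s := s) hN η (4 * (R * m)) rr
      have h5 : 0 ≤ ∑ x ∈ nearS μ s u ρ z, qw μ s η u (4 * (R * m)) rr x := Finset.sum_nonneg fun x _ => qw_nonneg _ _ _ _ _
      constructor <;> linarith
  have i2 : ∀ x ∈ nearS μ s u ρ z, Integrable (fun η => V μ s η 0 (u + (4 * (R * m) + rr)) *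
      qw μ s η u (4 * (R * m)) rr x * (φ η - 1)) (law μ) := fun x hx =>
    iS (b := 1) (measurable_qw _ _ _ x) fun η => ⟨qw_nonneg _ _ _ _ _, qw_le_one _ _ _ _ (hN hx)⟩
  have E : ∫ η, V μ s η 0 (u + (4 * (R * m) + rr)) * (φ η - 1) ∂(law μ) =
      ∫ η, V μ s η 0 (u + (4 * (R * m) + rr)) *
        (1 - ∑ x ∈ nearS μ s u ρ z, qw μ s η u (4 * (R * m)) rr x) * (φ η - 1) ∂(law μ) +
      ∑ x ∈ nearS μ s u ρ z, ∫ η, V μ s η 0 (u + (4 * (R * m) + rr)) *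
        qw μ s η u (4 * (R * m)) rr x * (φ η - 1) ∂(law μ) := by
    rw [← integral_finsetSum _ i2, ← integral_add i1 (integrable_finsetSum _ i2)]
    refine integral_congr_ae (ae_of_all _ fun η => ?_)
    show V μ s η 0 (u + (4 * (R * m) + rr)) * (φ η - 1) =
      V μ s η 0 (u + (4 * (R * m) + rr)) * (1 - ∑ x ∈ nearS μ s u ρ z, qw μ s η u (4 * (R * m)) rr x) * (φ η - 1) +
        ∑ x ∈ nearS μ s u ρ z, V μ s η 0 (u + (4 * (R * m) + rr)) * qw μ s η u (4 * (R * m)) rr x * (φ η - 1)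
    rw [← Finset.sum_mul, ← Finset.mul_sum]
    ring
  have Fin := Finset.sum_le_sum T
  rw [← hφ, E]
  linarith

end

end Pool.Agent.W_7d29a1_HN
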