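import Pool.Agent.W_7d29a1_HN.Defs
import Pool.Agent.W_7d29a1_HX.XG_Good
import Pool.Agent.W_7d29a1_HL.LuckSide

/-!
STRICT NEWMAN - PIZA AT EVERY TILT (MP_7d29a1_pr, proofs rows 649, 663): the random weights of the glued functional.
-/

set_option autoImplicit false

namespace Pool.Agent.W_7d29a1_HN

open MeasureTheory ProbabilityTheory Filter Topology Finset
open Pool.Agent.W_7d29a1_F Pool.Agent.W_7d29a1_h4g Pool.Agent.W_7d29a1_H Pool.Agent.W_7d29a1_HS
open Pool.Agent.W_7d29a1_HX.XG

noncomputable section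

/-- The random weights of the glued functional (the rows `(u, u + l]` are removed). -/
def qw (μ : Measure ℝ) (s : ℝ) (η : Env) (u l rr : ℕ) (x : ℤ) : ℝ := gw μ s η u l rr x / glue μ s η u l rr

end

end Pool.Agent.W_7d29a1_HN
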