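import Pool.Agent.W_7d29a1_HN.Defs

/-!
MP_7d29a1_pr, TRACK H, part 4 (strict Newman - Piza at the tilt `s`): the scales and the costs of one block.
(Model: `W_7d29a1_NP.Scl`.) (helper43)
-/

set_option autoImplicit false

namespace Pool.Agent.W_7d29a1_HN

open MeasureTheory ProbabilityTheory Filter Topology Finset
open Pool.Agent.W_7d29a1_f21 Pool.Agent.W_7d29a1_F Pool.Agent.W_7d29a1_h4g Pool.Agent.W_7d29a1_H
open Pool.Agent.W_7d29a1_HS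
open Pool.Agent.W_7d29a1_X42 hiding sl

noncomputable section

variable {μ : Measure ℝ} [IsProbabilityMeasure μ] {s c C : ℝ} {n₀ : ℕ}

omit [IsProbabilityMeasure μ] in
/-- Bounded functions. -/
theorem Sub_bd {f : Env → ℝ} (hm : Measurable f) {B : ℝ} (h : ∀ η, |f η| ≤ B) : Sub f := by
  refine ⟨hm, ∅, max B 0, le_max_right _ _, fun η => ?_⟩
  rw [Finset.sum_empty, add_zero, mul_one]
  exact (h η).trans (le_max_left _ _)

theorem wd_nonneg (h : In μ s c C n₀) (n : ℕ) : 0 ≤ wd μ s n := h.wd_nonneg n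

theorem wd_le2 (h : In μ s c C n₀) : ∃ n₁ : ℕ, ∀ m n : ℕ, n₁ ≤ m → m ≤ n → wd μ s m ≤ 2 * wd μ s n := by
  obtain ⟨n₁, h1⟩ := wd_growth h
  refine ⟨n₁, fun m n hm hmn => ?_⟩
  have h2 := h1 m n hm hmn
  have h3 : EE μ s m ≤ EE μ s n := EE_mono hmn
  have h4 := EE_pos (μ := μ) (s := s) n
  have h5 := wd_nonneg h n
  have h6 : 2 * EE μ s m * wd μ s n ≤ 2 * EE μ s n * wd μ s n := by
    have := mul_le_mul_of_nonneg_right h3 h5
    linarith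
  have h7 : wd μ s m * EE μ s n ≤ (2 * wd μ s n) * EE μ s n := by linarith
  exact le_of_mul_le_mul_right h7 h4

/-- The slope is inside `(0, 1)`. -/
theorem slm_pos (h : In μ s c C n₀) : 0 < min (sl μ s) (1 - sl μ s) := lt_min h.sl_pos (by linarith [h.sl_lt])

/-- The duration and the width of the lucky strips. -/
theorem strip_k (h : In μ s c C n₀) {R₁ : ℝ} (hR₁ : 1 ≤ R₁) : ∃ J₁ i₁ : ℕ, 1 ≤ J₁ ∧ ∀ i : ℕ, i₁ ≤ i → J₁ + 1 ≤ i ∧
    1 ≤ R₁ * wd μ s (2 ^ (i - J₁)) ∧ R₁ * wd μ s (2 ^ (i - J₁)) ≤ c * wd μ s (2 ^ i) / 64 ∧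
    1 ≤ c * wd μ s (2 ^ i) / 16 ∧ wd μ s (2 ^ i) ≤ min (sl μ s) (1 - sl μ s) * (2 ^ i : ℕ) := by
  have hc0 := h.c0
  have hR0 : 0 < R₁ := lt_of_lt_of_le one_pos hR₁
  obtain ⟨J, n₁, hJ⟩ := scale_a h (128 * R₁ / c)
  obtain ⟨n₂, h2⟩ := wd_growth h
  obtain ⟨n₃, h3⟩ := eventually_atTop.1 ((wd_tendsto h).eventually_ge_atTop (max 1 (16 / c)))
  obtain ⟨n₄, h4⟩ := eventually_atTop.1 (h.tv.eventually_le_const (slm_pos h))
  obtain ⟨N, hN⟩ : ∃ N : ℕ, N = max (max n₁ n₂) (max n₃ n₄) := ⟨_, rfl⟩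
  refine ⟨J + 1, N + J + 2, by omega, fun i hi => ?_⟩
  obtain ⟨t, ht⟩ : ∃ t : ℕ, i = t + (J + 1) := ⟨i - (J + 1), by omega⟩
  have htN : N ≤ 2 ^ t := (show N ≤ t by omega).trans Nat.lt_two_pow_self.le
  have htN' : N ≤ 2 ^ i := (show N ≤ i by omega).trans Nat.lt_two_pow_self.le
  have hk1 : n₂ ≤ 2 ^ t := ((le_max_right _ _).trans (le_max_left _ _)).trans (hN ▸ htN)
  have hk3 : n₃ ≤ 2 ^ t := ((le_max_left _ _).trans (le_max_right _ _)).trans (hN ▸ htN)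
  have hm1 : n₁ ≤ 2 ^ i := ((le_max_left _ _).trans (le_max_left _ _)).trans (hN ▸ htN')
  have hm3 : n₃ ≤ 2 ^ i := ((le_max_left _ _).trans (le_max_right _ _)).trans (hN ▸ htN')
  have hm4 : n₄ ≤ 2 ^ i := ((le_max_right _ _).trans (le_max_right _ _)).trans (hN ▸ htN')
  have e1 : i - (J + 1) = t := by omega
  have e2 : 2 ^ J * 2 ^ t ≤ 2 ^ i := by
    rw [← pow_add]
    exact Nat.pow_le_pow_right (by norm_num) (by omega)
  rw [e1]
  have hkm : 2 ^ t ≤ 2 ^ i := Nat.pow_le_pow_right (by norm_num) (by omega)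
  have a1 := hJ (2 ^ t) (2 ^ i) hm1 e2
  have a2 := h2 (2 ^ t) (2 ^ i) hk1 hkm
  have a3 := h3 (2 ^ t) hk3
  have a4 := h3 (2 ^ i) hm3
  have a5 := h4 (2 ^ i) hm4
  have wk := wd_nonneg h (2 ^ t)
  have wm := wd_nonneg h (2 ^ i)
  have Ek := EE_pos (μ := μ) (s := s) (2 ^ t)
  refine ⟨by omega, ?_, ?_, ?_, ?_⟩
  · have : 1 ≤ wd μ s (2 ^ t) := (le_max_left _ _).trans a3
    nlinarith
  · have b1 : wd μ s (2 ^ t) * (128 * R₁ / c * EE μ s (2 ^ t)) ≤ wd μ s (2 ^ t) * EE μ s (2 ^ i) :=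
      mul_le_mul_of_nonneg_left a1 wk
    have b2 : (128 * R₁ / c * wd μ s (2 ^ t)) * EE μ s (2 ^ t) ≤ (2 * wd μ s (2 ^ i)) * EE μ s (2 ^ t) := by
      calc (128 * R₁ / c * wd μ s (2 ^ t)) * EE μ s (2 ^ t) = wd μ s (2 ^ t) * (128 * R₁ / c * EE μ s (2 ^ t)) := by ring
        _ ≤ 2 * EE μ s (2 ^ t) * wd μ s (2 ^ i) := b1.trans a2
        _ = (2 * wd μ s (2 ^ i)) * EE μ s (2 ^ t) := by ring
    have b3 := le_of_mul_le_mul_right b2 Ek
    rw [div_mul_eq_mul_div, div_le_iff₀ hc0] at b3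
    linarith
  · have b1 : 16 / c ≤ wd μ s (2 ^ i) := (le_max_right _ _).trans a4
    rw [div_le_iff₀ hc0] at b1
    linarith
  · have b1 : wd μ s (2 ^ i) = vA 1 μ s (2 ^ i) * ((2 ^ i : ℕ) : ℝ) := mul_comm _ _
    rw [b1]
    exact mul_le_mul_of_nonneg_right a5 (Nat.cast_nonneg _)

/-- The costs of the joints. -/
theorem joint (h : In μ s c C n₀) {m k : ℕ} (hm : n₀ ≤ m) (hke : 2 * k ≤ m) {r : ℝ}
    (hr2 : r ≤ c * wd μ s m / 64) (h1 : 1 ≤ c * wd μ s m / 16) (hw : wd μ s m ≤ min (sl μ s) (1 - sl μ s) * m) :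
    ∀ d : ℤ, |(d : ℝ) - sl μ s * m| < 1 → ∀ y : ℤ, 0 ≤ y → y ≤ k → |(y : ℝ) - sl μ s * k| ≤ r →
      0 ≤ d - y ∧ d - y ≤ ((m - k : ℕ) : ℤ) ∧ ep μ s (m - k) (d - y) ≤ C * EE μ s m := by
  intro d hd y hy0 hyk hy
  have hc0 := h.c0
  have hc1 := h.c1
  have hwn := wd_nonneg h m
  have hcw : c * wd μ s m ≤ 1 * wd μ s m := mul_le_mul_of_nonneg_right hc1 hwn
  have hs0 := h.sl_pos
  have hs1 := h.sl_lt
  have hm0 : (0 : ℝ) ≤ m := Nat.cast_nonneg _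
  have hw1 : wd μ s m ≤ sl μ s * m := hw.trans (mul_le_mul_of_nonneg_right (min_le_left _ _) hm0)
  have hw2 : wd μ s m ≤ (1 - sl μ s) * m := hw.trans (mul_le_mul_of_nonneg_right (min_le_right _ _) hm0)
  have e2 : ((m - k : ℕ) : ℤ) = (m : ℤ) - k := by omega
  have hmk : ((m - k : ℕ) : ℝ) = (m : ℝ) - k := by
    have : ((m - k : ℕ) : ℤ) = (m : ℤ) - k := e2
    exact_mod_cast this
  have hk2 : 2 * (k : ℝ) ≤ m := by exact_mod_cast hke
  rw [abs_le] at hy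
  rw [abs_lt] at hd
  have g1 : sl μ s * m / 2 ≤ sl μ s * ((m : ℝ) - k) := by
    have : sl μ s * ((m : ℝ) / 2) ≤ sl μ s * ((m : ℝ) - k) := mul_le_mul_of_nonneg_left (by linarith) hs0.le
    linarith
  have g2 : (1 - sl μ s) * m / 2 ≤ (1 - sl μ s) * ((m : ℝ) - k) := by
    have : (1 - sl μ s) * ((m : ℝ) / 2) ≤ (1 - sl μ s) * ((m : ℝ) - k) :=
      mul_le_mul_of_nonneg_left (by linarith) (by linarith)
    linarith
  have p1 : (0 : ℝ) ≤ (d : ℝ) - y := by nlinarith [hy.1, hy.2, hd.1, hd.2]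
  have p2 : (d : ℝ) - y ≤ (m : ℝ) - k := by nlinarith [hy.1, hy.2, hd.1, hd.2]
  have h2 : (0 : ℤ) ≤ d - y := by
    have : (0 : ℝ) ≤ ((d - y : ℤ) : ℝ) := by
      push_cast
      exact p1
    exact_mod_cast this
  have h3 : d - y ≤ ((m - k : ℕ) : ℤ) := by
    have : ((d - y : ℤ) : ℝ) ≤ (((m : ℤ) - k : ℤ) : ℝ) := by
      push_cast
      exact p2
    rw [e2]
    exact_mod_cast this
  refine ⟨h2, h3, h.inn m hm (m - k) _ (by omega) h2 h3 ?_⟩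
  rw [hmk]
  have e4 : c * wd μ s m / 2 ≤ c * vA 1 μ s m * ((m : ℝ) - k) := by
    have h5 : c * vA 1 μ s m * ((m : ℝ) / 2) ≤ c * vA 1 μ s m * ((m : ℝ) - k) := by
      refine mul_le_mul_of_nonneg_left (by linarith) ?_
      exact mul_nonneg hc0.le (h.vA_nonneg m)
    have h6 : c * vA 1 μ s m * ((m : ℝ) / 2) = c * wd μ s m / 2 := by
      unfold wd
      ring
    linarith
  have h7 : 0 ≤ c * wd μ s m := mul_nonneg hc0.le hwn
  push_cast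
  rw [abs_le]
  constructor <;> nlinarith [hy.1, hy.2, hd.1, hd.2]

/-- The costs of the first and the last way. -/
theorem ways (h : In μ s c C n₀) {L u : ℕ} (hL : n₀ ≤ L) (h1 : 1 ≤ c * wd μ s L / 16)
    (hw : wd μ s L ≤ min (sl μ s) (1 - sl μ s) * L) {z x : ℤ} (hx : |(x : ℝ) - sl μ s * u - z| ≤ c * wd μ s L / 4) :
    (0 ≤ w2 μ s u L z x ∧ w2 μ s u L z x ≤ L ∧ ep μ s L (w2 μ s u L z x) ≤ C * EE μ s L) ∧
    (0 ≤ w3 μ s u L z x ∧ w3 μ s u L z x ≤ ((2 * L : ℕ) : ℤ) ∧ ep μ s (2 * L) (w3 μ s u L z x) ≤ C * EE μ s L) := by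
  have hc0 := h.c0
  have hc1 := h.c1
  have hwn := wd_nonneg h L
  have hcw : c * wd μ s L ≤ 1 * wd μ s L := mul_le_mul_of_nonneg_right hc1 hwn
  have hcw0 : 0 ≤ c * wd μ s L := mul_nonneg hc0.le hwn
  have hL0 : (0 : ℝ) ≤ L := Nat.cast_nonneg _
  have hw1 : wd μ s L ≤ sl μ s * L := hw.trans (mul_le_mul_of_nonneg_right (min_le_left _ _) hL0)
  have hw2 : wd μ s L ≤ (1 - sl μ s) * L := hw.trans (mul_le_mul_of_nonneg_right (min_le_right _ _) hL0)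
  have hwl : c * vA 1 μ s L * (L : ℝ) = c * wd μ s L := by
    unfold wd
    ring
  have a2 := (w2_abs (μ := μ) (s := s) u L z x).trans (add_le_add_left hx 1)
  have a3 := (w3_abs (μ := μ) (s := s) u L z x).trans (add_le_add_left hx 1)
  have a2' := abs_le.1 a2
  have a3' := abs_le.1 a3
  push_cast at a3'
  constructor
  · have p1 : (0 : ℝ) ≤ ((w2 μ s u L z x : ℤ) : ℝ) := by linarith [a2'.1, a2'.2]
    have p2 : ((w2 μ s u L z x : ℤ) : ℝ) ≤ ((L : ℤ) : ℝ) := by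
      push_cast
      linarith [a2'.1, a2'.2]
    have q1 : 0 ≤ w2 μ s u L z x := by exact_mod_cast p1
    have q2 : w2 μ s u L z x ≤ (L : ℤ) := by exact_mod_cast p2
    refine ⟨q1, q2, h.inn L hL L _ (by omega) q1 q2 (a2.trans ?_)⟩
    rw [hwl]
    linarith
  · have p1 : (0 : ℝ) ≤ ((w3 μ s u L z x : ℤ) : ℝ) := by linarith [a3'.1, a3'.2]
    have p2 : ((w3 μ s u L z x : ℤ) : ℝ) ≤ (((2 * L : ℕ) : ℤ) : ℝ) := by
      push_cast
      linarith [a3'.1, a3'.2]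
    have q1 : 0 ≤ w3 μ s u L z x := by exact_mod_cast p1
    have q2 : w3 μ s u L z x ≤ ((2 * L : ℕ) : ℤ) := by exact_mod_cast p2
    refine ⟨q1, q2, h.inn L hL (2 * L) _ (by omega) q1 q2 (a3.trans ?_)⟩
    have e3 : c * vA 1 μ s L * ((2 * L : ℕ) : ℝ) = 2 * (c * wd μ s L) := by
      rw [← hwl]
      push_cast
      ring
    rw [e3]
    linarith

end

end Pool.Agent.W_7d29a1_HN
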